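import Mathlib

open MeasureTheory ProbabilityTheory Filter Topology
open scoped ENNReal

noncomputable section
namespace Pool.Agent.Lib.MP_4492e9_an

/-- The 2-torus. -/
abbrev T2 : Type := AddCircle (1 : ℝ) × AddCircle (1 : ℝ)

/-- The universal covering map. -/
def proj (z : ℝ × ℝ) : T2 := ((z.1 : AddCircle (1 : ℝ)), (z.2 : AddCircle (1 : ℝ)))

/-- `c` is a Lyapunov exponent at `x` of the torus map with lift `F`. -/
def IsExponent (F : ℝ × ℝ → ℝ × ℝ) (x : T2) (c : ℝ) : Prop :=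
  ∃ z v : ℝ × ℝ, proj z = x ∧ v ≠ 0 ∧
    Tendsto (fun n : ℕ => Real.log ‖fderiv ℝ F^[n] z v‖ / n) atTop (𝓝 c)

/-- Local Pesin unstable manifold of size `r` and rate `a`; `g` is the inverse map. -/
def locU (g : T2 → T2) (x : T2) (a r : ℝ) : Set T2 :=
  {y | ∀ n : ℕ, dist (g^[n] x) (g^[n] y) ≤ r * Real.exp (-a * n)}

/-- Global Pesin unstable manifold. -/
def globU (g : T2 → T2) (x : T2) : Set T2 := {y | ∃ a r : ℝ, 0 < a ∧ y ∈ locU g x a r}

/-- The measurable partition into fibres of `ξ` is subordinate to the unstable manifolds. -/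
def Subord (g : T2 → T2) (η : Measure T2) (ξ : T2 → ℝ) : Prop :=
  Measurable ξ ∧ ∀ᵐ x ∂η, {y | ξ y = ξ x} ⊆ globU g x ∧
    ∀ a : ℝ, 0 < a → ∃ r : ℝ, 0 < r ∧ locU g x a r ⊆ {y | ξ y = ξ x}

/-- The conditional measures on the fibres of `ξ` are absolutely continuous with respect to
arc length on the unstable manifolds. -/
def AbsCont (g : T2 → T2) (η : Measure T2) [IsProbabilityMeasure η] (ξ : T2 → ℝ) : Prop :=
  ∀ᵐ x ∂η, condDistrib id ξ η (ξ x) ≪ (Measure.hausdorffMeasure 1).restrict (globU g x)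

/-- Unstable SRB measure. -/
def IsSRB (F : ℝ × ℝ → ℝ × ℝ) (g : T2 → T2) (η : Measure T2) [IsProbabilityMeasure η] : Prop :=
  (∀ᵐ x ∂η, ∃ c : ℝ, 0 < c ∧ IsExponent F x c) ∧ ∃ ξ : T2 → ℝ, Subord g η ξ ∧ AbsCont g η ξ

/-- Kolmogorov-Sinai entropy. -/
def ksEntropy (f : T2 → T2) (η : Measure T2) : EReal :=
  ⨆ (k : ℕ) (P : T2 → Fin k) (_ : Measurable P),
    limsup (fun n : ℕ => (((∑ w : Fin n → Fin k,
      Real.negMulLog (η.real {x | ∀ i : Fin n, P (f^[i] x) = w i})) / n : ℝ) : EReal)) atTop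

/-- Hausdorff dimension of a measure. -/
def measDim (η : Measure T2) : ℝ≥0∞ :=
  ⨅ (Z : Set T2) (_ : MeasurableSet Z) (_ : η Z = 1), dimH Z

end Pool.Agent.Lib.MP_4492e9_an
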