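import Pool.Agent.Lib.MP_4492e9_an.Entropy

open Set Filter Topology MeasureTheory
open scoped ENNReal NNReal MeasureTheory

set_option synthInstance.maxSize 1024

noncomputable section
namespace Pool.Agent.Lib.MP_4492e9_an

theorem haus_limsup {ι : ℕ → Type} (s : ∀ J, Finset (ι J)) (t : ∀ J, ι J → Set T2)
    {C c T d : ℝ} (hC : 0 ≤ C) (hc : 0 < c) (hd : 0 ≤ d) (hT : T < c * d)
    (hs : ∀ J, ((s J).card : ℝ) ≤ Real.exp (J * T))
    (ht : ∀ J w, ∀ x ∈ t J w, ∀ y ∈ t J w, dist x y ≤ C * Real.exp (-(J * c)))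
    {Z : Set T2} (hZ : ∀ K, Z ⊆ ⋃ J ≥ K, ⋃ w ∈ s J, t J w) : μH[d] Z = 0 := by
  have hd1 : ∀ J w, Metric.ediam (t J w) ≤ ENNReal.ofReal (C * Real.exp (-(J * c))) :=
    fun J w => Metric.ediam_le_of_forall_dist_le (ht J w)
  have t0 : Tendsto (fun n : ℕ => ENNReal.ofReal (C * Real.exp (-(n * c)))) atTop (𝓝 0) := by
    rw [← ENNReal.ofReal_zero]
    apply ENNReal.tendsto_ofReal
    have := (Real.tendsto_exp_neg_atTop_nhds_zero.comp
      (tendsto_natCast_atTop_atTop.atTop_mul_const hc)).const_mul C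
    simpa using this
  have h1 := Measure.hausdorffMeasure_le_liminf_tsum (ι := fun n : ℕ => Σ J : ℕ, s (J + n)) d Z
    (fun n : ℕ => ENNReal.ofReal (C * Real.exp (-(n * c)))) t0
    (fun n p => t (p.1 + n) p.2) (Eventually.of_forall fun n p => (hd1 _ _).trans (by
      apply ENNReal.ofReal_le_ofReal
      apply mul_le_mul_of_nonneg_left _ hC
      apply Real.exp_le_exp.2
      push_cast
      nlinarith [Nat.cast_nonneg (α := ℝ) p.1]))
    (Eventually.of_forall fun n x hx => by
      obtain ⟨J, hJ, hx⟩ := mem_iUnion₂.1 (hZ n hx)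
      obtain ⟨w, hw, hx⟩ := mem_iUnion₂.1 hx
      obtain ⟨k, rfl⟩ := Nat.exists_eq_add_of_le' hJ
      exact mem_iUnion.2 ⟨⟨k, w, hw⟩, hx⟩)
  set q := ENNReal.ofReal (Real.exp (T - c * d)) with hq
  have hq1 : q < 1 := by
    rw [hq, ENNReal.ofReal_lt_one]; exact Real.exp_lt_one_iff.2 (by linarith)
  let f : ℕ → ℝ≥0∞ := fun J => ENNReal.ofReal (C ^ d) * q ^ J
  have hf : ∑' J, f J ≠ ∞ := by
    simp only [f]
    rw [ENNReal.tsum_mul_left, ENNReal.tsum_geometric]
    exact ENNReal.mul_ne_top ENNReal.ofReal_ne_top (ENNReal.inv_ne_top.2 (tsub_pos_of_lt hq1).ne')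
  have h2 : ∀ J, ∑' w : s J, Metric.ediam (t J w) ^ d ≤ f J := by
    intro J
    rw [tsum_fintype]
    refine (Finset.sum_le_card_nsmul _ _ (ENNReal.ofReal (C * Real.exp (-(J * c))) ^ d)
      fun w _ => ENNReal.rpow_le_rpow (hd1 _ _) hd).trans ?_
    simp only [f, hq, Finset.card_univ, Fintype.card_coe, nsmul_eq_mul]
    rw [ENNReal.ofReal_rpow_of_nonneg (by positivity) hd, ← ENNReal.ofReal_natCast,
      ← ENNReal.ofReal_mul (by positivity), ← ENNReal.ofReal_pow (by positivity),
      ← ENNReal.ofReal_mul (by positivity)]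
    apply ENNReal.ofReal_le_ofReal
    rw [Real.mul_rpow hC (by positivity), ← Real.exp_mul, ← Real.exp_nat_mul]
    refine (mul_le_mul_of_nonneg_right (hs J) (by positivity)).trans (le_of_eq ?_)
    rw [mul_left_comm, ← Real.exp_add]
    congr 2; ring
  refine le_antisymm (h1.trans ?_) zero_le
  rw [← (ENNReal.tendsto_sum_nat_add f hf).liminf_eq]
  refine liminf_le_liminf (Eventually.of_forall fun n => ?_)
  rw [ENNReal.tsum_sigma']
  exact ENNReal.tsum_le_tsum fun J => h2 (J + n)

def la : ℝ := Real.log lam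
def lb : ℝ := -Real.log lam'
theorem la_pos : 0 < la := Real.log_pos one_lt_lam
theorem lb_pos : 0 < lb := neg_pos.2 (Real.log_neg lam'_pos (by linarith [lam'_lt]))
theorem lam_pow (i : ℕ) : lam ^ i = Real.exp (i * la) := by
  rw [Real.exp_nat_mul, la, Real.exp_log lam_pos]
theorem lam'_pow (i : ℕ) : lam' ^ i = Real.exp (-(i * lb)) := by
  rw [lb, mul_neg, neg_neg, Real.exp_nat_mul, Real.exp_log lam'_pos]
/-- the maximal dimension -/
def dd : ℝ := 1 + la / lb
theorem dd_pos : 0 < dd := by have := la_pos; have := lb_pos; unfold dd; positivity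

theorem dist_le_one (x y : T2) : dist x y ≤ 1 := by
  rw [dist_eq_norm, Prod.norm_def]
  have h1 := AddCircle.norm_le_half_period (1:ℝ) (x := (x - y).1) one_ne_zero
  have h2 := AddCircle.norm_le_half_period (1:ℝ) (x := (x - y).2) one_ne_zero
  rw [abs_one] at h1 h2
  exact max_le (by linarith) (by linarith)

def iJ (M : ℕ) : ℕ := ⌊M * (la / (la + lb))⌋₊

theorem iJ_le (M : ℕ) : iJ M ≤ M := by
  have := la_pos; have := lb_pos
  apply Nat.floor_le_of_le
  have : la / (la + lb) ≤ 1 := (div_le_one (by positivity)).2 (by linarith)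
  nlinarith [Nat.cast_nonneg (α := ℝ) M]

theorem iJ_bound (M : ℕ) : lam' ^ iJ M + lam ^ iJ M / lam ^ M
    ≤ (Real.exp lb + 1) * Real.exp (-(M * (la / dd))) := by
  have ha := la_pos; have hb := lb_pos
  have h1 : (iJ M : ℝ) ≤ M * (la / (la + lb)) := Nat.floor_le (by positivity)
  have h2 : M * (la / (la + lb)) < iJ M + 1 := Nat.lt_floor_add_one _
  have e1 : la / dd = la / (la + lb) * lb := by unfold dd; field_simp; ring
  have e2 : la / dd = la - la / (la + lb) * la := by unfold dd; field_simp; ring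
  rw [lam'_pow, lam_pow, lam_pow, ← Real.exp_sub, add_mul, one_mul, ← Real.exp_add]
  apply add_le_add <;> apply Real.exp_le_exp.2
  · rw [e1]; nlinarith
  · rw [e2]; nlinarith

def YY (N : ℕ) (r : gbox (e1 / lam ^ N) e1 → ℝ) (T : ℝ) (J : ℕ) : Set T2 :=
  gg^[iJ (J * N)] ⁻¹' {x | x ∈ X0 ∧
    ∑ j ∈ Finset.range J, -Real.log (r (QQ N (ff^[j * N] x))) ≤ J * T}

theorem X0_meas : MeasurableSet X0 :=
  DT_open.measurableSet.compl.union (measurableSet_singleton 0)

theorem sum_meas (N : ℕ) (r : gbox (e1 / lam ^ N) e1 → ℝ) (J : ℕ) :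
    Measurable fun x => ∑ j ∈ Finset.range J, -Real.log (r (QQ N (ff^[j * N] x))) :=
  Finset.measurable_fun_sum _ fun _ _ => (measurable_of_finite fun c => -Real.log (r c)).comp
    ((QQ_meas N).comp (ff_cont.measurable.iterate _))

theorem YY_meas (N : ℕ) (r : gbox (e1 / lam ^ N) e1 → ℝ) (T : ℝ) (J : ℕ) :
    MeasurableSet (YY N r T J) :=
  (gg_cont.measurable.iterate _) (X0_meas.inter (measurableSet_le (sum_meas N r J) measurable_const))

theorem dimH_YY {N : ℕ} (hN : 0 < N) {r : gbox (e1 / lam ^ N) e1 → ℝ} (hr : ∀ b, 0 < r b)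
    (hr1 : ∑ b, r b ≤ 1) {T d : ℝ} (hd : 0 ≤ d) (hT : T < N * (la / dd) * d)
    {Z : Set T2} (hZ : ∀ K, Z ⊆ ⋃ J ≥ K, YY N r T J) : dimH Z ≤ ENNReal.ofReal d := by
  classical
  have hc : 0 < N * (la / dd) := mul_pos (by exact_mod_cast hN) (div_pos la_pos dd_pos)
  have h := haus_limsup (ι := fun J => Fin J → gbox (e1 / lam ^ N) e1)
    (fun J => Finset.univ.filter fun w => Real.exp (-(J * T)) ≤ ∏ j, r (w j))
    (fun J w => gg^[iJ (J * N)] ⁻¹' {x | x ∈ X0 ∧ ∀ j : Fin J, QQ N (ff^[j * N] x) = w j})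
    (C := Real.exp lb + 1) (by positivity) hc hd hT ?_ ?_ (Z := Z) ?_
  · have := dimH_le_of_hausdorffMeasure_ne_top (s := Z) (d := d.toNNReal) (by
      rw [Real.coe_toNNReal _ hd, h]; exact ENNReal.zero_ne_top)
    exact this
  · intro J
    have h1 := Finset.card_nsmul_le_sum
      (Finset.univ.filter fun w : Fin J → gbox (e1 / lam ^ N) e1 =>
        Real.exp (-(J * T)) ≤ ∏ j, r (w j)) (fun w => ∏ j, r (w j)) _
      (fun w hw => (Finset.mem_filter.1 hw).2)
    have h2 : ∑ w : Fin J → gbox (e1 / lam ^ N) e1, ∏ j, r (w j) ≤ 1 := by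
      rw [← Fintype.piFinset_univ, ← Finset.prod_univ_sum (fun _ => Finset.univ) (fun _ b => r b)]
      exact Finset.prod_le_one (fun _ _ => Finset.sum_nonneg fun b _ => (hr b).le) fun _ _ => hr1
    have h3 := (h1.trans (Finset.sum_le_sum_of_subset_of_nonneg (Finset.filter_subset _ _)
      fun w _ _ => Finset.prod_nonneg fun j _ => (hr _).le)).trans h2
    rw [nsmul_eq_mul] at h3
    have h4 := mul_le_mul_of_nonneg_right h3 (Real.exp_pos (J * T)).le
    rwa [mul_assoc, ← Real.exp_add, neg_add_cancel, Real.exp_zero, mul_one, one_mul] at h4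
  · intro J w x hx y hy
    rcases Nat.eq_zero_or_pos J with rfl | hJ
    · have := Real.exp_pos lb
      simp only [Nat.cast_zero, zero_mul, neg_zero, Real.exp_zero, mul_one]
      linarith [dist_le_one x y]
    · have := shadow' hx.1 hy.1 hJ (fun j hj =>
        congrArg Subtype.val ((hx.2 ⟨j, hj⟩).trans (hy.2 ⟨j, hj⟩).symm)) _ (iJ_le _)
      rw [ff_gg_iter, ff_gg_iter] at this
      refine this.trans ((iJ_bound _).trans (le_of_eq ?_))
      push_cast; ring_nf
  · intro K x hx
    obtain ⟨J, hJ, hx⟩ := mem_iUnion₂.1 (hZ K hx)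
    refine mem_iUnion₂.2 ⟨J, hJ, mem_iUnion₂.2
      ⟨fun j => QQ N (ff^[j * N] (gg^[iJ (J * N)] x)), ?_, hx.1, fun j => rfl⟩⟩
    rw [Finset.mem_filter]
    refine ⟨Finset.mem_univ _, ?_⟩
    rw [← Real.le_log_iff_exp_le (Finset.prod_pos fun j _ => hr _),
      Real.log_prod (fun j _ => (hr _).ne')]
    have := hx.2
    rw [Finset.sum_range, Finset.sum_neg_distrib] at this
    linarith

theorem measDim_le {η : Measure T2} {Z : Set T2} (hZ : MeasurableSet Z) (h1 : η Z = 1) :
    measDim η ≤ dimH Z := iInf_le_of_le Z (iInf_le_of_le hZ (iInf_le_of_le h1 le_rfl))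

theorem measDim_le_dd {η : Measure T2} [IsProbabilityMeasure η] (hη : MeasurePreserving ff η η) :
    measDim η ≤ ENNReal.ofReal dd := by
  let Z : Set T2 := ⋂ n, gg^[n] ⁻¹' X0
  have hZ : MeasurableSet Z := MeasurableSet.iInter fun n => (gg_cont.measurable.iterate n) X0_meas
  have h1 : η Z = 1 := by
    rw [← prob_compl_eq_zero_iff hZ]
    have : ∀ᵐ x ∂η, ∀ n, gg^[n] x ∈ X0 := ae_all_iff.2 fun n =>
      ((gg_mp η hη).iterate n).quasiMeasurePreserving.ae (ae_notDT η hη)
    exact measure_mono_null (fun x hx => by simpa [Z] using hx) this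
  refine (measDim_le hZ h1).trans (ENNReal.le_of_forall_pos_le_add fun ε hε _ => ?_)
  have hε : (0:ℝ) < ε := hε
  have hc : 0 < la / dd * ε := mul_pos (div_pos la_pos dd_pos) hε
  obtain ⟨N, h2, hN⟩ := (((tendsto_const_div_atTop_nhds_zero_nat (Real.log CT)).eventually
    (gt_mem_nhds hc)).and (eventually_gt_atTop 0)).exists
  obtain ⟨r, hr, hr1, h⟩ := weights_unif N
  rw [← ENNReal.ofReal_coe_nnreal, ← ENNReal.ofReal_add dd_pos.le hε.le]
  refine dimH_YY hN hr hr1 (T := N * la + Real.log CT) (by linarith [dd_pos]) ?_ fun K x hx => ?_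
  · rw [div_lt_iff₀ (by exact_mod_cast hN)] at h2
    have e : N * (la / dd) * (dd + ε) = N * la + la / dd * ε * N := by
      have := dd_pos; field_simp
    rw [e]; linarith
  · refine mem_iUnion₂.2 ⟨K, le_rfl, mem_iInter.1 hx _, le_of_eq ?_⟩
    simp only [h, Finset.sum_const, Finset.card_range, nsmul_eq_mul, la]

theorem ff_lipschitz : LipschitzWith (Real.toNNReal (3 * LL)) ff :=
  LipschitzWith.of_dist_le' fun p q => ff_lip q p

theorem measDim_lt_dd {η : Measure T2} [IsProbabilityMeasure η] (hη : Ergodic ff η)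
    (hne : η ≠ nu) : measDim η < ENNReal.ofReal dd := by
  have hm := hη.toMeasurePreserving
  obtain ⟨N, hN, r, hr, hr1, h⟩ := weights_ne hm hne
  have hφ : ∀ x, 0 ≤ -Real.log (r (QQ N x)) := fun x => by
    have := Finset.single_le_sum (fun b _ => (hr b).le) (Finset.mem_univ (QQ N x))
    exact neg_nonneg.2 (Real.log_nonpos (hr _).le (this.trans hr1))
  have hΦ0 : 0 ≤ ∫ x, -Real.log (r (QQ N x)) ∂η := integral_nonneg hφ
  set T := N * la - 1/2 with hT
  have hT0 : 0 < T := by rw [hT, la]; linarith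
  have hY : ∀ J, 1 / (2 * T) ≤ η.real (YY N r T (J + 1)) := by
    intro J
    have hJ : (0:ℝ) < (J + 1 : ℕ) := by positivity
    generalize J + 1 = J at hJ
    have i1 : ∀ j : ℕ, Integrable (fun x => -Real.log (r (QQ N (ff^[j] x)))) η := fun j =>
      integrable_fin ((QQ_meas N).comp (ff_cont.measurable.iterate j)) (fun a => -Real.log (r a))
    have h1 := mul_meas_ge_le_integral_of_nonneg (μ := η)
      (f := fun x => ∑ j ∈ Finset.range J, -Real.log (r (QQ N (ff^[j * N] x))))
      (Eventually.of_forall fun x => Finset.sum_nonneg fun j _ => hφ _)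
      (integrable_finsetSum _ fun j _ => i1 _) (J * T)
    rw [integral_finsetSum _ fun j _ => i1 _] at h1
    simp only [integral_iter hm (QQ_meas N) (fun a => -Real.log (r a)), Finset.sum_const,
      Finset.card_range, nsmul_eq_mul] at h1
    set B := {x | J * T ≤ ∑ j ∈ Finset.range J, -Real.log (r (QQ N (ff^[j * N] x)))} with hB
    have hBm : MeasurableSet B := measurableSet_le measurable_const (sum_meas N r J)
    have h2 : T * η.real B ≤ T - 1/2 := by
      have : J * (T * η.real B) ≤ J * (T - 1/2) := by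
        refine le_trans (le_of_eq (by ring)) (h1.trans (mul_le_mul_of_nonneg_left ?_ hJ.le))
        rw [hT, la]; linarith
      exact le_of_mul_le_mul_left this hJ
    have h3 : η.real Bᶜ ≤ η.real (YY N r T J) := by
      have hmm : MeasurableSet {x | x ∈ X0 ∧
          ∑ j ∈ Finset.range J, -Real.log (r (QQ N (ff^[j * N] x))) ≤ J * T} :=
        X0_meas.inter (measurableSet_le (sum_meas N r J) measurable_const)
      rw [YY, ((gg_mp η hm).iterate _).measureReal_preimage hmm.nullMeasurableSet]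
      refine ENNReal.toReal_mono (measure_ne_top _ _) (measure_mono_ae ?_)
      filter_upwards [ae_notDT η hm] with x hx hx2
      have hx3 : ¬ (J * T ≤ ∑ j ∈ Finset.range J, -Real.log (r (QQ N (ff^[j * N] x)))) := hx2
      exact ⟨hx, (not_le.1 hx3).le⟩
    rw [probReal_compl_eq_one_sub hBm] at h3
    rw [div_le_iff₀ (by positivity)]
    nlinarith
  let Z : Set T2 := ⋂ K, ⋃ J ≥ K, YY N r T J
  have hU : ∀ K : ℕ, MeasurableSet (⋃ J ≥ K, YY N r T J) := fun K =>
    MeasurableSet.biUnion (to_countable _) fun J _ => YY_meas N r T J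
  have hZ : MeasurableSet Z := MeasurableSet.iInter hU
  have hZ0 : η Z ≠ 0 := by
    have h1 := tendsto_measure_iInter_atTop (μ := η) (fun K => (hU K).nullMeasurableSet)
      (fun K K' hK => biUnion_subset_biUnion_left fun J (hJ : J ≥ K') => hK.trans hJ)
      ⟨0, measure_ne_top _ _⟩
    have h2 : ENNReal.ofReal (1 / (2 * T)) ≤ η Z := by
      refine ge_of_tendsto' h1 fun K => ?_
      refine le_trans ?_ (measure_mono (subset_biUnion_of_mem (u := YY N r T)
        (show K + 1 ∈ {J | J ≥ K} from Nat.le_succ K)))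
      exact (ENNReal.ofReal_le_iff_le_toReal (measure_ne_top _ _)).2 (hY K)
    intro h0
    rw [h0, nonpos_iff_eq_zero, ENNReal.ofReal_eq_zero] at h2
    have : 0 < 1 / (2 * T) := by positivity
    linarith
  let W : Set T2 := ⋃ n, gg^[n] ⁻¹' Z
  have hW : MeasurableSet W := MeasurableSet.iUnion fun n => (gg_cont.measurable.iterate n) hZ
  have hW1 : η W = 1 := by
    rcases hη.ae_empty_or_univ_of_ae_le_preimage hW.nullMeasurableSet (LE.le.eventuallyLE (by
      intro x hx
      obtain ⟨n, hn⟩ := mem_iUnion.1 hx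
      refine mem_iUnion.2 ⟨n + 1, ?_⟩
      simpa only [mem_preimage, Function.iterate_succ_apply, gg_ff] using hn)) with h1 | h1
    · exact absurd (measure_mono_null (subset_iUnion (fun n => gg^[n] ⁻¹' Z) 0)
        (ae_eq_empty.1 h1)) hZ0
    · rw [measure_congr h1, measure_univ]
  have hc : 0 < N * (la / dd) := mul_pos (by exact_mod_cast hN) (div_pos la_pos dd_pos)
  obtain ⟨d, hd1, hd2⟩ : ∃ d, T / (N * (la / dd)) < d ∧ d < dd := by
    apply exists_between
    rw [div_lt_iff₀ hc]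
    have e : dd * (N * (la / dd)) = N * la := by have := dd_pos; field_simp
    rw [e, hT]; linarith
  have hd0 : 0 ≤ d := (div_pos hT0 hc).le.trans hd1.le
  have h4 : dimH Z ≤ ENNReal.ofReal d :=
    dimH_YY hN hr hr1 hd0 (by rwa [div_lt_iff₀' hc] at hd1) fun K => iInter_subset _ K
  refine (measDim_le hW hW1).trans_lt (lt_of_le_of_lt ?_
    ((ENNReal.ofReal_lt_ofReal_iff dd_pos).2 hd2))
  rw [dimH_iUnion]
  refine iSup_le fun n => le_trans ?_ h4
  refine le_trans (dimH_mono ?_) ((ff_lipschitz.iterate n).dimH_image_le Z)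
  exact fun x hx => ⟨_, hx, ff_gg_iter n x⟩

def CD : ℝ := 4 * cE * CH * lam * 3 ^ dd
theorem CD_pos : 0 < CD := by
  have := cE_pos; have := CH_pos; have := lam_pos; unfold CD; positivity

theorem nu_ball (x : T2) {ρ : ℝ} (h0 : 0 < ρ) (h1 : 3 * ρ ≤ 1) {S : Set T2}
    (hS : ∀ y ∈ S, dist y x ≤ ρ) : nu.real S ≤ CD * ρ ^ dd := by
  obtain ⟨z, rfl⟩ := pp_surj x
  obtain ⟨n, hn1, hn2⟩ := exists_nat_pow_near_of_lt_one (show 0 < 3 * ρ by positivity) h1
    lam'_pos (by linarith [lam'_lt])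
  have hC := CH_pos
  have hl := lam_pos
  refine (nu_rect (u := z.1) (ρ := 3 * ρ) (s := z.2) (σ := 3 * ρ) (t := hs z) (τ := CH / lam ^ n)
    (by positivity) (by positivity) ?_ ?_).trans ?_
  · intro w h2 h3
    exact hs_holder ((norm_E_le h2 h3).trans hn2)
  · intro y hy
    obtain ⟨w, rfl, hw⟩ := exists_lift z y
    have := hS _ hy
    exact ⟨w, rfl, (abs_fst_le (w - z)).trans (by linarith), (abs_snd_le (w - z)).trans (by linarith)⟩
  · have h2 : 1 / lam ^ (n + 1) ≤ (3 * ρ) ^ (la / lb) := by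
      refine le_trans (le_of_eq ?_) (Real.rpow_le_rpow (pow_pos lam'_pos _).le hn1.le
        (div_pos la_pos lb_pos).le)
      rw [lam'_pow, lam_pow, ← Real.exp_mul, one_div, ← Real.exp_neg]
      congr 1
      have := lb_pos; field_simp
    have e : CD * ρ ^ dd = 4 * cE * CH * lam * (3 * ρ) * (3 * ρ) ^ (la / lb) := by
      rw [CD, mul_assoc _ (3 ^ dd), ← Real.mul_rpow (by norm_num) h0.le, dd,
        Real.rpow_add (by positivity), Real.rpow_one]; ring
    rw [e]
    refine le_trans (le_of_eq ?_) (mul_le_mul_of_nonneg_left h2 (by positivity))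
    rw [pow_succ]; field_simp; ring

theorem dd_le_measDim : ENNReal.ofReal dd ≤ measDim nu := by
  have h : (ENNReal.ofReal CD)⁻¹ • nu ≤ μH[dd] := by
    refine Measure.le_hausdorffMeasure dd _ (ENNReal.ofReal (1/4)) (by simp) fun s hs => ?_
    have hne : Metric.ediam s ≠ ⊤ := ne_top_of_le_ne_top ENNReal.ofReal_ne_top hs
    have h1 : Metric.diam s ≤ 1/4 := ENNReal.toReal_le_of_le_ofReal (by norm_num) hs
    have h2 : nu.real s ≤ CD * Metric.diam s ^ dd := by
      rcases s.eq_empty_or_nonempty with rfl | ⟨x, hx⟩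
      · rw [measureReal_empty]
        exact mul_nonneg CD_pos.le (Real.rpow_nonneg Metric.diam_nonneg _)
      have t : Tendsto (fun ρ : ℝ => CD * ρ ^ dd) (𝓝[>] (Metric.diam s))
          (𝓝 (CD * Metric.diam s ^ dd)) :=
        (((Real.continuous_rpow_const dd_pos.le).tendsto _).const_mul CD).mono_left
          nhdsWithin_le_nhds
      refine ge_of_tendsto t ?_
      filter_upwards [Ioo_mem_nhdsGT (show Metric.diam s < 1/3 by linarith)] with ρ hρ
      exact nu_ball x (Metric.diam_nonneg.trans_lt hρ.1) (by linarith [hρ.2])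
        fun y hy => (Metric.dist_le_diam_of_mem' hne hy hx).trans hρ.1.le
    rw [Measure.smul_apply, smul_eq_mul,
      ENNReal.inv_mul_le_iff (by simpa using CD_pos) ENNReal.ofReal_ne_top,
      ← ENNReal.ofReal_toReal hne, ← ENNReal.ofReal_toReal (measure_ne_top nu s),
      ENNReal.ofReal_rpow_of_nonneg ENNReal.toReal_nonneg dd_pos.le,
      ← ENNReal.ofReal_mul CD_pos.le]
    exact ENNReal.ofReal_le_ofReal h2
  refine le_iInf fun Z => le_iInf fun _ => le_iInf fun h1 => ?_
  refine le_dimH_of_hausdorffMeasure_ne_zero (d := dd.toNNReal) ?_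
  rw [Real.coe_toNNReal _ dd_pos.le]
  intro h0
  have h2 := Measure.le_iff'.1 h Z
  rw [h0, Measure.smul_apply, h1] at h2
  simp at h2

end Pool.Agent.Lib.MP_4492e9_an
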