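import Pool.Agent.Lib.MP_4492e9_an.Grid

open Set Filter Topology MeasureTheory Dynamics
open scoped ENNReal NNReal

set_option synthInstance.maxSize 1024

noncomputable section
namespace Pool.Agent.Lib.MP_4492e9_an

def d0 : ℝ := 1 / (6 * LL)
theorem d0_pos : 0 < d0 := by have := LL_ge; unfold d0; positivity
theorem d0_mul : LL * (3 * d0) = 1/2 := by have := LL_ge; unfold d0; field_simp; norm_num
theorem d0_le : 3 * d0 ≤ 1/6 := by nlinarith [d0_mul, LL_ge, d0_pos]

theorem lift_orbit {Φ : E → E} (hΦ : ∀ z z', ‖Φ z' - Φ z‖ ≤ LL * ‖z' - z‖) {z z' : E} {n : ℕ}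
    (h : ∀ i < n, dist (pp (Φ^[i] z')) (pp (Φ^[i] z)) ≤ d0)
    (h0 : ‖z' - z‖ ≤ 3 * dist (pp z') (pp z)) (i : ℕ) (hi : i < n) :
    ‖Φ^[i] z' - Φ^[i] z‖ ≤ 3 * dist (pp (Φ^[i] z')) (pp (Φ^[i] z)) := by
  induction i with
  | zero => exact h0
  | succ i ih =>
    apply pp_anti
    rw [Function.iterate_succ_apply', Function.iterate_succ_apply', ← d0_mul]
    refine (hΦ _ _).trans (mul_le_mul_of_nonneg_left ((ih (by omega)).trans ?_)
      (by linarith [LL_ge]))
    linarith [h i (by omega)]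

theorem nu_rect {u ρ s σ t τ : ℝ} (hρ : 0 ≤ ρ) (hτ : 0 ≤ τ)
    (h : ∀ w : E, |w.1 - u| ≤ ρ → |w.2 - s| ≤ σ → |hs w - t| ≤ τ) {S : Set T2}
    (hS : ∀ y ∈ S, ∃ w : E, pp w = y ∧ |w.1 - u| ≤ ρ ∧ |w.2 - s| ≤ σ) :
    nu.real S ≤ cE * (2 * ρ) * (2 * τ) := by
  let R : Set E := Icc (u - ρ) (u + ρ) ×ˢ Icc (s - σ) (s + σ)
  let R' : Set E := Icc (u - ρ) (u + ρ) ×ˢ Icc (t - τ) (t + τ)
  have hR : MeasurableSet (pp '' R) :=
    ((isCompact_Icc.prod isCompact_Icc).image pp_cont).measurableSet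
  have h1 : S ⊆ pp '' R := by
    intro y hy
    obtain ⟨w, hw, h1, h2⟩ := hS y hy
    rw [abs_le] at h1 h2
    exact ⟨w, ⟨⟨by linarith, by linarith⟩, by linarith, by linarith⟩, hw⟩
  have h2 : kT ⁻¹' (pp '' R) ⊆ pp '' R' := by
    rintro p ⟨w, ⟨h3, h4⟩, hw⟩
    have h5 := abs_le.1 (h w (abs_le.2 ⟨by linarith [h3.1], by linarith [h3.2]⟩)
      (abs_le.2 ⟨by linarith [h4.1], by linarith [h4.2]⟩))
    refine ⟨hh w, ⟨h3, by simp only [hh]; linarith, by simp only [hh]; linarith⟩, ?_⟩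
    rw [← hT_pp, hw, hT_kT]
  have h3 : nu S ≤ cE * volume R' :=
    calc nu S ≤ nu (pp '' R) := measure_mono h1
      _ = volume (kT ⁻¹' (pp '' R)) := Measure.map_apply kT_meas hR
      _ ≤ volume (pp '' R') := measure_mono h2
      _ ≤ _ := vol_image_le (measurableSet_Icc.prod measurableSet_Icc)
  simp only [R'] at h3
  rw [Measure.volume_eq_prod, Measure.prod_prod, Real.volume_Icc, Real.volume_Icc,
    ← ENNReal.ofReal_mul (by linarith), ← ENNReal.ofReal_coe_nnreal,
    ← ENNReal.ofReal_mul (by positivity)] at h3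
  refine (ENNReal.toReal_le_of_le_ofReal (by
    apply mul_nonneg cE.2; apply mul_nonneg <;> linarith) h3).trans (le_of_eq (by ring))

def CB : ℝ := cE * (2 * lam) * (2 * (1 + 2 * WW)) + 1
theorem CB_ge : 1 ≤ CB := by
  have := lam_pos; have := WW_nonneg
  have : 0 ≤ cE * (2 * lam) * (2 * (1 + 2 * WW)) := by positivity
  unfold CB; linarith

theorem bowen (x : T2) (n : ℕ) {S : Set T2}
    (hS : ∀ y ∈ S, ∀ i < n, dist (ff^[i] y) (ff^[i] x) ≤ d0) : nu.real S ≤ CB / lam ^ n := by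
  rcases n with _ | n
  · simpa using (measureReal_le_one (μ := nu) (s := S)).trans CB_ge
  obtain ⟨z, rfl⟩ := pp_surj x
  have hp := pow_pos lam_pos n
  have hW := WW_nonneg
  refine (nu_rect (u := z.1) (ρ := 1 / lam ^ n) (s := z.2) (σ := 1) (t := z.2) (τ := 1 + 2 * WW)
    (by positivity) (by positivity) ?_ ?_).trans ?_
  · intro w _ h2
    have := abs_le.1 (hs_sub_le w)
    rw [abs_le] at h2 ⊢
    constructor <;> linarith
  · intro y hy
    obtain ⟨w, rfl, hw⟩ := exists_lift z y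
    have h1 := hS _ hy
    simp only [ff_iter_pp] at h1
    have h2 := lift_orbit Fh_lip h1 hw
    refine ⟨w, rfl, ?_, ?_⟩
    · have h3 := (abs_fst_le _).trans (h2 n (by omega))
      rw [Prod.fst_sub, Fh_iter_fst, Fh_iter_fst, ← mul_sub, abs_mul, abs_of_pos hp] at h3
      rw [le_div_iff₀ hp]
      linarith [h1 n (by omega), d0_le]
    · have h3 := (abs_snd_le _).trans hw
      have := h1 0 (by omega)
      simp only [Function.iterate_zero, id] at this
      rw [Prod.snd_sub] at h3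
      linarith [d0_le]
  · rw [le_div_iff₀ (pow_pos lam_pos _), pow_succ]
    have e : cE * (2 * (1 / lam ^ n)) * (2 * (1 + 2 * WW)) * (lam ^ n * lam)
        = cE * (2 * lam) * (2 * (1 + 2 * WW)) := by field_simp
    rw [e]; unfold CB; linarith

theorem le_ks_nu : (Real.log lam : EReal) ≤ ksEntropy ff nu := by
  let P : T2 → Fin (gbox d0 d0).card := fun p =>
    (gbox d0 d0).equivFin ⟨cell d0 d0 p, cell_mem d0_pos d0_pos p⟩
  have hP : Measurable P :=
    (measurable_of_finite (gbox d0 d0).equivFin).comp (cell_meas _ _).subtype_mk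
  refine le_ks ff_cont.measurable hP (by linarith [CB_ge] : 0 < CB) lam_pos fun n w => ?_
  rcases eq_empty_or_nonempty {x | ∀ i : Fin n, P (ff^[i] x) = w i} with h | ⟨x, hx⟩
  · rw [h, measureReal_empty]
    exact div_nonneg (by linarith [CB_ge]) (pow_pos lam_pos n).le
  · refine bowen x n fun y hy i hi => ?_
    have h1 : P (ff^[i] x) = P (ff^[i] y) := (hx ⟨i, hi⟩).trans (hy ⟨i, hi⟩).symm
    have h2 := cell_close d0_pos d0_pos
      (congrArg Subtype.val ((gbox d0 d0).equivFin.injective h1))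
    rw [← pp_lf (ff^[i] y), ← pp_lf (ff^[i] x)]
    exact (pp_dist _ _).trans (norm_E_le h2.1 h2.2)

theorem growth_lam : ExpGrowth.expGrowthSup (fun n : ℕ => ENNReal.ofReal lam ^ n)
    = (Real.log lam : EReal) := by
  rw [ExpGrowth.expGrowthSup_pow, ENNReal.log_ofReal_of_pos lam_pos]

theorem le_cover : (Real.log lam : EReal) ≤ coverEntropy ff univ := by
  refine le_trans ?_ (coverEntropyEntourage_le_coverEntropy ff univ
    (Metric.dist_mem_uniformity d0_pos))
  rw [← growth_lam]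
  have hC : 0 < CB := by linarith [CB_ge]
  refine ExpGrowth.expGrowthSup_of_eventually_ge (b := ENNReal.ofReal CB⁻¹)
    (by simpa using hC) (Eventually.of_forall fun n => ?_)
  rcases eq_top_or_lt_top (coverMincard ff univ {p : T2 × T2 | dist p.1 p.2 < d0} n) with h | h
  · simp only [h]; exact le_top
  obtain ⟨s, hs, hc⟩ := (coverMincard_finite_iff _ _ _ _).1 h
  simp only [← hc]
  have h1 : (univ : Set T2) ⊆ ⋃ x ∈ s, {y | ∀ i < n, dist (ff^[i] y) (ff^[i] x) ≤ d0} := by
    intro y hy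
    obtain ⟨x, hx, hxy⟩ := hs hy
    exact mem_iUnion₂.2 ⟨x, hx, fun i hi => (mem_dynEntourage.1 hxy i hi).le⟩
  have h2 : (1:ℝ) ≤ s.card * (CB / lam ^ n) := by
    calc (1:ℝ) = nu.real univ := by simp
      _ ≤ _ := measureReal_mono h1 (measure_ne_top _ _)
      _ ≤ _ := measureReal_biUnion_finset_le _ _
      _ ≤ ∑ _x ∈ s, CB / lam ^ n := Finset.sum_le_sum fun x _ => bowen x n fun y hy => hy
      _ = _ := by simp
  rw [← ENNReal.ofReal_pow lam_pos.le, ← ENNReal.ofReal_mul (by positivity)]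
  simp only [ENat.toENNReal_coe]
  rw [← ENNReal.ofReal_natCast]
  apply ENNReal.ofReal_le_ofReal
  rw [mul_div_assoc', le_div_iff₀ (pow_pos lam_pos n)] at h2
  rw [inv_mul_le_iff₀ hC]; linarith

theorem back_close {z z' : E} {a : ℝ} (hz : Gh z ∈ DD) (hz' : Gh z' ∈ DD) (h : ‖z' - z‖ ≤ a)
    (ha : LL * a ≤ 1/2) (j : ℕ) : ‖Gh^[j+1] z' - Gh^[j+1] z‖ ≤ LL * a := by
  have h1 : ‖Gh z' - Gh z‖ ≤ LL * a :=
    (Gh_lip _ _).trans (mul_le_mul_of_nonneg_left h (by linarith [LL_ge]))
  obtain ⟨m, hm⟩ := mem_DD.1 hz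
  obtain ⟨m', hm'⟩ := mem_DD.1 hz'
  have h2 : m' - m = 0 := by
    have a1 := abs_le.1 ((abs_fst_le _).trans h1)
    have a2 := abs_le.1 ((abs_snd_le _).trans h1)
    have b1 := abs_lt.1 hm.1; have b2 := abs_lt.1 hm.2
    have c1 := abs_lt.1 hm'.1; have c2 := abs_lt.1 hm'.2
    simp only [Prod.fst_sub, Prod.snd_sub] at a1 a2 b1 b2 c1 c2
    refine lat_eq_zero (a := 17/10) (b := 7/10) ?_ ?_ (by linarith [ph_gt])
    · rw [lat_sub, Prod.fst_sub, abs_le]; constructor <;> linarith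
    · rw [lat_sub, Prod.snd_sub, abs_le]; constructor <;> linarith
  rw [sub_eq_zero] at h2
  subst h2
  have h3 := Gh_iter_D0_sub hm hm' j
  rw [sub_sub_sub_cancel_right, sub_eq_add_neg (Gh z'), sub_eq_add_neg (Gh z), ← lat_neg,
    Gh_iter_add, Gh_iter_add, add_sub_add_right_eq_sub] at h3
  rw [Function.iterate_succ_apply, Function.iterate_succ_apply]
  refine h3.trans ?_
  have : ((1:ℝ)/2) ^ j ≤ 1 := pow_le_one₀ (by norm_num) (by norm_num)
  nlinarith [norm_nonneg (Gh z' - Gh z), pow_pos (show (0:ℝ) < 1/2 by norm_num) j]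

theorem geom_lam (n : ℕ) : ∑ k ∈ Finset.range (n + 1), lam ^ (n - k) ≤ 2 * lam ^ n := by
  induction n with
  | zero => simp
  | succ n ih =>
    rw [Finset.sum_range_succ']
    simp only [Nat.add_sub_add_right, Nat.sub_zero]
    have := pow_pos lam_pos n
    rw [pow_succ]
    nlinarith [lam_gt]

theorem exists_cover {a : ℝ} (ha0 : 0 < a) (ha1 : a ≤ e1) (ha : LL * a ≤ 1/2) (n : ℕ) :
    ∃ s : Finset T2, (s.card : ℝ) ≤ 162 / a ^ 2 * lam ^ n ∧
      ∀ y, ∃ x ∈ s, ∀ i < n, dist (ff^[i] y) (ff^[i] x) ≤ LL * a := by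
  classical
  have hex : ∀ y : T2, ∃ k, k = n ∨ ff^[k] y ∉ DT := fun y => ⟨n, Or.inl rfl⟩
  let kk : T2 → ℕ := fun y => Nat.find (hex y)
  have hk1 : ∀ y, kk y ≤ n := fun y => Nat.find_le (Or.inl rfl)
  have hk2 : ∀ y, ∀ i < kk y, ff^[i] y ∈ DT := fun y i hi => by
    have := Nat.find_min (hex y) hi
    push Not at this
    exact this.2
  have hk3 : ∀ y, kk y < n → ff^[kk y] y ∉ DT := fun y h =>
    (Nat.find_spec (hex y)).resolve_left h.ne
  let code : T2 → ℕ × ℤ × ℤ := fun y => (kk y, cell (a / lam ^ (n - kk y)) a (ff^[kk y] y))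
  let codes : Finset (ℕ × ℤ × ℤ) :=
    (Finset.range (n + 1)).biUnion fun k => (gbox (a / lam ^ (n - k)) a).image (Prod.mk k)
  have hap : ∀ m, 0 < a / lam ^ m := fun m => div_pos ha0 (pow_pos lam_pos m)
  have hal : ∀ m, a / lam ^ m ≤ a := fun m => div_le_self ha0.le (one_le_pow₀ one_lt_lam.le)
  have ha2 : a ≤ 1 := by linarith [e1_le]
  refine ⟨codes.image (Function.invFun code), ?_, fun y => ⟨Function.invFun code (code y), ?_, ?_⟩⟩
  · calc ((codes.image (Function.invFun code)).card : ℝ) ≤ codes.card := by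
          exact_mod_cast Finset.card_image_le
      _ ≤ ∑ k ∈ Finset.range (n + 1), ((gbox (a / lam ^ (n - k)) a).card : ℝ) := by
          exact_mod_cast Finset.card_biUnion_le.trans
            (Finset.sum_le_sum fun k _ => Finset.card_image_le)
      _ ≤ ∑ k ∈ Finset.range (n + 1), 81 / a ^ 2 * lam ^ (n - k) := by
          refine Finset.sum_le_sum fun k _ => ?_
          refine (gbox_card (hap _) ((hal _).trans ha2) ha0 ha2).trans (le_of_eq ?_)
          have := lam_pos
          field_simp; norm_num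
      _ ≤ _ := by
          rw [← Finset.mul_sum]
          have := mul_le_mul_of_nonneg_left (geom_lam n) (show 0 ≤ 81 / a ^ 2 by positivity)
          refine this.trans (le_of_eq ?_); ring
  · refine Finset.mem_image_of_mem _ (Finset.mem_biUnion.2 ⟨kk y, ?_, ?_⟩)
    · exact Finset.mem_range.2 (Nat.lt_succ_of_le (hk1 y))
    · exact Finset.mem_image_of_mem _ (cell_mem (hap _) ha0 _)
  · set x := Function.invFun code (code y)
    have hx : code x = code y := Function.invFun_eq ⟨y, rfl⟩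
    simp only [code, Prod.mk.injEq] at hx
    obtain ⟨hx1, hx2⟩ := hx
    have h2x := hk2 x; have h3x := hk3 x; have h2y := hk2 y
    have h1x := hk1 x
    rw [← hx1] at hx2 h2y
    generalize kk x = k at *
    have h4 := cell_close (hap _) ha0 hx2
    intro i hi
    rcases le_or_gt k i with hki | hki
    · obtain ⟨j, rfl⟩ := Nat.exists_eq_add_of_le hki
      have h5 := forward_dist' (z' := lf (ff^[k] y)) (h3x (by omega)) (n := n - k) ha1
        (by rw [← le_div_iff₀' (pow_pos lam_pos _)]; exact h4.1) h4.2 j (by omega)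
      rw [add_comm k j, Function.iterate_add_apply, Function.iterate_add_apply,
        ← pp_lf (ff^[k] y), ← pp_lf (ff^[k] x), ff_iter_pp, ff_iter_pp]
      refine (pp_dist _ _).trans (h5.trans ?_)
      unfold LL; nlinarith [MM_ge]
    · obtain ⟨j, rfl⟩ := Nat.exists_eq_add_of_lt hki
      have e : ∀ w : T2, ∀ m l : ℕ, ff^[m] w = pp (Gh^[l] (lf (ff^[l + m] w))) := by
        intro w m l
        rw [← gg_iter_pp, pp_lf, Function.iterate_add_apply, gg_ff_iter]
      have h5 : ∀ w : T2, ff^[i + j] w ∈ DT → Gh (lf (ff^[i + j + 1] w)) ∈ DD := by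
        intro w hw
        rw [e w (i + j) 1, pp_mem_DT, add_comm 1] at hw
        exact hw
      have h6 := back_close (h5 x (h2x _ (by omega))) (h5 y (h2y _ (by omega)))
        (norm_E_le (h4.1.trans (hal _)) h4.2) ha j
      rw [e x i (j + 1), e y i (j + 1), show j + 1 + i = i + j + 1 by ring]
      exact (pp_dist _ _).trans h6

theorem cover_le : coverEntropy ff univ ≤ (Real.log lam : EReal) := by
  rw [coverEntropy_eq_iSup_basis Metric.uniformity_basis_dist_le]
  refine iSup₂_le fun ε hε => ?_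
  have hL : 0 < LL := by linarith [LL_ge]
  set a := min e1 (min (1 / (2 * LL)) (ε / LL)) with ha
  have ha0 : 0 < a := lt_min e1_pos (lt_min (by positivity) (by positivity))
  have ha1 : LL * a ≤ 1/2 := by
    have : a ≤ 1 / (2 * LL) := (min_le_right _ _).trans (min_le_left _ _)
    rw [le_div_iff₀ (by positivity)] at this; linarith
  have ha2 : LL * a ≤ ε := by
    have : a ≤ ε / LL := (min_le_right _ _).trans (min_le_right _ _)
    rw [le_div_iff₀ (by positivity)] at this; linarith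
  rw [← growth_lam]
  refine ExpGrowth.expGrowthSup_le_of_eventually_le (b := ENNReal.ofReal (162 / a ^ 2))
    ENNReal.ofReal_ne_top (Eventually.of_forall fun n => ?_)
  obtain ⟨s, hs1, hs2⟩ := exists_cover ha0 (min_le_left _ _) ha1 n
  have h1 : IsDynCoverOf ff univ {p : T2 × T2 | dist p.1 p.2 ≤ ε} n s := by
    intro y _
    obtain ⟨x, hx, hxy⟩ := hs2 y
    exact ⟨x, hx, mem_dynEntourage.2 fun i hi => (hxy i hi).trans ha2⟩
  refine (ENat.toENNReal_mono h1.coverMincard_le_card).trans ?_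
  rw [← ENNReal.ofReal_pow lam_pos.le, ← ENNReal.ofReal_mul (by positivity)]
  simp only [ENat.toENNReal_coe]
  rw [← ENNReal.ofReal_natCast]
  exact ENNReal.ofReal_le_ofReal hs1

theorem mme_iff {η : Measure T2} [IsProbabilityMeasure η] (hη : MeasurePreserving ff η η) :
    ksEntropy ff η = coverEntropy ff univ ↔ η = nu := by
  rw [le_antisymm cover_le le_cover]
  constructor
  · intro h
    by_contra hne
    exact (ks_lt hη hne).ne h
  · rintro rfl
    exact le_antisymm (ks_le_log hη) le_ks_nu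

end Pool.Agent.Lib.MP_4492e9_an
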