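import Pool.Agent.Lib.MP_4492e9_an.Torus

open Set Filter Topology MeasureTheory
open scoped ENNReal NNReal symmDiff BoundedContinuousFunction

set_option synthInstance.maxSize 1024

noncomputable section
namespace Pool.Agent.Lib.MP_4492e9_an

theorem AT_add (p q : T2) : AT (p + q) = AT p + AT q := by
  obtain ⟨z, rfl⟩ := pp_surj p
  obtain ⟨z', rfl⟩ := pp_surj q
  rw [← pp_add, AT_pp, AT_pp, AT_pp, Ah_add, pp_add]

theorem AT_surj : Function.Surjective AT := fun p => by
  obtain ⟨z, rfl⟩ := pp_surj p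
  exact ⟨pp (Aih z), by rw [AT_pp, Ah_Aih]⟩

theorem AT_mp : MeasurePreserving AT volume volume :=
  (AddMonoidHom.mk' AT AT_add).measurePreserving AT_cont AT_surj rfl

theorem Ah_iter (n : ℕ) (z : E) : Ah^[n] z = (lam ^ n * z.1, z.2 / lam ^ n) := by
  induction n with
  | zero => simp
  | succ n ih =>
    rw [Function.iterate_succ_apply', ih]
    simp only [Ah, div_div, pow_succ]
    congr 1; ring

theorem stable_dist (n : ℕ) (u s s' : ℝ) :
    dist (AT^[n] (pp (u, s'))) (AT^[n] (pp (u, s))) ≤ |s' - s| / lam ^ n := by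
  rw [AT_iter_pp, AT_iter_pp, Ah_iter, Ah_iter]
  refine (pp_dist _ _).trans (norm_E_le ?_ ?_)
  · simp only [Prod.fst_sub, sub_self, abs_zero]; have := lam_pos; positivity
  · simp only [Prod.snd_sub]; rw [← sub_div, abs_div, abs_of_pos (pow_pos lam_pos n)]

theorem tendsto_div_lam (c : ℝ) : Tendsto (fun n : ℕ => c / lam ^ n) atTop (𝓝 0) :=
  tendsto_const_nhds.div_atTop (tendsto_pow_atTop_atTop_of_one_lt one_lt_lam)

theorem stable_tendsto (u s s' : ℝ) :
    Tendsto (fun n => dist (AT^[n] (pp (u, s'))) (AT^[n] (pp (u, s)))) atTop (𝓝 0) :=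
  squeeze_zero (fun _ => dist_nonneg) (fun n => stable_dist n u s s') (tendsto_div_lam _)

theorem dense_stable : Dense (range fun t : ℝ => pp (0, t)) := by
  intro p
  obtain ⟨z, rfl⟩ := pp_surj p
  rw [Metric.mem_closure_iff]
  intro ε hε
  have hd : Dense (AddSubgroup.closure {ph, 1} : Set ℝ) :=
    dense_addSubgroupClosure_pair_iff.2 (by simpa using ph_irr)
  obtain ⟨y, hy, hy'⟩ := Metric.mem_closure_iff.1 (hd z.1) ε hε
  obtain ⟨m, n, rfl⟩ := AddSubgroup.mem_closure_pair.1 hy
  refine ⟨_, ⟨z.2 - (lat (m, n)).2, rfl⟩, ?_⟩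
  simp only
  rw [← pp_add_lat (0, _) (m, n)]
  refine (pp_dist _ _).trans_lt ?_
  rw [Prod.norm_def, max_lt_iff]
  constructor
  · rw [Real.dist_eq] at hy'
    simpa [lat, mul_comm] using hy'
  · simpa using hε

theorem AT_ergodic : Ergodic AT volume := by
  refine ⟨AT_mp, ⟨fun s hsm hs => ?_⟩⟩
  refine aeconst_of_dense_setOfPred_preimage_vadd_ae (M := T2) hsm.nullMeasurableSet
    (dense_stable.mono ?_)
  rintro _ ⟨t, rfl⟩
  simp only [mem_ofPred_eq]
  rw [← measure_symmDiff_eq_zero_iff]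
  let D : T2 → ℝ≥0∞ := fun g => volume ((((g +ᵥ ·) : T2 → T2) ⁻¹' s) ∆ s)
  have h1 : ∀ g, D (AT g) = D g := by
    intro g
    have hm : MeasurableSet ((((AT g +ᵥ ·) : T2 → T2) ⁻¹' s) ∆ s) :=
      (measurable_const_add _ hsm).symmDiff hsm
    simp only [D]
    rw [← AT_mp.measure_preimage hm.nullMeasurableSet, preimage_symmDiff, hs]
    congr 2
    ext x
    simp only [mem_preimage, vadd_eq_add, ← AT_add]
    conv_rhs => rw [← hs]
    rfl
  have h2 : ∀ n g, D (AT^[n] g) = D g := by
    intro n g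
    induction n with
    | zero => rfl
    | succ n ih => rw [Function.iterate_succ_apply', h1, ih]
  let F : C(T2 × T2, T2) := ⟨fun p => p.1 + p.2, continuous_add⟩
  have h3 : Tendsto (fun n => AT^[n] (pp (0, t))) atTop (𝓝 0) := by
    rw [tendsto_iff_dist_tendsto_zero]
    have := stable_tendsto 0 0 t
    have e : ∀ n, AT^[n] (pp (0, 0)) = 0 := fun n => by
      rw [AT_iter_pp, Ah_iter]; simp only [mul_zero, zero_div]; exact pp_zero
    simpa only [e] using this
  have h4 := tendsto_measure_symmDiff_preimage_nhds_zero (μ := volume) (ν := volume)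
    ((F.curry.continuous.tendsto 0).comp h3)
    (Eventually.of_forall fun n => measurePreserving_add_left volume _)
    (measurePreserving_add_left volume _) hsm.nullMeasurableSet (measure_ne_top _ _)
  have h5 : Tendsto (fun n => D (AT^[n] (pp (0, t)))) atTop (𝓝 0) := by
    refine h4.congr fun n => ?_
    simp only [D]
    congr 2
    ext x
    simp [F]
  simp only [h2] at h5
  exact tendsto_nhds_unique tendsto_const_nhds h5

/-- Birkhoff averages -/
def av (φ : T2 → ℝ) (n : ℕ) (x : T2) : ℝ := (n : ℝ)⁻¹ * ∑ i ∈ Finset.range n, φ (AT^[i] x)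

theorem av_subseq (φ : C(T2, ℝ)) : ∃ (c : ℝ) (ns : ℕ → ℕ), StrictMono ns ∧
    ∀ᵐ x ∂(volume : Measure T2), Tendsto (fun k => av φ (ns k) x) atTop (𝓝 c) := by
  let U : Lp ℝ 2 (volume : Measure T2) →L[ℝ] Lp ℝ 2 (volume : Measure T2) :=
    (Lp.compMeasurePreservingₗᵢ ℝ AT AT_mp).toContinuousLinearMap
  have hU : ‖U‖ ≤ 1 := LinearIsometry.norm_toContinuousLinearMap_le _
  have hUc : ∀ g : Lp ℝ 2 (volume : Measure T2), U g =ᵐ[volume] g ∘ AT :=
    fun g => Lp.coeFn_compMeasurePreserving g AT_mp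
  let Φ : Lp ℝ 2 (volume : Measure T2) := ContinuousMap.toLp 2 volume ℝ φ
  have ht := U.tendsto_birkhoffAverage_orthogonalProjection hU Φ
  set P := (U.eqLocus (1 : Lp ℝ 2 (volume : Measure T2) →L[ℝ] Lp ℝ 2 (volume : Measure T2))).orthogonalProjectionOnto Φ
  have hP : U P = P := P.2
  obtain ⟨c, hc⟩ := AT_ergodic.ae_eq_const_of_ae_eq_comp_ae
    (Lp.aestronglyMeasurable (P : Lp ℝ 2 (volume : Measure T2))) (by
      have := hUc P
      rw [hP] at this
      exact this.symm)
  obtain ⟨ns, hns, hae⟩ := (tendstoInMeasure_of_tendsto_Lp ht).exists_seq_tendsto_ae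
  have hit : ∀ i, U^[i] Φ =ᵐ[volume] fun x => φ (AT^[i] x) := by
    intro i
    induction i with
    | zero => exact ContinuousMap.coeFn_toLp volume φ
    | succ i ih =>
      rw [Function.iterate_succ_apply']
      refine (hUc _).trans ?_
      exact AT_mp.quasiMeasurePreserving.ae_eq_comp ih
  have hav : ∀ n, (birkhoffAverage ℝ U id n Φ : Lp ℝ 2 (volume : Measure T2)) =ᵐ[volume] av φ n := by
    intro n
    simp only [birkhoffAverage, birkhoffSum, id]
    refine (Lp.coeFn_smul _ _).trans ?_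
    have h1 := Lp.coeFn_finsetSum (Finset.range n) (fun i => U^[i] Φ)
    filter_upwards [h1, ae_all_iff.2 hit] with x hx hx2
    simp only [Pi.smul_apply, hx, Finset.sum_apply, hx2, av, smul_eq_mul]
  refine ⟨c, ns, hns, ?_⟩
  filter_upwards [hae, hc, ae_all_iff.2 hav] with x h1 h2 h3
  simpa only [h3, h2, Function.const] using h1

theorem av_cont (φ : C(T2, ℝ)) (n : ℕ) : Continuous (av φ n) := by
  unfold av
  exact continuous_const.mul (continuous_finsetSum _ fun i _ =>
    φ.continuous.comp (AT_cont.iterate i))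

theorem integral_eq_of_av (φ : C(T2, ℝ)) {c : ℝ} {ns : ℕ → ℕ} (hns : StrictMono ns)
    (η : Measure T2) [IsProbabilityMeasure η] (hη : MeasurePreserving AT η η)
    (h : ∀ᵐ x ∂η, Tendsto (fun k => av φ (ns k) x) atTop (𝓝 c)) : ∫ x, φ x ∂η = c := by
  have h1 := tendsto_integral_of_dominated_convergence (μ := η) (fun _ => ‖φ‖)
    (fun k => (av_cont φ (ns k)).aestronglyMeasurable) (integrable_const _)
    (fun k => Eventually.of_forall fun x => by
      simp only [av]
      rw [norm_mul, norm_inv, Real.norm_natCast]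
      have : ‖∑ i ∈ Finset.range (ns k), φ (AT^[i] x)‖ ≤ ns k * ‖φ‖ := by
        refine (norm_sum_le _ _).trans ?_
        simpa using Finset.sum_le_card_nsmul (Finset.range (ns k)) _ ‖φ‖
          (fun i _ => φ.norm_coe_le_norm (AT^[i] x))
      rcases Nat.eq_zero_or_pos (ns k) with h0 | h0
      · simp [h0]
      · rw [inv_mul_le_iff₀ (by exact_mod_cast h0)]; exact this) h
  simp only [integral_const, probReal_univ, one_smul] at h1
  refine tendsto_nhds_unique ?_ h1
  refine tendsto_const_nhds.congr' ?_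
  filter_upwards [eventually_ge_atTop 1] with k hk
  have h0 : (0:ℝ) < ns k := by exact_mod_cast lt_of_lt_of_le hk (hns.id_le k)
  have hi : ∀ i, ∫ x, φ (AT^[i] x) ∂η = ∫ x, φ x ∂η := by
    intro i
    conv_rhs => rw [← (hη.iterate i).map_eq]
    rw [integral_map (hη.iterate i).aemeasurable φ.continuous.aestronglyMeasurable]
  simp only [av]
  rw [integral_const_mul, integral_finsetSum]
  · simp only [hi, Finset.sum_const, Finset.card_range, nsmul_eq_mul]
    field_simp
  · intro i _
    exact (φ.continuous.comp (AT_cont.iterate i)).integrable_of_hasCompactSupport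
      (HasCompactSupport.of_compactSpace _)

theorem key_A (η : Measure T2) [IsProbabilityMeasure η] (hη : MeasurePreserving AT η η)
    (h : ∀ Z : Set ℝ, MeasurableSet Z → volume Z = 0 → ∀ G : Set T2, MeasurableSet G →
      (∀ z, pp z ∈ G ↔ z.1 ∈ Z) → η G = 0) : η = volume := by
  apply ext_of_forall_integral_eq_of_IsFiniteMeasure
  intro φ
  obtain ⟨c, ns, hns, hae⟩ := av_subseq φ.toContinuousMap
  have e1 := integral_eq_of_av φ.toContinuousMap hns volume AT_mp hae
  set G := {x | Tendsto (fun k => av φ.toContinuousMap (ns k) x) atTop (𝓝 c)} with hG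
  have hGm : MeasurableSet G :=
    measurableSet_tendsto (𝓝 c) (fun k => (av_cont _ _).measurable)
  have hsat : ∀ u s s', pp (u, s) ∈ G → pp (u, s') ∈ G := by
    intro u s s' hx
    have h1 : Tendsto (fun i => φ (AT^[i] (pp (u, s'))) - φ (AT^[i] (pp (u, s)))) atTop (𝓝 0) := by
      have huc := CompactSpace.uniformContinuous_of_continuous φ.continuous
      rw [Metric.uniformContinuous_iff] at huc
      rw [Metric.tendsto_atTop]
      intro ε hε
      obtain ⟨δ, hδ, hδ'⟩ := huc ε hε
      obtain ⟨N, hN⟩ := eventually_atTop.1 ((stable_tendsto u s s').eventually (gt_mem_nhds hδ))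
      exact ⟨N, fun n hn => by simpa [Real.dist_eq] using hδ' (hN n hn)⟩
    have h2 := (h1.cesaro.comp hns.tendsto_atTop).add hx
    rw [zero_add] at h2
    refine h2.congr fun k => ?_
    simp only [Function.comp, av, Finset.sum_sub_distrib]
    change _ + _ * ∑ i ∈ _, φ _ = _ * ∑ i ∈ _, φ _
    ring
  let Z : Set ℝ := (fun u => pp (u, 0)) ⁻¹' Gᶜ
  have hZm : MeasurableSet Z := (pp_cont.comp (by fun_prop)).measurable hGm.compl
  have hZ : ∀ z, pp z ∈ Gᶜ ↔ z.1 ∈ Z := fun z =>
    not_congr ⟨hsat z.1 z.2 0, hsat z.1 0 z.2⟩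
  have hZ0 : volume Z = 0 := by
    have h1 := vol_preimage_null hGm.compl hae
    have h2 : pp ⁻¹' Gᶜ = Z ×ˢ univ := by ext z; simpa using hZ z
    rw [h2, Measure.volume_eq_prod, Measure.prod_prod] at h1
    simpa using h1
  have e2 := integral_eq_of_av φ.toContinuousMap hns η hη (h Z hZm hZ0 Gᶜ hGm.compl hZ)
  exact e2.trans e1.symm

/-- the distinguished measure -/
def nu : Measure T2 := Measure.map kT volume

theorem kT_mp : MeasurePreserving kT volume nu := ⟨kT_meas, rfl⟩

instance : IsProbabilityMeasure nu := Measure.isProbabilityMeasure_map kT_meas.aemeasurable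

theorem nu_ergodic : Ergodic ff nu :=
  kT_mp.ergodic_of_ergodic_semiconj AT_ergodic ff_cont.measurable kT_AT

theorem eq_nu_of_map (η : Measure T2) (h : Measure.map hT η = volume) : η = nu := by
  let M : Set E := ⋃ r : ℚ, {p : E | p.2 = hs (p.1, r)}
  have hm : ∀ r : ℚ, MeasurableSet {p : E | p.2 = hs (p.1, r)} := fun r =>
    (isClosed_eq continuous_snd (hs_cont.comp (by fun_prop))).measurableSet
  have hM : volume M = 0 := by
    refine measure_iUnion_null fun r => ?_
    rw [Measure.volume_eq_prod, Measure.measure_prod_null (hm r)]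
    refine Eventually.of_forall fun u => ?_
    have : Prod.mk u ⁻¹' {p : E | p.2 = hs (p.1, r)} = {hs (u, r)} := by ext; simp
    simp [this]
  have h1 : volume (pp '' M) = 0 := by
    have := vol_image_le (MeasurableSet.iUnion hm)
    rw [hM, mul_zero] at this
    exact le_antisymm this zero_le
  have h2 : η (hT ⁻¹' (pp '' M)) = 0 := by
    have := Measure.le_map_apply (μ := η) hT_cont.measurable.aemeasurable (pp '' M)
    rw [h, h1] at this
    exact le_antisymm this zero_le
  have h3 : kT ∘ hT =ᵐ[η] id := by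
    refine measure_mono_null (fun x hx => ?_) h2
    obtain ⟨z, rfl⟩ := pp_surj x
    simp only [mem_compl_iff, mem_ofPred_eq, Function.comp, id, hT_pp, kT_pp] at hx
    simp only [mem_preimage, hT_pp]
    refine mem_image_of_mem _ ?_
    have h4 : ks (hh z) ≤ z.2 := (ks_le_iff _ _).2 le_rfl
    have h5 : ks (hh z) ≠ z.2 := fun h5 => hx (by rw [show kh (hh z) = z from Prod.ext rfl h5])
    obtain ⟨r, hr1, hr2⟩ := exists_rat_btwn (lt_of_le_of_ne h4 h5)
    refine mem_iUnion.2 ⟨r, le_antisymm ((ks_le_iff _ _).1 hr1.le) (hs_mono _ hr2.le)⟩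
  rw [nu, ← h, Measure.map_map kT_meas hT_cont.measurable, Measure.map_congr h3, Measure.map_id]

theorem key (η : Measure T2) [IsProbabilityMeasure η] (hη : MeasurePreserving ff η η)
    (h : ∀ Z : Set ℝ, MeasurableSet Z → volume Z = 0 → η {p | (lf p).1 ∈ Z} = 0) : η = nu := by
  apply eq_nu_of_map
  have hm := hT_cont.measurable
  have : IsProbabilityMeasure (Measure.map hT η) := Measure.isProbabilityMeasure_map hm.aemeasurable
  have h1 : MeasurePreserving hT η (Measure.map hT η) := ⟨hm, rfl⟩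
  refine key_A _ (h1.of_semiconj hη hT_ff AT_cont.measurable) fun Z hZ hZ0 G hG hGZ => ?_
  rw [Measure.map_apply hm hG, ← h Z hZ hZ0]
  congr 1
  ext p
  conv_lhs => rw [← pp_lf p]
  simp only [mem_preimage, hT_pp, hGZ, mem_ofPred_eq]
  rfl

/-- the basin of the source -/
def DT : Set T2 := {p | lf p ∈ DD}

theorem pp_mem_DT {z : E} : pp z ∈ DT ↔ z ∈ DD := by
  obtain ⟨n, hn⟩ := lf_pp z
  simp only [DT, mem_ofPred_eq, hn, DD_add]

theorem DT_open : IsOpen DT := by
  rw [← pp_quot.isOpen_preimage]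
  have : pp ⁻¹' DT = DD := by ext z; exact pp_mem_DT
  rw [this]; exact DD_open

theorem gg_DT {p : T2} (h : p ∈ DT) : gg p ∈ DT := by
  obtain ⟨z, rfl⟩ := pp_surj p
  rw [gg_pp, pp_mem_DT]; exact Gh_DD (pp_mem_DT.1 h)

theorem exists_D0 {p : T2} (h : p ∈ DT) : ∃ w ∈ D0, pp w = p := by
  obtain ⟨n, hn⟩ := mem_DD.1 h
  refine ⟨_, hn, ?_⟩
  rw [sub_eq_add_neg, ← lat_neg, pp_add_lat, pp_lf]

theorem Gh_iter_D0_sub {z z' : E} (hz : z ∈ D0) (hz' : z' ∈ D0) (n : ℕ) :
    ‖Gh^[n] z' - Gh^[n] z‖ ≤ (1/2) ^ n * ‖z' - z‖ := by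
  induction n with
  | zero => simp
  | succ n ih =>
    rw [Function.iterate_succ_apply', Function.iterate_succ_apply', pow_succ]
    have := Gh_D0_sub (Gh_iter_D0 hz n) (Gh_iter_D0 hz' n)
    linarith

theorem gg_iter_DT {p : T2} (h : p ∈ DT) (n : ℕ) : dist (gg^[n] p) 0 ≤ (1/2) ^ n := by
  obtain ⟨w, hw, rfl⟩ := exists_D0 h
  have h1 := Gh_iter_D0_sub zero_mem_D0 hw n
  rw [Function.iterate_fixed Gh_zero] at h1
  rw [gg_iter_pp, ← pp_zero]
  refine (pp_dist _ _).trans (h1.trans ?_)
  have : ‖w - 0‖ ≤ 1 := by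
    rw [sub_zero]; exact norm_E_le (by linarith [hw.1]) (by linarith [hw.2])
  have : (0:ℝ) < (1/2) ^ n := by positivity
  nlinarith

theorem gg_ff_iter (n : ℕ) (p : T2) : gg^[n] (ff^[n] p) = p :=
  (Function.LeftInverse.iterate gg_ff n) p
theorem ff_gg_iter (n : ℕ) (p : T2) : ff^[n] (gg^[n] p) = p :=
  (Function.LeftInverse.iterate ff_gg n) p

theorem zero_mem_DT : (0 : T2) ∈ DT := by
  rw [← pp_zero, pp_mem_DT]; exact mem_DD.2 ⟨0, by simpa [lat_zero] using zero_mem_D0⟩

theorem ae_notDT (η : Measure T2) [IsProbabilityMeasure η] (hη : MeasurePreserving ff η η) :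
    ∀ᵐ p ∂η, p ∉ DT ∨ p = 0 := by
  have hm := DT_open.measurableSet
  have h1 : Antitone fun n : ℕ => ff^[n] ⁻¹' DT := by
    refine antitone_nat_of_succ_le fun n p hp => ?_
    have := gg_DT hp
    rwa [Function.iterate_succ_apply', gg_ff] at this
  have h2 := tendsto_measure_iInter_atTop (μ := η)
    (fun n => ((ff_cont.iterate n).measurable hm).nullMeasurableSet) h1 ⟨0, measure_ne_top _ _⟩
  have h3 : ∀ n, η (ff^[n] ⁻¹' DT) = η DT := fun n =>
    (hη.iterate n).measure_preimage hm.nullMeasurableSet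
  simp only [Function.comp_def, h3] at h2
  have h4 : η DT = η (⋂ n, ff^[n] ⁻¹' DT) := tendsto_nhds_unique tendsto_const_nhds h2
  have h5 : (⋂ n, ff^[n] ⁻¹' DT) ⊆ {0} := by
    intro p hp
    have : ∀ n, dist p 0 ≤ (1/2) ^ n := fun n => by
      simpa only [gg_ff_iter] using gg_iter_DT (mem_iInter.1 hp n) n
    have h6 : dist p 0 ≤ 0 :=
      ge_of_tendsto' (tendsto_pow_atTop_nhds_zero_of_lt_one (by norm_num) (by norm_num)) this
    exact dist_le_zero.1 h6
  have h7 : η (DT \ {0}) = 0 := by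
    rw [measure_sdiff (singleton_subset_iff.2 zero_mem_DT) (measurableSet_singleton _).nullMeasurableSet
      (measure_ne_top _ _), tsub_eq_zero_iff_le, h4]
    exact measure_mono h5
  refine measure_mono_null (fun p hp => ?_) h7
  simpa [not_or] using hp

theorem gg_mp (η : Measure T2) (hη : MeasurePreserving ff η η) : MeasurePreserving gg η η := by
  refine ⟨gg_cont.measurable, ?_⟩
  conv_lhs => rw [← hη.map_eq]
  rw [Measure.map_map gg_cont.measurable ff_cont.measurable]
  have : gg ∘ ff = id := funext gg_ff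
  rw [this, Measure.map_id]

end Pool.Agent.Lib.MP_4492e9_an
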