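import Pool.Agent.Lib.MP_4492e9_an.Defs

open Set Filter Topology MeasureTheory
open scoped ENNReal NNReal

set_option synthInstance.maxSize 1024

noncomputable section
namespace Pool.Agent.Lib.MP_4492e9_an

theorem gibbs_term {p q : ℝ} (hp : 0 ≤ p) (hq : 0 ≤ q) (h : p ≠ 0 → 0 < q) :
    Real.negMulLog p ≤ p * (-Real.log q) + q - p := by
  rcases hp.eq_or_lt with rfl | hp
  · simpa using hq
  · have hq := h hp.ne'
    have := Real.log_le_sub_one_of_pos (div_pos hq hp)
    rw [Real.log_div hq.ne' hp.ne'] at this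
    have h2 := mul_le_mul_of_nonneg_left this hp.le
    have e : p * (q / p - 1) = q - p := by field_simp
    rw [e] at h2
    simp only [Real.negMulLog]
    linarith

variable {X : Type*} [MeasurableSpace X] {η : Measure X} [IsProbabilityMeasure η]

theorem integrable_fin {α : Type*} [Fintype α] [MeasurableSpace α] [MeasurableSingletonClass α]
    {W : X → α} (hW : Measurable W) (F : α → ℝ) : Integrable (fun x => F (W x)) η :=
  (Integrable.of_finite (μ := η.map W) (f := F)).comp_measurable hW

theorem integral_fin {α : Type*} [Fintype α] [MeasurableSpace α] [MeasurableSingletonClass α]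
    {W : X → α} (hW : Measurable W) (F : α → ℝ) :
    ∫ x, F (W x) ∂η = ∑ a, η.real (W ⁻¹' {a}) * F a := by
  rw [← integral_map hW.aemeasurable (AEStronglyMeasurable.of_discrete),
    integral_fintype Integrable.of_finite]
  refine Finset.sum_congr rfl fun a _ => ?_
  rw [map_measureReal_apply hW (measurableSet_singleton a), smul_eq_mul]

theorem ent_le {α β : Type*} [Fintype α] [MeasurableSpace α] [MeasurableSingletonClass α]
    [Fintype β] {W : X → α} (hW : Measurable W) (C : X → β) (r : β → ℝ) (hr : ∀ b, 0 < r b)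
    (hr1 : ∑ b, r b ≤ 1) (hi : Integrable (fun x => -Real.log (r (C x))) η)
    {X0 : Set X} (h0 : ∀ᵐ x ∂η, x ∈ X0) (hd : ∀ x ∈ X0, ∀ y ∈ X0, C x = C y → W x = W y) :
    ∑ a, Real.negMulLog (η.real (W ⁻¹' {a})) ≤ ∫ x, -Real.log (r (C x)) ∂η := by
  classical
  let q : α → ℝ := fun a => ∑ b, if ∃ x ∈ X0, C x = b ∧ W x = a then r b else 0
  have hq0 : ∀ a, 0 ≤ q a := fun a =>
    Finset.sum_nonneg fun b _ => by split_ifs; exacts [(hr b).le, le_rfl]
  have hq1 : ∑ a, q a ≤ 1 := by
    simp only [q]
    rw [Finset.sum_comm]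
    refine le_trans (Finset.sum_le_sum fun b _ => ?_) hr1
    by_cases hb : ∃ x ∈ X0, C x = b
    · obtain ⟨x, hx, hxb⟩ := hb
      rw [Finset.sum_eq_single (W x)]
      · split_ifs; exacts [le_rfl, (hr b).le]
      · intro a _ ha
        rw [if_neg]
        rintro ⟨y, hy, hyb, hya⟩
        exact ha (by rw [← hya]; exact hd y hy x hx (hyb.trans hxb.symm))
      · simp
    · rw [Finset.sum_eq_zero]
      · exact (hr b).le
      · intro a _
        rw [if_neg]
        rintro ⟨y, hy, hyb, -⟩
        exact hb ⟨y, hy, hyb⟩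
  have hq2 : ∀ x ∈ X0, r (C x) ≤ q (W x) := by
    intro x hx
    have := Finset.single_le_sum (f := fun b => if ∃ y ∈ X0, C y = b ∧ W y = W x then r b else 0)
      (fun b _ => by split_ifs; exacts [(hr b).le, le_rfl]) (Finset.mem_univ (C x))
    rwa [if_pos ⟨x, hx, rfl, rfl⟩] at this
  have hq3 : ∀ a, η.real (W ⁻¹' {a}) ≠ 0 → 0 < q a := by
    intro a ha
    by_contra hc
    apply ha
    rw [measureReal_def, ENNReal.toReal_eq_zero_iff]
    left
    refine measure_mono_null (fun x hx => ?_) h0
    intro hx0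
    have := hq2 x hx0
    rw [show W x = a from hx] at this
    exact hc ((hr _).trans_le this)
  have hs : ∑ a, η.real (W ⁻¹' {a}) = 1 := by
    rw [sum_measureReal_preimage_singleton _ (fun a _ => hW (measurableSet_singleton a))]
    simp
  calc ∑ a, Real.negMulLog (η.real (W ⁻¹' {a}))
      ≤ ∑ a, (η.real (W ⁻¹' {a}) * (-Real.log (q a)) + q a - η.real (W ⁻¹' {a})) :=
        Finset.sum_le_sum fun a _ => gibbs_term measureReal_nonneg (hq0 a) (hq3 a)
    _ ≤ ∑ a, η.real (W ⁻¹' {a}) * (-Real.log (q a)) := by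
        rw [Finset.sum_sub_distrib, Finset.sum_add_distrib, hs]; linarith
    _ = ∫ x, -Real.log (q (W x)) ∂η := (integral_fin hW (fun a => -Real.log (q a))).symm
    _ ≤ ∫ x, -Real.log (r (C x)) ∂η := by
        refine integral_mono_ae (integrable_fin hW (fun a => -Real.log (q a))) hi ?_
        filter_upwards [h0] with x hx
        exact neg_le_neg (Real.log_le_log (hr _) (hq2 x hx))

theorem ent_ge {α : Type*} [Fintype α] [MeasurableSpace α] [MeasurableSingletonClass α]
    {W : X → α} (hW : Measurable W) {b : ℝ} (hb : ∀ a, η.real (W ⁻¹' {a}) ≤ b) :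
    -Real.log b ≤ ∑ a, Real.negMulLog (η.real (W ⁻¹' {a})) := by
  have hs : ∑ a, η.real (W ⁻¹' {a}) = 1 := by
    rw [sum_measureReal_preimage_singleton _ (fun a _ => hW (measurableSet_singleton a))]
    simp
  calc -Real.log b = ∑ a, η.real (W ⁻¹' {a}) * (-Real.log b) := by
        rw [← Finset.sum_mul, hs, one_mul]
    _ ≤ _ := Finset.sum_le_sum fun a _ => by
        rcases (measureReal_nonneg (μ := η) (s := W ⁻¹' {a})).eq_or_lt with h | h
        · rw [← h]; simp
        · simp only [Real.negMulLog]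
          have := Real.log_le_log h (hb a)
          nlinarith

theorem name_eq {f : T2 → T2} {k n : ℕ} (P : T2 → Fin k) (w : Fin n → Fin k) :
    {x | ∀ i : Fin n, P (f^[i] x) = w i} = (fun x (i : Fin n) => P (f^[i] x)) ⁻¹' {w} := by
  ext x; simp [funext_iff]

theorem name_meas {f : T2 → T2} (hf : Measurable f) {k : ℕ} (n : ℕ) {P : T2 → Fin k}
    (hP : Measurable P) : Measurable (fun x (i : Fin n) => P (f^[i] x)) :=
  measurable_pi_lambda _ fun i => hP.comp (hf.iterate i)

theorem le_ks {f : T2 → T2} (hf : Measurable f) {η : Measure T2} [IsProbabilityMeasure η]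
    {k : ℕ} {P : T2 → Fin k} (hP : Measurable P) {C l : ℝ} (hC : 0 < C) (hl : 0 < l)
    (h : ∀ n (w : Fin n → Fin k), η.real {x | ∀ i : Fin n, P (f^[i] x) = w i} ≤ C / l ^ n) :
    (Real.log l : EReal) ≤ ksEntropy f η := by
  refine le_trans ?_ (le_iSup_of_le k (le_iSup_of_le P (le_iSup_of_le hP le_rfl)))
  rw [← EReal.ge_of_forall_gt_iff_ge]
  intro c hc
  have hc : c < Real.log l := by exact_mod_cast hc
  refine le_limsup_of_frequently_le (Eventually.frequently ?_)
  have ht : Tendsto (fun n : ℕ => Real.log l - Real.log C / n) atTop (𝓝 (Real.log l)) := by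
    simpa using (tendsto_const_div_atTop_nhds_zero_nat (Real.log C)).const_sub (Real.log l)
  filter_upwards [ht.eventually (lt_mem_nhds hc), eventually_gt_atTop 0] with n hn hn0
  rw [EReal.coe_le_coe_iff]
  refine hn.le.trans ?_
  have hn0 : (0:ℝ) < n := by exact_mod_cast hn0
  have := ent_ge (η := η) (name_meas hf n hP) (b := C / l ^ n) (fun w => by
    rw [← name_eq]; exact h n w)
  simp only [← name_eq] at this
  rw [Real.log_div hC.ne' (pow_pos hl n).ne', Real.log_pow] at this
  rw [le_div_iff₀ hn0]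
  have e : (Real.log l - Real.log C / n) * n = -(Real.log C - n * Real.log l) := by field_simp; ring
  rw [e]; exact this

theorem exists_good {η : Measure T2} [IsProbabilityMeasure η] {k : ℕ} {P : T2 → Fin k}
    (hP : Measurable P) {ε : ℝ} (hε : 0 < ε) : ∃ K : Set T2, MeasurableSet K ∧ η.real Kᶜ ≤ ε ∧
      ∃ δ : ℝ, 0 < δ ∧ ∀ x ∈ K, ∀ y ∈ K, dist x y < δ → P x = P y := by
  have hk : (0:ℝ) < k + 1 := by positivity
  have h1 : ∀ a : Fin k, ∃ K, K ⊆ P ⁻¹' {a} ∧ IsCompact K ∧
      η (P ⁻¹' {a} \ K) < ENNReal.ofReal (ε / (k + 1)) := fun a =>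
    (hP (measurableSet_singleton a)).exists_isCompact_sdiff_lt (measure_ne_top _ _)
      (by simpa using div_pos hε hk)
  choose K hK1 hK2 hK3 using h1
  refine ⟨⋃ a, K a, MeasurableSet.iUnion fun a => (hK2 a).measurableSet, ?_, ?_⟩
  · have : (⋃ a, K a)ᶜ ⊆ ⋃ a, P ⁻¹' {a} \ K a := by
      intro x hx
      simp only [mem_compl_iff, mem_iUnion, not_exists] at hx
      exact mem_iUnion.2 ⟨P x, rfl, hx _⟩
    refine (measureReal_mono this).trans ((measureReal_iUnion_fintype_le _).trans ?_)
    have h2 : ∀ a, η.real (P ⁻¹' {a} \ K a) ≤ ε / (k + 1) := fun a =>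
      ENNReal.toReal_le_of_le_ofReal (div_pos hε hk).le (hK3 a).le
    refine (Finset.sum_le_sum fun a _ => h2 a).trans ?_
    simp only [Finset.sum_const, Finset.card_univ, Fintype.card_fin, nsmul_eq_mul]
    rw [mul_div_assoc', div_le_iff₀ hk]
    nlinarith
  · have hc : IsCompact (⋃ ab : {ab : Fin k × Fin k // ab.1 ≠ ab.2}, K ab.1.1 ×ˢ K ab.1.2) :=
      isCompact_iUnion fun ab => (hK2 _).prod (hK2 _)
    obtain ⟨δ, hδ, hδ'⟩ := hc.exists_forall_le' (f := fun p : T2 × T2 => dist p.1 p.2)
      (continuous_dist.continuousOn) (a := 0) (by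
        intro p hp
        obtain ⟨ab, h1, h2⟩ := mem_iUnion.1 hp
        rw [dist_pos]
        intro h
        apply ab.2
        rw [← show P p.1 = _ from hK1 _ h1, ← show P p.2 = _ from hK1 _ h2, h])
    refine ⟨δ, hδ, fun x hx y hy hxy => ?_⟩
    obtain ⟨a, ha⟩ := mem_iUnion.1 hx
    obtain ⟨b, hb⟩ := mem_iUnion.1 hy
    by_contra hne
    have hab : a ≠ b := by
      rw [← show P x = _ from hK1 _ ha, ← show P y = _ from hK1 _ hb]; exact hne
    have := hδ' (x, y) (mem_iUnion.2 ⟨⟨(a, b), hab⟩, ha, hb⟩)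
    simp only at this
    linarith

theorem integral_iter {f : T2 → T2} {η : Measure T2} [IsProbabilityMeasure η]
    (hη : MeasurePreserving f η η)
    {α : Type*} [Fintype α] [MeasurableSpace α] [MeasurableSingletonClass α]
    {W : T2 → α} (hW : Measurable W) (F : α → ℝ) (n : ℕ) :
    ∫ x, F (W (f^[n] x)) ∂η = ∫ x, F (W x) ∂η := by
  conv_rhs => rw [← (hη.iterate n).map_eq]
  rw [integral_map (hη.iterate n).aemeasurable]
  exact ((measurable_of_finite F).comp hW).aestronglyMeasurable

theorem ks_le {f : T2 → T2} {η : Measure T2} [IsProbabilityMeasure η]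
    (hη : MeasurePreserving f η η) {N : ℕ} (hN : 0 < N)
    {β : Type*} [Fintype β] [MeasurableSpace β] [MeasurableSingletonClass β]
    {Q : T2 → β} (hQ : Measurable Q) (r : β → ℝ) (hr : ∀ b, 0 < r b) (hr1 : ∑ b, r b ≤ 1)
    {X0 : Set T2} (h0 : ∀ᵐ x ∂η, x ∈ X0)
    (hexp : ∀ δ : ℝ, 0 < δ → ∃ J0 : ℕ, ∀ J : ℕ, ∀ x ∈ X0, ∀ y ∈ X0,
      (∀ j < J + 2 * J0, Q (f^[j * N] x) = Q (f^[j * N] y)) →
      ∀ i, J0 * N ≤ i → i ≤ (J0 + J) * N → dist (f^[i] x) (f^[i] y) < δ) :
    ksEntropy f η ≤ (((∫ x, -Real.log (r (Q x)) ∂η) / N : ℝ) : EReal) := by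
  classical
  set Φ := ∫ x, -Real.log (r (Q x)) ∂η with hΦ
  have hΦ0 : 0 ≤ Φ := integral_nonneg fun x => by
    have := Finset.single_le_sum (fun b _ => (hr b).le) (Finset.mem_univ (Q x))
    exact neg_nonneg.2 (Real.log_nonpos (hr _).le (this.trans hr1))
  have hf := hη.measurable
  refine iSup_le fun k => iSup_le fun P => iSup_le fun hP => ?_
  rw [← EReal.le_of_forall_lt_iff_le]
  intro c hc
  have hc : Φ / N < c := by exact_mod_cast hc
  set ε := (c - Φ / N) / 4 with hε
  have hε0 : 0 < ε := by rw [hε]; linarith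
  have hk : (0:ℝ) < k := by exact_mod_cast (P 0).pos
  set θ := 1 - Real.exp (-ε) with hθ
  have hθ0 : 0 < θ := by
    have := Real.exp_lt_one_iff.2 (show -ε < 0 by linarith)
    linarith
  have hθ1 : 0 < 1 - θ := by rw [hθ]; simpa using Real.exp_pos _
  set L := |Real.log (θ / k)| with hL
  have hL0 : 0 ≤ L := abs_nonneg _
  obtain ⟨K, hKm, hK, δ, hδ, hKδ⟩ := exists_good (η := η) hP (ε := ε / (L + 1)) (by positivity)
  obtain ⟨J0, hJ0⟩ := hexp δ hδ
  let e : T2 → Fin (k + 1) := fun x => if x ∈ K then 0 else (P x).succ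
  have he : Measurable e := Measurable.ite hKm measurable_const ((measurable_of_finite Fin.succ).comp hP)
  let r' : Fin (k + 1) → ℝ := Fin.cases (1 - θ) (fun _ => θ / k)
  have hr' : ∀ a, 0 < r' a := fun a => by
    refine Fin.cases ?_ (fun a => ?_) a
    · exact hθ1
    · exact div_pos hθ0 hk
  have hr'1 : ∑ a, r' a = 1 := by
    rw [Fin.sum_univ_succ]
    simp only [r', Fin.cases_zero, Fin.cases_succ, Finset.sum_const, Finset.card_univ,
      Fintype.card_fin, nsmul_eq_mul]
    field_simp; ring
  have hE : ∫ x, -Real.log (r' (e x)) ∂η ≤ 2 * ε := by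
    have h1 : ∀ x, -Real.log (r' (e x)) ≤ ε + Kᶜ.indicator (fun _ => L) x := by
      intro x
      by_cases hx : x ∈ K
      · simp only [e, if_pos hx, r', Fin.cases_zero, hθ, sub_sub_cancel, Real.log_exp]
        rw [indicator_of_notMem (by simpa using hx)]; linarith
      · simp only [e, if_neg hx, r', Fin.cases_succ]
        rw [indicator_of_mem (by simpa using hx)]
        linarith [neg_le_abs (Real.log (θ / k))]
    have h2 : Integrable (Kᶜ.indicator (fun _ => L)) η := (integrable_const L).indicator hKm.compl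
    refine (integral_mono (integrable_fin he (fun a => -Real.log (r' a)))
      ((integrable_const ε).add h2) h1).trans ?_
    rw [integral_add' (integrable_const ε) h2, integral_indicator_const _ hKm.compl]
    simp only [integral_const, probReal_univ, smul_eq_mul, one_mul]
    have : η.real Kᶜ * L ≤ ε := by
      refine (mul_le_mul_of_nonneg_right hK hL0).trans ?_
      rw [div_mul_eq_mul_div, div_le_iff₀ (by positivity)]
      nlinarith
    linarith
  have main : ∀ n : ℕ, ∑ w : Fin n → Fin k,
      Real.negMulLog (η.real {x | ∀ i : Fin n, P (f^[i] x) = w i})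
      ≤ (n / N + 1 + 2 * J0 : ℕ) * Φ + n * (2 * ε) := by
    intro n
    set J := n / N + 1 with hJ
    let C : T2 → (Fin (J + 2 * J0) → β) × (Fin n → Fin (k + 1)) := fun x =>
      (fun j => Q (f^[j * N] x), fun i => e (f^[i + J0 * N] x))
    let R : (Fin (J + 2 * J0) → β) × (Fin n → Fin (k + 1)) → ℝ := fun c =>
      (∏ j, r (c.1 j)) * ∏ i, r' (c.2 i)
    have hR : ∀ c, 0 < R c := fun c =>
      mul_pos (Finset.prod_pos fun j _ => hr _) (Finset.prod_pos fun j _ => hr' _)
    have hR1 : ∑ c, R c ≤ 1 := by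
      simp only [R]
      rw [Fintype.sum_prod_type]
      simp only [← Finset.mul_sum, ← Finset.sum_mul]
      rw [← Fintype.piFinset_univ, ← Fintype.piFinset_univ,
        ← Finset.prod_univ_sum (fun _ => Finset.univ) (fun _ b => r b),
        ← Finset.prod_univ_sum (fun _ => Finset.univ) (fun _ b => r' b), hr'1]
      simp only [Finset.prod_const_one, mul_one]
      exact Finset.prod_le_one (fun _ _ => Finset.sum_nonneg fun b _ => (hr b).le) fun _ _ => hr1
    have hlog : ∀ x, -Real.log (R (C x)) = ∑ j : Fin (J + 2 * J0), -Real.log (r (Q (f^[j * N] x)))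
        + ∑ i : Fin n, -Real.log (r' (e (f^[i + J0 * N] x))) := by
      intro x
      simp only [R, C]
      rw [Real.log_mul (Finset.prod_pos fun j _ => hr _).ne' (Finset.prod_pos fun j _ => hr' _).ne',
        Real.log_prod (fun j _ => (hr _).ne'), Real.log_prod (fun j _ => (hr' _).ne')]
      simp only [Finset.sum_neg_distrib]; ring
    have i1 : ∀ j : ℕ, Integrable (fun x => -Real.log (r (Q (f^[j] x)))) η := fun j =>
      integrable_fin (hQ.comp (hf.iterate j)) (fun a => -Real.log (r a))
    have i2 : ∀ j : ℕ, Integrable (fun x => -Real.log (r' (e (f^[j] x)))) η := fun j =>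
      integrable_fin (he.comp (hf.iterate j)) (fun a => -Real.log (r' a))
    have hW : Measurable (fun x (i : Fin n) => P (f^[i] (f^[J0 * N] x))) :=
      (name_meas hf n hP).comp (hf.iterate _)
    have h1 := ent_le (η := η) hW C R hR hR1 (by
      simp only [hlog]
      exact (integrable_finsetSum _ fun j _ => i1 _).add (integrable_finsetSum _ fun j _ => i2 _))
      h0 (by
        intro x hx y hy hxy
        simp only [C, Prod.mk.injEq, funext_iff] at hxy
        funext i
        rw [← Function.iterate_add_apply, ← Function.iterate_add_apply]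
        have h2 := hxy.2 i
        have h3 := hJ0 J x hx y hy (fun j hj => hxy.1 ⟨j, hj⟩) (i + J0 * N) (by omega) (by
          have h4 : (i:ℕ) < J * N := by
            have := Nat.lt_div_mul_add (a := n) hN
            have := i.2
            rw [hJ]; nlinarith
          nlinarith)
        simp only [e] at h2
        split_ifs at h2 with h5 h6 h6
        · exact hKδ _ h5 _ h6 h3
        · exact absurd h2.symm (Fin.succ_ne_zero _)
        · exact absurd h2 (Fin.succ_ne_zero _)
        · exact Fin.succ_injective _ h2)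
    have h2 : ∀ w : Fin n → Fin k, η.real ((fun x (i : Fin n) => P (f^[i] (f^[J0 * N] x))) ⁻¹' {w})
        = η.real {x | ∀ i : Fin n, P (f^[i] x) = w i} := by
      intro w
      rw [name_eq, ← (hη.iterate (J0 * N)).measureReal_preimage
        ((name_meas hf n hP) (measurableSet_singleton w)).nullMeasurableSet]
      rfl
    simp only [h2, hlog] at h1
    refine h1.trans ?_
    rw [integral_add (integrable_finsetSum _ fun j _ => i1 _) (integrable_finsetSum _ fun j _ => i2 _),
      integral_finsetSum _ fun j _ => i1 _, integral_finsetSum _ fun j _ => i2 _]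
    simp only [integral_iter hη hQ (fun a => -Real.log (r a)),
      integral_iter hη he (fun a => -Real.log (r' a)), Finset.sum_const, Finset.card_univ,
      Fintype.card_fin, nsmul_eq_mul, ← hΦ]
    gcongr
  refine limsup_le_of_le (by isBoundedDefault) ?_
  have ht := tendsto_const_div_atTop_nhds_zero_nat ((1 + 2 * J0) * Φ)
  filter_upwards [ht.eventually (gt_mem_nhds hε0), eventually_gt_atTop 0] with n hn hn0
  rw [EReal.coe_le_coe_iff]
  have hn0 : (0:ℝ) < n := by exact_mod_cast hn0
  rw [div_lt_iff₀ hn0] at hn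
  rw [div_le_iff₀ hn0]
  refine (main n).trans ?_
  have h3 : ((n / N : ℕ) : ℝ) ≤ n / N := Nat.cast_div_le
  have h4 : ((n / N : ℕ) : ℝ) * Φ ≤ n * (Φ / N) := by
    refine (mul_le_mul_of_nonneg_right h3 hΦ0).trans (le_of_eq ?_); ring
  push_cast
  have : c = Φ / N + 4 * ε := by rw [hε]; ring
  rw [this]
  nlinarith

end Pool.Agent.Lib.MP_4492e9_an
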