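import Pool.Agent.Lib.MP_4492e9_an.Ergo
import Pool.Agent.Lib.MP_4492e9_an.Gibbs

open Set Filter Topology MeasureTheory
open scoped ENNReal NNReal

set_option synthInstance.maxSize 1024

noncomputable section
namespace Pool.Agent.Lib.MP_4492e9_an

def cell (a b : ℝ) (p : T2) : ℤ × ℤ := (⌊(lf p).1 / a⌋, ⌊(lf p).2 / b⌋)

def rng (a : ℝ) : Finset ℤ := Finset.Icc (-⌈3 / a⌉) ⌈3 / a⌉

theorem floor_mem_rng {a t : ℝ} (ha : 0 < a) (ht : |t| ≤ 3) : ⌊t / a⌋ ∈ rng a := by
  rw [abs_le] at ht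
  have h1 : t / a ≤ 3 / a := by gcongr; exact ht.2
  have h2 : -(3 / a) ≤ t / a := by rw [← neg_div]; gcongr; exact ht.1
  have h3 := Int.le_ceil (3 / a)
  simp only [rng, Finset.mem_Icc]
  constructor
  · rw [Int.le_floor]; push_cast; linarith
  · have : (⌊t / a⌋ : ℝ) ≤ ⌈3 / a⌉ := by linarith [Int.floor_le (t / a)]
    exact_mod_cast this

theorem rng_card {a : ℝ} (ha : 0 < a) (ha1 : a ≤ 1) : ((rng a).card : ℝ) ≤ 9 / a := by
  have h1 := Int.ceil_lt_add_one (3 / a)
  have h0 : 0 ≤ ⌈3 / a⌉ := Int.ceil_nonneg (by positivity)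
  have h2 : (((rng a).card : ℤ) : ℝ) = ((2 * ⌈3 / a⌉ + 1 : ℤ) : ℝ) := by
    congr 1
    simp only [rng, Int.card_Icc]
    omega
  push_cast at h2
  rw [h2]
  have h3 : 3 ≤ 3 / a := by rw [le_div_iff₀ ha]; linarith
  have : 9 / a = 3 * (3 / a) := by ring
  linarith

def gbox (a b : ℝ) : Finset (ℤ × ℤ) := rng a ×ˢ rng b

theorem cell_mem {a b : ℝ} (ha : 0 < a) (hb : 0 < b) (p : T2) : cell a b p ∈ gbox a b :=
  Finset.mem_product.2 ⟨floor_mem_rng ha ((abs_fst_le _).trans (lf_norm p)),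
    floor_mem_rng hb ((abs_snd_le _).trans (lf_norm p))⟩

theorem gbox_card {a b : ℝ} (ha : 0 < a) (ha1 : a ≤ 1) (hb : 0 < b) (hb1 : b ≤ 1) :
    ((gbox a b).card : ℝ) ≤ 9 / a * (9 / b) := by
  rw [gbox, Finset.card_product, Nat.cast_mul]
  exact mul_le_mul (rng_card ha ha1) (rng_card hb hb1) (by positivity) (by positivity)

theorem cell_meas (a b : ℝ) : Measurable (cell a b) :=
  (Int.measurable_floor.comp ((measurable_fst.comp lf_meas).div_const a)).prodMk
    (Int.measurable_floor.comp ((measurable_snd.comp lf_meas).div_const b))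

theorem floor_close {a t t' : ℝ} (ha : 0 < a) (h : ⌊t / a⌋ = ⌊t' / a⌋) : |t' - t| ≤ a := by
  have := Int.abs_sub_lt_one_of_floor_eq_floor h
  rw [← sub_div, abs_div, abs_of_pos ha, div_lt_one ha, abs_sub_comm] at this
  exact this.le

theorem cell_close {a b : ℝ} (ha : 0 < a) (hb : 0 < b) {p q : T2} (h : cell a b p = cell a b q) :
    |(lf q).1 - (lf p).1| ≤ a ∧ |(lf q).2 - (lf p).2| ≤ b :=
  ⟨floor_close ha (congrArg Prod.fst h), floor_close hb (congrArg Prod.snd h)⟩

theorem eN_pos (N : ℕ) : 0 < e1 / lam ^ N := div_pos e1_pos (pow_pos lam_pos N)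
theorem eN_le (N : ℕ) : e1 / lam ^ N ≤ e1 := div_le_self e1_pos.le (one_le_pow₀ one_lt_lam.le)

theorem forward_dist {z z' : E} (hz : z ∉ DD) {n : ℕ} {ε : ℝ} (hε : ε ≤ e1)
    (hu : lam ^ n * |z'.1 - z.1| ≤ ε) (h : |z'.2 - z.2| ≤ ε) (i : ℕ) (hi : i ≤ n) :
    ‖Fh^[i] z' - Fh^[i] z‖ ≤ ε * (lam' ^ i + MM * (lam ^ i / lam ^ n)) := by
  have h1 := forward hz n (hu.trans hε) (h.trans hε) i hi
  have hM := MM_ge
  have h2 : lam ^ i * |z'.1 - z.1| ≤ ε * (lam ^ i / lam ^ n) := by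
    have hn := pow_pos lam_pos n
    have hi := pow_pos lam_pos i
    rw [mul_div_assoc', le_div_iff₀ hn]
    nlinarith
  have h0 : 0 ≤ ε := (abs_nonneg _).trans h
  have h3 := pow_pos lam'_pos i
  have h4 : 0 ≤ ε * (lam ^ i / lam ^ n) := by have := lam_pos; positivity
  apply norm_E_le
  · simp only [Prod.fst_sub, Fh_iter_fst]
    rw [← mul_sub, abs_mul, abs_of_pos (pow_pos lam_pos _)]
    nlinarith
  · simp only [Prod.snd_sub]
    nlinarith

theorem forward_dist' {z z' : E} (hz : z ∉ DD) {n : ℕ} {ε : ℝ} (hε : ε ≤ e1)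
    (hu : lam ^ n * |z'.1 - z.1| ≤ ε) (h : |z'.2 - z.2| ≤ ε) (i : ℕ) (hi : i ≤ n) :
    ‖Fh^[i] z' - Fh^[i] z‖ ≤ ε * (1 + MM) := by
  refine (forward_dist hz hε hu h i hi).trans ?_
  have h0 : 0 ≤ ε := (abs_nonneg _).trans h
  have h1 : lam' ^ i ≤ 1 := pow_le_one₀ lam'_pos.le (by linarith [lam'_lt])
  have h2 : lam ^ i / lam ^ n ≤ 1 :=
    (div_le_one (pow_pos lam_pos n)).2 (pow_le_pow_right₀ one_lt_lam.le hi)
  have hM := MM_ge
  gcongr
  nlinarith

theorem shadow {N J : ℕ} {x y : T2} (hx : x ∉ DT) (hJ : 0 < J)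
    (h : ∀ j < J, cell (e1 / lam ^ N) e1 (ff^[j * N] x) = cell (e1 / lam ^ N) e1 (ff^[j * N] y))
    (i : ℕ) (hi : i ≤ J * N) :
    dist (ff^[i] y) (ff^[i] x) ≤ lam' ^ i + lam ^ i / lam ^ (J * N) := by
  have hz : lf x ∉ DD := hx
  have h0 := cell_close (eN_pos N) e1_pos (h 0 hJ)
  simp only [zero_mul, Function.iterate_zero, id] at h0
  have key : ∀ j < J, lam ^ ((j + 1) * N) * |(lf y).1 - (lf x).1| ≤ e1 := by
    intro j hj
    induction j with
    | zero => rw [zero_add, one_mul, ← le_div_iff₀' (pow_pos lam_pos N)]; exact h0.1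
    | succ j ih =>
      have ih := ih (by omega)
      set n := (j + 1) * N
      have h1 := forward_dist' hz le_rfl ih h0.2 n le_rfl
      have h2 := cell_close (eN_pos N) e1_pos (h (j + 1) hj)
      obtain ⟨m, hm⟩ := lf_pp (Fh^[n] (lf x))
      rw [← ff_iter_pp, pp_lf] at hm
      have h3 : lf (ff^[n] y) = Fh^[n] (lf y) + lat m := by
        apply eq_of_pp
        · rw [pp_add_lat, ← ff_iter_pp, pp_lf, pp_lf]
        · have h4 : ‖lf (ff^[n] y) - lf (ff^[n] x)‖ ≤ e1 :=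
            norm_E_le (h2.1.trans (eN_le N)) h2.2
          have e : lf (ff^[n] y) - (Fh^[n] (lf y) + lat m)
              = (lf (ff^[n] y) - lf (ff^[n] x)) - (Fh^[n] (lf y) - Fh^[n] (lf x)) := by
            rw [hm]; abel
          rw [e]
          refine (norm_sub_le _ _).trans ?_
          linarith [e1_mul, e1_le]
      have h5 := h2.1
      rw [h3, hm, Prod.fst_add, Prod.fst_add, add_sub_add_right_eq_sub, Fh_iter_fst, Fh_iter_fst,
        ← mul_sub, abs_mul, abs_of_pos (pow_pos lam_pos _), le_div_iff₀ (pow_pos lam_pos _)] at h5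
      rw [show (j + 1 + 1) * N = n + N by simp only [n]; ring, pow_add]
      linarith
  have h6 := key (J - 1) (by omega)
  rw [Nat.sub_add_cancel hJ] at h6
  have h7 := forward_dist hz le_rfl h6 h0.2 i hi
  rw [← pp_lf x, ← pp_lf y, ff_iter_pp, ff_iter_pp]
  refine (pp_dist _ _).trans (h7.trans ?_)
  have h8 := pow_pos lam'_pos i
  have h9 : 0 ≤ lam ^ i / lam ^ (J * N) := by have := lam_pos; positivity
  have := e1_mul; have := e1_le; have := e1_pos
  nlinarith

def X0 : Set T2 := {p | p ∉ DT ∨ p = 0}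

theorem shadow' {N J : ℕ} {x y : T2} (hx : x ∈ X0) (hy : y ∈ X0) (hJ : 0 < J)
    (h : ∀ j < J, cell (e1 / lam ^ N) e1 (ff^[j * N] x) = cell (e1 / lam ^ N) e1 (ff^[j * N] y))
    (i : ℕ) (hi : i ≤ J * N) :
    dist (ff^[i] x) (ff^[i] y) ≤ lam' ^ i + lam ^ i / lam ^ (J * N) := by
  rcases hy with hy | hy
  · exact shadow hy hJ (fun j hj => (h j hj).symm) i hi
  rcases hx with hx | hx
  · rw [dist_comm]; exact shadow hx hJ h i hi
  rw [hx, hy, dist_self]
  have := lam_pos; have := lam'_pos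
  positivity

/-- the grid partition -/
def QQ (N : ℕ) (p : T2) : gbox (e1 / lam ^ N) e1 :=
  ⟨cell (e1 / lam ^ N) e1 p, cell_mem (eN_pos N) e1_pos p⟩

theorem QQ_meas (N : ℕ) : Measurable (QQ N) := (cell_meas _ _).subtype_mk

theorem ks_le_grid {η : Measure T2} [IsProbabilityMeasure η] (hη : MeasurePreserving ff η η)
    {N : ℕ} (hN : 0 < N) (r : gbox (e1 / lam ^ N) e1 → ℝ) (hr : ∀ b, 0 < r b)
    (hr1 : ∑ b, r b ≤ 1) :
    ksEntropy ff η ≤ (((∫ x, -Real.log (r (QQ N x)) ∂η) / N : ℝ) : EReal) := by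
  refine ks_le hη hN (QQ_meas N) r hr hr1 (X0 := X0) (ae_notDT η hη) fun δ hδ => ?_
  have t1 : Tendsto (fun n : ℕ => lam' ^ n + 1 / lam ^ n) atTop (𝓝 0) := by
    simpa using (tendsto_pow_atTop_nhds_zero_of_lt_one lam'_pos.le
      (by linarith [lam'_lt])).add (tendsto_div_lam 1)
  obtain ⟨J0, h1, h2⟩ := ((t1.eventually (gt_mem_nhds hδ)).and (eventually_gt_atTop 0)).exists
  refine ⟨J0, fun J x hx y hy h i hi1 hi2 => ?_⟩
  refine (shadow' hx hy (J := J + 2 * J0) (by omega)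
    (fun j hj => congrArg Subtype.val (h j hj)) i (by nlinarith)).trans_lt (lt_of_le_of_lt ?_ h1)
  apply add_le_add
  · exact pow_le_pow_of_le_one lam'_pos.le (by linarith [lam'_lt]) (by nlinarith)
  · rw [div_le_div_iff₀ (pow_pos lam_pos _) (pow_pos lam_pos _), one_mul, ← pow_add]
    exact pow_le_pow_right₀ one_lt_lam.le (by nlinarith)

def CT : ℝ := 81 / e1 ^ 2
theorem CT_ge : 1 ≤ CT := by
  unfold CT; have := e1_pos; have := e1_le
  rw [le_div_iff₀ (by positivity)]; nlinarith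

theorem CT_eq (N : ℕ) : 9 / (e1 / lam ^ N) * (9 / e1) = CT * lam ^ N := by
  have := e1_pos; have := lam_pos
  unfold CT; field_simp; norm_num

theorem QQ_card (N : ℕ) : (Fintype.card (gbox (e1 / lam ^ N) e1) : ℝ) ≤ CT * lam ^ N := by
  rw [Fintype.card_coe, ← CT_eq]
  exact gbox_card (eN_pos N) (by linarith [eN_le N, e1_le]) e1_pos (by linarith [e1_le])

theorem weights_unif (N : ℕ) : ∃ r : gbox (e1 / lam ^ N) e1 → ℝ, (∀ b, 0 < r b) ∧ ∑ b, r b ≤ 1 ∧
    ∀ b, -Real.log (r b) = N * Real.log lam + Real.log CT := by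
  have h0 : 0 < CT * lam ^ N := mul_pos (by linarith [CT_ge]) (pow_pos lam_pos N)
  refine ⟨fun _ => (CT * lam ^ N)⁻¹, fun _ => inv_pos.2 h0, ?_, fun _ => ?_⟩
  · simp only [Finset.sum_const, Finset.card_univ, nsmul_eq_mul]
    rw [mul_inv_le_iff₀ h0, one_mul]; exact QQ_card N
  · rw [Real.log_inv, neg_neg, Real.log_mul (by linarith [CT_ge]) (pow_pos lam_pos N).ne',
      Real.log_pow, add_comm]

theorem column_count {K : Set ℝ} {a θ : ℝ} (ha : 0 < a) (hθ : 0 ≤ θ)
    (h : volume (Metric.cthickening a K) ≤ ENNReal.ofReal θ) (A : Finset ℤ)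
    (hA : ∀ i ∈ A, ∃ t ∈ K, ⌊t / a⌋ = i) : (A.card : ℝ) * a ≤ θ := by
  have h1 : (⋃ i ∈ A, Ico ((i:ℝ) * a) ((i + 1) * a)) ⊆ Metric.cthickening a K := by
    intro s hs
    obtain ⟨i, hi, hs⟩ := mem_iUnion₂.1 hs
    obtain ⟨t, ht, hti⟩ := hA i hi
    refine Metric.mem_cthickening_of_dist_le s t a K ht ?_
    rw [Real.dist_eq]
    apply floor_close ha
    rw [hti, eq_comm, Int.floor_eq_iff, le_div_iff₀ ha, div_lt_iff₀ ha]
    exact hs
  have h2 := (measure_mono h1).trans h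
  rw [measure_biUnion_finset] at h2
  · simp only [Real.volume_Ico, add_mul, one_mul, add_sub_cancel_left, Finset.sum_const,
      nsmul_eq_mul] at h2
    rw [← ENNReal.ofReal_natCast, ← ENNReal.ofReal_mul (by positivity),
      ENNReal.ofReal_le_ofReal_iff hθ] at h2
    exact h2
  · intro i _ j _ hij
    rw [Function.onFun, Set.disjoint_left]
    intro s h3 h4
    apply hij
    have e1 : ⌊s / a⌋ = i := by rw [Int.floor_eq_iff, le_div_iff₀ ha, div_lt_iff₀ ha]; exact h3
    have e2 : ⌊s / a⌋ = j := by rw [Int.floor_eq_iff, le_div_iff₀ ha, div_lt_iff₀ ha]; exact h4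
    rw [← e1, e2]
  · exact fun _ _ => measurableSet_Ico

theorem weights_ne {η : Measure T2} [IsProbabilityMeasure η] (hη : MeasurePreserving ff η η)
    (hne : η ≠ nu) : ∃ N : ℕ, 0 < N ∧ ∃ r : gbox (e1 / lam ^ N) e1 → ℝ, (∀ b, 0 < r b) ∧
      ∑ b, r b ≤ 1 ∧ ∫ x, -Real.log (r (QQ N x)) ∂η ≤ N * Real.log lam - 1 := by
  classical
  have h1 : ∃ Z : Set ℝ, MeasurableSet Z ∧ volume Z = 0 ∧ η {p | (lf p).1 ∈ Z} ≠ 0 := by
    by_contra hc
    push Not at hc
    exact hne (key η hη hc)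
  obtain ⟨Z, hZ, hZ0, hZη⟩ := h1
  have hm : Measurable fun p => (lf p).1 := measurable_fst.comp lf_meas
  obtain ⟨K, hKZ, hK, hKη⟩ := hZ.exists_lt_isCompact (μ := η.map fun p => (lf p).1) (r := 0)
    (by rw [Measure.map_apply hm hZ]; exact pos_iff_ne_zero.2 hZη)
  rw [Measure.map_apply hm hK.measurableSet] at hKη
  set S := (fun p => (lf p).1) ⁻¹' K with hS
  have hSm : MeasurableSet S := hm hK.measurableSet
  set b := η.real S with hb
  have hb0 : 0 < b := ENNReal.toReal_pos hKη.ne' (measure_ne_top _ _)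
  have hC := CT_ge
  have hl : 0 ≤ Real.log (2 * CT) := Real.log_nonneg (by linarith)
  set θ := Real.exp (-(Real.log (2 * CT) + 1) / b) with hθ
  have hθ0 : 0 < θ := Real.exp_pos _
  have hθl : Real.log θ = -(Real.log (2 * CT) + 1) / b := Real.log_exp _
  have hθl0 : Real.log θ ≤ 0 := by
    rw [hθl]; exact div_nonpos_of_nonpos_of_nonneg (by linarith) hb0.le
  have t1 := (tendsto_measure_cthickening_of_isCompact (μ := volume) hK).comp (tendsto_div_lam e1)
  rw [measure_mono_null hKZ hZ0] at t1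
  obtain ⟨N, hN1, hN⟩ := ((t1.eventually (ge_mem_nhds (ENNReal.ofReal_pos.2 hθ0))).and
    (eventually_gt_atTop 0)).exists
  set a := e1 / lam ^ N with ha
  set T := CT * lam ^ N with hT
  have hT0 : 0 < T := mul_pos (by linarith) (pow_pos lam_pos N)
  let A : Finset ℤ := (rng a).filter fun i => ∃ t ∈ K, ⌊t / a⌋ = i
  have hA := column_count (eN_pos N) hθ0.le hN1 A fun i hi => (Finset.mem_filter.1 hi).2
  refine ⟨N, hN, fun c => if c.1.1 ∈ A then (2 * θ * T)⁻¹ else (2 * T)⁻¹, fun c => ?_, ?_, ?_⟩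
  · simp only; split_ifs <;> positivity
  · have h2 : ∀ c : gbox a e1, (if c.1.1 ∈ A then (2 * θ * T)⁻¹ else (2 * T)⁻¹)
        ≤ (if c.1.1 ∈ A then (2 * θ * T)⁻¹ else 0) + (2 * T)⁻¹ := by
      intro c
      have : 0 < (2 * T)⁻¹ := by positivity
      split_ifs <;> linarith
    refine (Finset.sum_le_sum fun c _ => h2 c).trans ?_
    rw [Finset.sum_add_distrib]
    have h3 : ∑ _c : gbox a e1, (2 * T)⁻¹ ≤ 1/2 := by
      simp only [Finset.sum_const, Finset.card_univ, nsmul_eq_mul]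
      rw [mul_inv_le_iff₀ (by positivity)]
      linarith [QQ_card N]
    have h4 : ∑ c : gbox a e1, (if c.1.1 ∈ A then (2 * θ * T)⁻¹ else 0) ≤ 1/2 := by
      rw [Finset.sum_coe_sort (gbox a e1) (fun c => if c.1 ∈ A then (2 * θ * T)⁻¹ else 0),
        ← Finset.sum_filter, Finset.sum_const, nsmul_eq_mul, mul_inv_le_iff₀ (by positivity)]
      have h5 : ((gbox a e1).filter fun c => c.1 ∈ A) ⊆ A ×ˢ rng e1 := by
        intro c hc
        rw [Finset.mem_filter] at hc
        exact Finset.mem_product.2 ⟨hc.2, (Finset.mem_product.1 hc.1).2⟩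
      have h6 : (((gbox a e1).filter fun c => c.1 ∈ A).card : ℝ) ≤ A.card * (rng e1).card := by
        have := Finset.card_le_card h5
        rw [Finset.card_product] at this
        exact_mod_cast this
      have h7 := rng_card e1_pos (by linarith [e1_le])
      have h8 : (A.card : ℝ) ≤ θ * (9 / a) := by
        have := eN_pos N
        rw [mul_div_assoc', le_div_iff₀ this]; linarith
      have h9 := mul_le_mul h8 h7 (by positivity) ((Nat.cast_nonneg _).trans h8)
      rw [mul_assoc, CT_eq] at h9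
      linarith
    linarith
  · have h2 : ∀ x, -Real.log (if (QQ N x).1.1 ∈ A then (2 * θ * T)⁻¹ else (2 * T)⁻¹)
        ≤ Real.log (2 * T) + S.indicator (fun _ => Real.log θ) x := by
      intro x
      by_cases hx : (QQ N x).1.1 ∈ A
      · rw [if_pos hx, Real.log_inv, neg_neg, show 2 * θ * T = 2 * T * θ by ring,
          Real.log_mul (by positivity) hθ0.ne']
        by_cases hx2 : x ∈ S
        · rw [indicator_of_mem hx2]
        · rw [indicator_of_notMem hx2]; linarith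
      · rw [if_neg hx, Real.log_inv, neg_neg, indicator_of_notMem, add_zero]
        intro hx2
        exact hx (Finset.mem_filter.2 ⟨(Finset.mem_product.1 (QQ N x).2).1, _, hx2, rfl⟩)
    have h3 : Integrable (S.indicator (fun _ => Real.log θ)) η := (integrable_const _).indicator hSm
    refine (integral_mono (integrable_fin (QQ_meas N)
      (fun c => -Real.log (if c.1.1 ∈ A then (2 * θ * T)⁻¹ else (2 * T)⁻¹)))
      ((integrable_const _).add h3) h2).trans ?_
    rw [integral_add' (integrable_const _) h3, integral_indicator_const _ hSm]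
    simp only [integral_const, probReal_univ, smul_eq_mul, one_mul]
    rw [← hb, hθl, hT, ← mul_assoc, Real.log_mul (by positivity) (pow_pos lam_pos N).ne',
      Real.log_pow]
    have : b * (-(Real.log (2 * CT) + 1) / b) = -(Real.log (2 * CT) + 1) := by field_simp
    rw [this]; linarith

theorem ks_lt {η : Measure T2} [IsProbabilityMeasure η] (hη : MeasurePreserving ff η η)
    (hne : η ≠ nu) : ksEntropy ff η < (Real.log lam : EReal) := by
  obtain ⟨N, hN, r, hr, hr1, h⟩ := weights_ne hη hne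
  refine (ks_le_grid hη hN r hr hr1).trans_lt ?_
  rw [EReal.coe_lt_coe_iff, div_lt_iff₀ (by exact_mod_cast hN)]
  linarith

theorem ks_le_log {η : Measure T2} [IsProbabilityMeasure η] (hη : MeasurePreserving ff η η) :
    ksEntropy ff η ≤ (Real.log lam : EReal) := by
  rw [← EReal.le_of_forall_lt_iff_le]
  intro c hc
  have hc : Real.log lam < c := by exact_mod_cast hc
  obtain ⟨N, h1, hN⟩ := (((tendsto_const_div_atTop_nhds_zero_nat (Real.log CT)).eventually
    (gt_mem_nhds (sub_pos.2 hc))).and (eventually_gt_atTop 0)).exists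
  obtain ⟨r, hr, hr1, h⟩ := weights_unif N
  refine (ks_le_grid hη hN r hr hr1).trans ?_
  have hN : (0:ℝ) < N := by exact_mod_cast hN
  simp only [h, integral_const, probReal_univ, smul_eq_mul, one_mul]
  rw [EReal.coe_le_coe_iff, div_le_iff₀ hN]
  rw [div_lt_iff₀ hN] at h1
  linarith

end Pool.Agent.Lib.MP_4492e9_an
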