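import Pool.Agent.Lib.MP_4492e9_an.SRB

/-! Lower Hausdorff dimension of the invariant measures. -/

open Set Filter Topology MeasureTheory
open scoped ENNReal NNReal MeasureTheory

noncomputable section
namespace Pool.Agent.Lib.MP_4492e9_an

theorem low_lt {η : Measure T2} [IsProbabilityMeasure η] (hm : MeasurePreserving ff η η)
    (hne : η ≠ nu) : ∃ Z, MeasurableSet Z ∧ η Z ≠ 0 ∧ dimH Z < ENNReal.ofReal dd := by
  obtain ⟨N, hN, r, hr, hr1, h⟩ := weights_ne hm hne
  have hφ : ∀ x, 0 ≤ -Real.log (r (QQ N x)) := fun x => by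
    have := Finset.single_le_sum (fun b _ => (hr b).le) (Finset.mem_univ (QQ N x))
    exact neg_nonneg.2 (Real.log_nonpos (hr _).le (this.trans hr1))
  have hΦ0 : 0 ≤ ∫ x, -Real.log (r (QQ N x)) ∂η := integral_nonneg hφ
  set T := N * la - 1/2 with hT
  have hT0 : 0 < T := by rw [hT, la]; linarith
  have hY : ∀ J, 1 / (2 * T) ≤ η.real (YY N r T (J + 1)) := by
    intro J
    have hJ : (0:ℝ) < (J + 1 : ℕ) := by positivity
    generalize J + 1 = J at hJ
    have i1 : ∀ j : ℕ, Integrable (fun x => -Real.log (r (QQ N (ff^[j] x)))) η := fun j =>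
      integrable_fin ((QQ_meas N).comp (ff_cont.measurable.iterate j)) (fun a => -Real.log (r a))
    have h1 := mul_meas_ge_le_integral_of_nonneg (μ := η)
      (f := fun x => ∑ j ∈ Finset.range J, -Real.log (r (QQ N (ff^[j * N] x))))
      (Eventually.of_forall fun x => Finset.sum_nonneg fun j _ => hφ _)
      (integrable_finsetSum _ fun j _ => i1 _) (J * T)
    rw [integral_finsetSum _ fun j _ => i1 _] at h1
    simp only [integral_iter hm (QQ_meas N) (fun a => -Real.log (r a)), Finset.sum_const,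
      Finset.card_range, nsmul_eq_mul] at h1
    set B := {x | J * T ≤ ∑ j ∈ Finset.range J, -Real.log (r (QQ N (ff^[j * N] x)))} with hB
    have hBm : MeasurableSet B := measurableSet_le measurable_const (sum_meas N r J)
    have h2 : T * η.real B ≤ T - 1/2 := by
      have : J * (T * η.real B) ≤ J * (T - 1/2) := by
        refine le_trans (le_of_eq (by ring)) (h1.trans (mul_le_mul_of_nonneg_left ?_ hJ.le))
        rw [hT, la]; linarith
      exact le_of_mul_le_mul_left this hJ
    have h3 : η.real Bᶜ ≤ η.real (YY N r T J) := by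
      have hmm : MeasurableSet {x | x ∈ X0 ∧
          ∑ j ∈ Finset.range J, -Real.log (r (QQ N (ff^[j * N] x))) ≤ J * T} :=
        X0_meas.inter (measurableSet_le (sum_meas N r J) measurable_const)
      rw [YY, ((gg_mp η hm).iterate _).measureReal_preimage hmm.nullMeasurableSet]
      refine ENNReal.toReal_mono (measure_ne_top _ _) (measure_mono_ae ?_)
      filter_upwards [ae_notDT η hm] with x hx hx2
      have hx3 : ¬ (J * T ≤ ∑ j ∈ Finset.range J, -Real.log (r (QQ N (ff^[j * N] x)))) := hx2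
      exact ⟨hx, (not_le.1 hx3).le⟩
    rw [probReal_compl_eq_one_sub hBm] at h3
    rw [div_le_iff₀ (by positivity)]
    nlinarith
  let Z : Set T2 := ⋂ K, ⋃ J ≥ K, YY N r T J
  have hU : ∀ K : ℕ, MeasurableSet (⋃ J ≥ K, YY N r T J) := fun K =>
    MeasurableSet.biUnion (to_countable _) fun J _ => YY_meas N r T J
  have hZ : MeasurableSet Z := MeasurableSet.iInter hU
  have hZ0 : η Z ≠ 0 := by
    have h1 := tendsto_measure_iInter_atTop (μ := η) (fun K => (hU K).nullMeasurableSet)
      (fun K K' hK => biUnion_subset_biUnion_left fun J (hJ : J ≥ K') => hK.trans hJ)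
      ⟨0, measure_ne_top _ _⟩
    have h2 : ENNReal.ofReal (1 / (2 * T)) ≤ η Z := by
      refine ge_of_tendsto' h1 fun K => ?_
      refine le_trans ?_ (measure_mono (subset_biUnion_of_mem (u := YY N r T)
        (show K + 1 ∈ {J | J ≥ K} from Nat.le_succ K)))
      exact (ENNReal.ofReal_le_iff_le_toReal (measure_ne_top _ _)).2 (hY K)
    intro h0
    rw [h0, nonpos_iff_eq_zero, ENNReal.ofReal_eq_zero] at h2
    have : 0 < 1 / (2 * T) := by positivity
    linarith
  have hc : 0 < N * (la / dd) := mul_pos (by exact_mod_cast hN) (div_pos la_pos dd_pos)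
  obtain ⟨d, hd1, hd2⟩ : ∃ d, T / (N * (la / dd)) < d ∧ d < dd := by
    apply exists_between
    rw [div_lt_iff₀ hc]
    have e : dd * (N * (la / dd)) = N * la := by have := dd_pos; field_simp
    rw [e, hT]; linarith
  have hd0 : 0 ≤ d := (div_pos hT0 hc).le.trans hd1.le
  have h4 : dimH Z ≤ ENNReal.ofReal d :=
    dimH_YY hN hr hr1 hd0 (by rwa [div_lt_iff₀' hc] at hd1) fun K => iInter_subset _ K
  exact ⟨Z, hZ, hZ0, h4.trans_lt ((ENNReal.ofReal_lt_ofReal_iff dd_pos).2 hd2)⟩

theorem low_nu {Z : Set T2} (h1 : nu Z ≠ 0) : ENNReal.ofReal dd ≤ dimH Z := by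
  have h : (ENNReal.ofReal CD)⁻¹ • nu ≤ μH[dd] := by
    refine Measure.le_hausdorffMeasure dd _ (ENNReal.ofReal (1/4)) (by simp) fun s hs => ?_
    have hne : Metric.ediam s ≠ ⊤ := ne_top_of_le_ne_top ENNReal.ofReal_ne_top hs
    have h1 : Metric.diam s ≤ 1/4 := ENNReal.toReal_le_of_le_ofReal (by norm_num) hs
    have h2 : nu.real s ≤ CD * Metric.diam s ^ dd := by
      rcases s.eq_empty_or_nonempty with rfl | ⟨x, hx⟩
      · rw [measureReal_empty]
        exact mul_nonneg CD_pos.le (Real.rpow_nonneg Metric.diam_nonneg _)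
      have t : Tendsto (fun ρ : ℝ => CD * ρ ^ dd) (𝓝[>] (Metric.diam s))
          (𝓝 (CD * Metric.diam s ^ dd)) :=
        (((Real.continuous_rpow_const dd_pos.le).tendsto _).const_mul CD).mono_left
          nhdsWithin_le_nhds
      refine ge_of_tendsto t ?_
      filter_upwards [Ioo_mem_nhdsGT (show Metric.diam s < 1/3 by linarith)] with ρ hρ
      exact nu_ball x (Metric.diam_nonneg.trans_lt hρ.1) (by linarith [hρ.2])
        fun y hy => (Metric.dist_le_diam_of_mem' hne hy hx).trans hρ.1.le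
    rw [Measure.smul_apply, smul_eq_mul,
      ENNReal.inv_mul_le_iff (by simpa using CD_pos) ENNReal.ofReal_ne_top,
      ← ENNReal.ofReal_toReal hne, ← ENNReal.ofReal_toReal (measure_ne_top nu s),
      ENNReal.ofReal_rpow_of_nonneg ENNReal.toReal_nonneg dd_pos.le,
      ← ENNReal.ofReal_mul CD_pos.le]
    exact ENNReal.ofReal_le_ofReal h2
  refine le_dimH_of_hausdorffMeasure_ne_zero (d := dd.toNNReal) ?_
  rw [Real.coe_toNNReal _ dd_pos.le]
  intro h0
  have h2 := Measure.le_iff'.1 h Z
  rw [h0, Measure.smul_apply, smul_eq_mul, nonpos_iff_eq_zero, mul_eq_zero] at h2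
  rcases h2 with h2 | h2
  · simp at h2
  · exact h1 h2

theorem measDim_nu : measDim nu = ENNReal.ofReal dd :=
  le_antisymm (measDim_le_dd nu_ergodic.toMeasurePreserving) dd_le_measDim

end Pool.Agent.Lib.MP_4492e9_an
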