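import Pool.Agent.Lib.MP_4492e9_an.Ergo

open Set Filter Topology MeasureTheory
open scoped ENNReal NNReal ContDiff

set_option synthInstance.maxSize 1024

noncomputable section
namespace Pool.Agent.Lib.MP_4492e9_an

/-- the lift in standard coordinates -/
def FX (z : E) : E := TL.symm (Fh (TL z))
def GX (z : E) : E := TL.symm (Gh (TL z))

theorem FX_smooth : ContDiff ℝ ∞ FX := TL.symm.contDiff.comp (Fh_smooth.comp TL.contDiff)
theorem GX_smooth : ContDiff ℝ ∞ GX := TL.symm.contDiff.comp (Gh_smooth.comp TL.contDiff)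

theorem proj_eq (z : E) : proj z = pp (TL z) := by rw [pp, TL_apply, TI_TT]
theorem proj_FX (z : E) : proj (FX z) = ff (proj z) := by rw [proj_eq z, ff_pp]; rfl
theorem proj_GX (z : E) : proj (GX z) = gg (proj z) := by rw [proj_eq z, gg_pp]; rfl

theorem FX_iter (n : ℕ) : FX^[n] = TL.symm ∘ Fh^[n] ∘ TL := by
  induction n with
  | zero => ext z <;> simp
  | succ n ih =>
    rw [Function.iterate_succ', ih, Function.iterate_succ']
    funext z
    simp [FX]

theorem fderiv_FX (n : ℕ) (z v : E) :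
    fderiv ℝ FX^[n] (TI z) (TI v) = TI (fderiv ℝ Fh^[n] z v) := by
  rw [FX_iter, TL.symm.comp_fderiv, TL.comp_right_fderiv]
  simp only [ContinuousLinearMap.comp_apply, ContinuousLinearEquiv.coe_coe, TL_apply,
    TL_symm_apply, TT_TI]

theorem fderiv_succ (n : ℕ) (z v : E) :
    fderiv ℝ Fh^[n+1] z v = fderiv ℝ Fh (Fh^[n] z) (fderiv ℝ Fh^[n] z v) := by
  rw [Function.iterate_succ', fderiv_comp z (Fh_diff _) (Fh_diff.iterate n z)]
  rfl

theorem fderiv_zero' (z v : E) : fderiv ℝ Fh^[0] z v = v := by simp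

theorem Dn_fst (n : ℕ) (z v : E) : (fderiv ℝ Fh^[n] z v).1 = lam ^ n * v.1 := by
  induction n with
  | zero => simp
  | succ n ih => rw [fderiv_succ, DF_fst, ih]; ring

theorem Dn_snd {z : E} (hz : z ∉ DD) (n : ℕ) (v : E) :
    |(fderiv ℝ Fh^[n] z v).2 - lam' ^ n * v.2| ≤ MM * (lam ^ n * |v.1|) := by
  have hM := MM_ge
  induction n with
  | zero => simp only [fderiv_zero', pow_zero, one_mul, sub_self, abs_zero]; positivity
  | succ n ih =>
    have h1 := DF_snd (Fh_iter_notDD hz n) (fderiv ℝ Fh^[n] z v)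
    rw [← fderiv_succ, Dn_fst, abs_mul, abs_of_pos (pow_pos lam_pos n)] at h1
    have h2 : 0 ≤ MM * (lam ^ n * |v.1|) := by have := lam_pos; positivity
    have := lam'_pos; have := lam'_lt; have := lam_gt
    rw [abs_le] at h1 ih ⊢
    rw [pow_succ, pow_succ]
    constructor <;> nlinarith

theorem log_rate {a : ℕ → ℝ} {c C l : ℝ} (hc : 0 < c) (hl : 0 < l)
    (h1 : ∀ n, c * l ^ n ≤ a n) (h2 : ∀ n, a n ≤ C * l ^ n) :
    Tendsto (fun n : ℕ => Real.log (a n) / n) atTop (𝓝 (Real.log l)) := by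
  have hC : 0 < C := by
    have := (h1 0).trans (h2 0)
    simp only [pow_zero, mul_one] at this; linarith
  have t : ∀ b : ℝ, Tendsto (fun n : ℕ => Real.log l + b / n) atTop (𝓝 (Real.log l)) := fun b => by
    simpa using (tendsto_const_div_atTop_nhds_zero_nat b).const_add (Real.log l)
  have e : ∀ b : ℝ, 0 < b → ∀ n : ℕ, 0 < n →
      Real.log l + Real.log b / n = Real.log (b * l ^ n) / n := by
    intro b hb n hn
    have : (0:ℝ) < n := by exact_mod_cast hn
    rw [Real.log_mul hb.ne' (pow_pos hl n).ne', Real.log_pow]; field_simp; ring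
  refine tendsto_of_tendsto_of_tendsto_of_le_of_le' (t (Real.log c)) (t (Real.log C)) ?_ ?_
  · filter_upwards [eventually_gt_atTop 0] with n hn
    rw [e c hc n hn]
    gcongr
    exact h1 n
  · filter_upwards [eventually_gt_atTop 0] with n hn
    rw [e C hC n hn]
    have : 0 < a n := (mul_pos hc (pow_pos hl n)).trans_le (h1 n)
    gcongr
    exact h2 n

theorem TI_lower (w : E) : ‖w‖ ≤ 3 * ‖TI w‖ := by simpa only [TT_TI] using TT_norm (TI w)

theorem TI_ne {w : E} (h : w ≠ 0) : TI w ≠ 0 := fun h0 => by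
  have := TI_lower w
  rw [h0, norm_zero, mul_zero] at this
  exact h (norm_le_zero_iff.1 this)

theorem exp_pos {x : T2} (hx : x ∉ DT) : IsExponent FX x (Real.log lam) := by
  refine ⟨TI (lf x), TI (1, 0), pp_lf x, TI_ne (by simp), ?_⟩
  simp only [fderiv_FX]
  refine log_rate (c := 1/3) (C := MM) (by norm_num) lam_pos (fun n => ?_) (fun n => ?_)
  · have h1 := (abs_fst_le _).trans (TI_lower (fderiv ℝ Fh^[n] (lf x) (1, 0)))
    rw [Dn_fst, mul_one, abs_of_pos (pow_pos lam_pos n)] at h1
    linarith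
  · refine (TI_norm _).trans (norm_E_le ?_ ?_)
    · rw [Dn_fst, mul_one, abs_of_pos (pow_pos lam_pos n)]
      nlinarith [MM_ge, pow_pos lam_pos n]
    · simpa using Dn_snd hx n (1, 0)

theorem exp_neg {x : T2} (hx : x ∉ DT) : IsExponent FX x (Real.log lam') := by
  refine ⟨TI (lf x), TI (0, 1), pp_lf x, TI_ne (by simp), ?_⟩
  simp only [fderiv_FX]
  have e : ∀ n, (fderiv ℝ Fh^[n] (lf x) (0, 1)).2 = lam' ^ n := fun n => by
    have := Dn_snd hx n (0, 1)
    simpa [sub_eq_zero] using this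
  refine log_rate (c := 1/3) (C := 1) (by norm_num) lam'_pos (fun n => ?_) (fun n => ?_)
  · have h1 := (abs_snd_le _).trans (TI_lower (fderiv ℝ Fh^[n] (lf x) (0, 1)))
    rw [e, abs_of_pos (pow_pos lam'_pos n)] at h1
    linarith
  · refine (TI_norm _).trans (norm_E_le ?_ ?_)
    · rw [Dn_fst]; simpa using (pow_pos lam'_pos n).le
    · rw [e, abs_of_pos (pow_pos lam'_pos n), one_mul]

theorem kT_notDT (p : T2) : kT p ∉ DT := by
  obtain ⟨z, rfl⟩ := pp_surj p
  rw [kT_pp, pp_mem_DT]; exact kh_notDD z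

theorem nu_notDT : ∀ᵐ x ∂nu, x ∉ DT := by
  rw [nu, ae_map_iff kT_meas.aemeasurable DT_open.measurableSet.compl]
  exact Eventually.of_forall kT_notDT

theorem not_conj : ¬ ∃ (A : GL (Fin 2) ℤ) (h : T2 ≃ₜ T2), ∀ p, h (ff p) =
    (A 0 0 • (h p).1 + A 0 1 • (h p).2, A 1 0 • (h p).1 + A 1 1 • (h p).2) := by
  rintro ⟨A, h, hA⟩
  let L : GL (Fin 2) ℤ → T2 → T2 := fun A q =>
    (A 0 0 • q.1 + A 0 1 • q.2, A 1 0 • q.1 + A 1 1 • q.2)
  have hadd : ∀ p q, L A (p + q) = L A p + L A q := by
    intro p q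
    simp only [L, Prod.fst_add, Prod.snd_add, smul_add, Prod.mk_add_mk]
    congr 1 <;> abel
  have hcont : Continuous (L A) := by simp only [L]; fun_prop
  have hsurj : Function.Surjective (L A) := by
    intro q
    refine ⟨h (gg (h.symm q)), ?_⟩
    have := hA (gg (h.symm q))
    rw [ff_gg, h.apply_symm_apply] at this
    exact this.symm
  have hmp : MeasurePreserving (L A) volume volume :=
    (AddMonoidHom.mk' (L A) hadd).measurePreserving hcont hsurj rfl
  have h1 : MeasurePreserving h.symm volume (Measure.map h.symm volume) := ⟨h.symm.measurable, rfl⟩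
  have : IsProbabilityMeasure (Measure.map h.symm volume) :=
    Measure.isProbabilityMeasure_map h.symm.measurable.aemeasurable
  have h2 : MeasurePreserving ff (Measure.map h.symm volume) (Measure.map h.symm volume) :=
    h1.of_semiconj hmp (fun q => by
      apply h.injective
      rw [hA, h.apply_symm_apply, h.apply_symm_apply]) ff_cont.measurable
  have h3 := h1.quasiMeasurePreserving.ae (ae_notDT _ h2)
  have ho : IsOpen (h.symm ⁻¹' (DT \ {0})) :=
    (DT_open.sdiff isClosed_singleton).preimage h.symm.continuous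
  have hne : (h.symm ⁻¹' (DT \ {0})).Nonempty := by
    refine ⟨h (pp (1/2, 0)), ?_, ?_⟩
    · rw [h.symm_apply_apply, pp_mem_DT]
      refine mem_DD.2 ⟨0, ?_⟩
      rw [lat_zero, sub_zero]
      constructor
      · simp only; rw [abs_of_pos] <;> norm_num
      · simp
    · rw [h.symm_apply_apply, mem_singleton_iff, ← pp_zero]
      intro h0
      have := eq_of_pp h0.symm (norm_E_le (by simp only [sub_zero]; rw [abs_of_pos] <;> norm_num)
        (by simp))
      simp at this
  refine (ho.measure_pos volume hne).ne' (measure_mono_null (fun q hq => ?_) h3)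
  intro hq2
  rcases hq2 with h4 | h4
  · exact h4 hq.1
  · exact hq.2 h4

end Pool.Agent.Lib.MP_4492e9_an
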