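import Pool.Agent.Lib.MP_4492e9_an.Stair

open Set Filter Topology
open scoped ContDiff

noncomputable section
namespace Pool.Agent.Lib.MP_4492e9_an

/-- from `xy` to eigen-coordinates -/
def TT (p : E) : E := (ph * p.1 + p.2, p.1 - ph * p.2)
/-- from eigen-coordinates to `xy` -/
def TI (z : E) : E := (kap * z.1 + del * z.2, del * z.1 - kap * z.2)

theorem TT_TI (z : E) : TT (TI z) = z := by
  have h1 := del_mul; have h2 := ph_sq
  simp only [TT, TI, kap_eq]
  ext
  · simp only; linear_combination z.1 * h1 + z.1 * del * h2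
  · simp only; linear_combination z.2 * h1 + z.2 * del * h2

theorem TI_TT (z : E) : TI (TT z) = z := by
  have h1 := del_mul; have h2 := ph_sq
  simp only [TT, TI, kap_eq]
  ext
  · simp only; linear_combination z.1 * h1 + z.1 * del * h2
  · simp only; linear_combination z.2 * h1 + z.2 * del * h2

def TL : E ≃L[ℝ] E :=
  LinearEquiv.toContinuousLinearEquiv
  { toFun := TT
    invFun := TI
    left_inv := TI_TT
    right_inv := TT_TI
    map_add' := fun a b => by simp only [TT, Prod.fst_add, Prod.snd_add, Prod.mk_add_mk]; congr 1 <;> ring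
    map_smul' := fun c a => by
      simp only [TT, Prod.smul_fst, Prod.smul_snd, smul_eq_mul, RingHom.id_apply, Prod.smul_mk]
      congr 1 <;> ring }

theorem TL_apply (z : E) : TL z = TT z := rfl
theorem TL_symm_apply (z : E) : TL.symm z = TI z := rfl

theorem TT_sub (a b : E) : TT (a - b) = TT a - TT b := TL.map_sub a b
theorem TT_add (a b : E) : TT (a + b) = TT a + TT b := TL.map_add a b
theorem TI_sub (a b : E) : TI (a - b) = TI a - TI b := TL.symm.map_sub a b
theorem TI_add (a b : E) : TI (a + b) = TI a + TI b := TL.symm.map_add a b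
theorem lat_eq (n : ℤ × ℤ) : lat n = TT (n.1, n.2) := rfl
theorem TI_lat (n : ℤ × ℤ) : TI (lat n) = ((n.1 : ℝ), (n.2 : ℝ)) := by rw [lat_eq, TI_TT]

theorem norm_E_le {z : E} {r : ℝ} (h1 : |z.1| ≤ r) (h2 : |z.2| ≤ r) : ‖z‖ ≤ r := by
  rw [Prod.norm_def]; exact max_le h1 h2
theorem abs_fst_le (z : E) : |z.1| ≤ ‖z‖ := norm_fst_le z
theorem abs_snd_le (z : E) : |z.2| ≤ ‖z‖ := norm_snd_le z

theorem TT_norm (p : E) : ‖TT p‖ ≤ 3 * ‖p‖ := by
  have h1 := abs_le.1 (abs_fst_le p); have h2 := abs_le.1 (abs_snd_le p)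
  have := ph_lt; have := ph_pos
  apply norm_E_le <;> simp only [TT] <;> rw [abs_le] <;> constructor <;> nlinarith

theorem TI_norm (p : E) : ‖TI p‖ ≤ ‖p‖ := by
  have h1 := abs_le.1 (abs_fst_le p); have h2 := abs_le.1 (abs_snd_le p)
  have := kap_lt; have := kap_gt; have := del_lt; have := del_gt
  apply norm_E_le <;> simp only [TI] <;> rw [abs_le] <;> constructor <;> nlinarith

theorem exists_lat (z : E) : ∃ n, ‖z - lat n‖ ≤ 3 := by
  refine ⟨(⌊(TI z).1⌋, ⌊(TI z).2⌋), ?_⟩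
  have : z - lat (⌊(TI z).1⌋, ⌊(TI z).2⌋) = TT (Int.fract (TI z).1, Int.fract (TI z).2) := by
    conv_lhs => rw [← TT_TI z]
    rw [lat_eq, ← TT_sub, TT_TI]; rfl
  rw [this]
  refine (TT_norm _).trans ?_
  have : ‖((Int.fract (TI z).1, Int.fract (TI z).2) : E)‖ ≤ 1 :=
    norm_E_le (by simp only [Int.abs_fract]; exact (Int.fract_lt_one _).le)
      (by simp only [Int.abs_fract]; exact (Int.fract_lt_one _).le)
  linarith

theorem per_bdd {X : Type*} [SeminormedAddCommGroup X] {g : E → X} (hg : Continuous g)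
    (hp : ∀ z n, g (z + lat n) = g z) : ∃ C, 0 ≤ C ∧ ∀ z, ‖g z‖ ≤ C := by
  obtain ⟨C, hC⟩ := (isCompact_closedBall (0:E) 3).exists_bound_of_continuousOn hg.continuousOn
  refine ⟨max C 0, le_max_right _ _, fun z => ?_⟩
  obtain ⟨n, hn⟩ := exists_lat z
  have := hC (z - lat n) (by simpa using hn)
  rw [← hp _ n, sub_add_cancel] at this
  exact this.trans (le_max_left _ _)

theorem exists_W : ∃ W : ℝ, 0 ≤ W ∧ ∀ z, |ww z| ≤ W := per_bdd ww_smooth.continuous ww_add

theorem exists_M : ∃ M : ℝ, 1 ≤ M ∧ ∀ z z', |ww z' - ww z| ≤ M * ‖z' - z‖ := by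
  have hd : Differentiable ℝ ww := ww_smooth.differentiable (by simp)
  obtain ⟨C, hC0, hC⟩ := per_bdd (g := fderiv ℝ ww) (ww_smooth.continuous_fderiv (by simp))
    (fun z n => by
      rw [← fderiv_comp_add_right]
      simp only [ww_add])
  refine ⟨C + 1, by linarith, fun z z' => ?_⟩
  have := Convex.norm_image_sub_le_of_norm_fderiv_le (𝕜 := ℝ) (s := univ) (fun x _ => hd x)
    (fun x _ => hC x) convex_univ (mem_univ z) (mem_univ z')
  rw [Real.norm_eq_abs] at this
  nlinarith [norm_nonneg (z' - z)]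

def WW : ℝ := exists_W.choose
theorem WW_nonneg : 0 ≤ WW := exists_W.choose_spec.1
theorem ww_le (z : E) : |ww z| ≤ WW := exists_W.choose_spec.2 z
def MM : ℝ := exists_M.choose
theorem MM_ge : 1 ≤ MM := exists_M.choose_spec.1
theorem ww_lip (z z' : E) : |ww z' - ww z| ≤ MM * ‖z' - z‖ := exists_M.choose_spec.2 z z'

/-- the lift of the DA map, in eigen-coordinates -/
def Fh (z : E) : E := (lam * z.1, z.2 / lam + ww z)

theorem Fh_smooth : ContDiff ℝ ∞ Fh := by
  unfold Fh
  have := ww_smooth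
  fun_prop

theorem Fh_fst (z : E) : (Fh z).1 = lam * z.1 := rfl

theorem Fh_vert (u : ℝ) {s s' : ℝ} (h : s ≤ s') :
    lam' * (s' - s) ≤ (Fh (u, s')).2 - (Fh (u, s)).2 := by
  have := bb_mono u h
  simp only [Fh, ww, lam']
  have e : s' / lam - s / lam = 1 / lam * (s' - s) := by ring
  nlinarith

theorem Fh_hor (u u' s : ℝ) : |(Fh (u', s)).2 - (Fh (u, s)).2| ≤ MM * |u' - u| := by
  have := ww_lip (u, s) (u', s)
  simp only [Prod.mk_sub_mk, sub_self, Prod.norm_mk, norm_zero, Real.norm_eq_abs] at this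
  rw [max_eq_left (abs_nonneg _)] at this
  simpa [Fh] using this

theorem Fh_out {z z' : E} (hz : z ∉ DD) (h : ‖z' - z‖ ≤ 1/20) :
    |(Fh z').2 - (Fh z).2 - lam' * (z'.2 - z.2)| ≤ MM * |z'.1 - z.1| := by
  have h1 : |z'.1 - z.1| ≤ 1/20 := (abs_fst_le (z' - z)).trans h
  have h2 : |z'.2 - z.2| ≤ 1/20 := (abs_snd_le (z' - z)).trans h
  have h3 := bb_const hz h1 h2 (s' := z.2) (by simp)
  have h4 := Fh_hor z.1 z'.1 z.2
  have e : (Fh z').2 - (Fh (z'.1, z.2)).2 = lam' * (z'.2 - z.2) := by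
    simp only [Fh, ww, lam']
    rw [← h3]; ring
  have e2 : (Fh z').2 - (Fh z).2 - lam' * (z'.2 - z.2) = (Fh (z'.1, z.2)).2 - (Fh (z.1, z.2)).2 := by
    rw [← e]; ring
  rw [e2]; exact h4

theorem Fh_anti_snd (z z' : E) :
    lam' * |z'.2 - z.2| ≤ |(Fh z').2 - (Fh z).2| + MM * |z'.1 - z.1| := by
  have h4 := abs_le.1 (Fh_hor z.1 z'.1 z.2)
  have e : Fh (z.1, z.2) = Fh z := rfl
  have e' : Fh (z'.1, z'.2) = Fh z' := rfl
  rw [e] at h4
  rcases le_total z.2 z'.2 with h | h
  · have := Fh_vert z'.1 h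
    rw [e'] at this
    rw [abs_of_nonneg (by linarith)]
    linarith [le_abs_self ((Fh z').2 - (Fh z).2)]
  · have := Fh_vert z'.1 h
    rw [e'] at this
    rw [abs_of_nonpos (by linarith)]
    linarith [neg_abs_le ((Fh z').2 - (Fh z).2)]

/-- common Lipschitz constant -/
def LL : ℝ := 20 * MM + 3
theorem LL_ge : 3 ≤ LL := by unfold LL; linarith [MM_ge]

theorem Fh_lip (z z' : E) : ‖Fh z' - Fh z‖ ≤ LL * ‖z' - z‖ := by
  have h1 := abs_fst_le (z' - z); have h2 := abs_snd_le (z' - z)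
  have h3 := ww_lip z z'
  have hM := MM_ge
  have h0 := norm_nonneg (z' - z)
  simp only [Prod.fst_sub, Prod.snd_sub] at h1 h2
  apply norm_E_le
  · simp only [Fh, Prod.fst_sub, LL]
    rw [← mul_sub, abs_mul, abs_of_pos lam_pos]
    have := lam_lt; have := lam_pos
    nlinarith [abs_nonneg (z'.1 - z.1)]
  · simp only [Fh, Prod.snd_sub, LL]
    have e : z'.2 / lam + ww z' - (z.2 / lam + ww z) = (z'.2 - z.2) / lam + (ww z' - ww z) := by ring
    rw [e]
    refine (abs_add_le _ _).trans ?_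
    have : |(z'.2 - z.2) / lam| ≤ |z'.2 - z.2| := by
      rw [abs_div, abs_of_pos lam_pos]
      exact div_le_self (abs_nonneg _) one_lt_lam.le
    nlinarith

theorem Fh_anti (z z' : E) : ‖z' - z‖ ≤ LL * ‖Fh z' - Fh z‖ := by
  have h1 := abs_fst_le (Fh z' - Fh z); have h2 := abs_snd_le (Fh z' - Fh z)
  have h3 := Fh_anti_snd z z'
  have hM := MM_ge
  have h0 := norm_nonneg (Fh z' - Fh z)
  simp only [Prod.fst_sub, Prod.snd_sub, Fh_fst] at h1 h2
  rw [← mul_sub, abs_mul, abs_of_pos lam_pos] at h1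
  have h5 : |z'.1 - z.1| ≤ ‖Fh z' - Fh z‖ := by
    have := one_lt_lam
    nlinarith [abs_nonneg (z'.1 - z.1)]
  apply norm_E_le
  · simp only [Prod.fst_sub, LL]; nlinarith
  · simp only [Prod.snd_sub, LL]
    have := lam'_gt
    have h6 : MM * |z'.1 - z.1| ≤ MM * ‖Fh z' - Fh z‖ := by gcongr
    nlinarith [abs_nonneg (z'.2 - z.2)]

theorem Fh_bij : Function.Bijective Fh := by
  constructor
  · intro z z' h
    have := Fh_anti z z'
    rw [h, sub_self, norm_zero, mul_zero] at this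
    exact (sub_eq_zero.1 (norm_le_zero_iff.1 this)).symm
  · intro z
    have hc : Continuous fun s : ℝ => (Fh (z.1 / lam, s)).2 := by
      exact continuous_snd.comp (Fh_smooth.continuous.comp (by fun_prop))
    have hs : Function.Surjective fun s : ℝ => (Fh (z.1 / lam, s)).2 := by
      apply hc.surjective
      · apply tendsto_atTop_mono (f := fun s : ℝ => s / lam - WW)
        · intro s; simp only [Fh]; linarith [neg_abs_le (ww (z.1 / lam, s)), ww_le (z.1 / lam, s)]
        · exact tendsto_atTop_add_const_right _ _ (tendsto_id.atTop_div_const lam_pos)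
      · apply tendsto_atBot_mono (f := fun s : ℝ => s / lam + WW)
        · intro s; simp only [Fh]; linarith [le_abs_self (ww (z.1 / lam, s)), ww_le (z.1 / lam, s)]
        · exact tendsto_atBot_add_const_right _ _ (tendsto_id.atBot_div_const lam_pos)
    obtain ⟨s, hs⟩ := hs z.2
    refine ⟨(z.1 / lam, s), Prod.ext ?_ hs⟩
    simp only [Fh]; have := lam_pos; field_simp

def Fe : E ≃ E := Equiv.ofBijective Fh Fh_bij
/-- the inverse -/
def Gh : E → E := Fe.symm
theorem Fh_Gh (z : E) : Fh (Gh z) = z := Fe.apply_symm_apply z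
theorem Gh_Fh (z : E) : Gh (Fh z) = z := Fe.symm_apply_apply z
theorem Gh_fst (z : E) : (Gh z).1 = z.1 / lam := by
  have := congrArg Prod.fst (Fh_Gh z)
  rw [Fh_fst] at this
  rw [← this]; have := lam_pos; field_simp

theorem Gh_lip (z z' : E) : ‖Gh z' - Gh z‖ ≤ LL * ‖z' - z‖ := by
  simpa only [Fh_Gh] using Fh_anti (Gh z) (Gh z')

theorem Gh_cont : Continuous Gh :=
  (LipschitzWith.of_dist_le' (K := LL) fun z z' => by
    simpa only [dist_eq_norm] using Gh_lip z' z).continuous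

theorem dir_lim {X : Type*} [NormedAddCommGroup X] [NormedSpace ℝ X] {g : E → X} {D : E →L[ℝ] X}
    {z : E} (hg : HasFDerivAt g D z) (v : E) :
    Tendsto (fun t : ℝ => t⁻¹ • (g (z + t • v) - g z)) (𝓝[>] 0) (𝓝 (D v)) := by
  have h1 : HasDerivAt (fun t : ℝ => z + t • v) v 0 := by
    simpa using ((hasDerivAt_id (0:ℝ)).smul_const v).const_add z
  have h2 : HasDerivAt (fun t : ℝ => g (z + t • v)) (D v) 0 :=
    HasFDerivAt.comp_hasDerivAt (0:ℝ) (by simpa using hg) h1
  simpa using h2.tendsto_slope_zero_right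

theorem Fh_diff : Differentiable ℝ Fh := Fh_smooth.differentiable (by simp)

theorem DF_anti (z v : E) : ‖v‖ ≤ LL * ‖fderiv ℝ Fh z v‖ := by
  have h := ((dir_lim (Fh_diff z).hasFDerivAt v).norm).const_mul LL
  refine ge_of_tendsto h ?_
  filter_upwards [self_mem_nhdsWithin] with t ht
  have ht : 0 < t := ht
  have := Fh_anti z (z + t • v)
  rw [add_sub_cancel_left, norm_smul, Real.norm_eq_abs, abs_of_pos ht] at this
  rw [norm_smul, Real.norm_eq_abs, abs_of_pos (inv_pos.2 ht), ← mul_assoc, mul_comm LL, mul_assoc,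
    ← div_eq_inv_mul, le_div_iff₀ ht]
  linarith

theorem Gh_smooth : ContDiff ℝ ∞ Gh := by
  let f : E ≃ₜ E := { Fe with continuous_toFun := Fh_smooth.continuous, continuous_invFun := Gh_cont }
  have hinj : ∀ z, Function.Injective ((fderiv ℝ Fh z : E →L[ℝ] E) : E →ₗ[ℝ] E) := by
    intro z
    rw [injective_iff_map_eq_zero]
    intro v hv
    have := DF_anti z v
    rw [show fderiv ℝ Fh z v = 0 from hv, norm_zero, mul_zero] at this
    exact norm_le_zero_iff.1 this
  refine f.contDiff_symm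
    (f₀' := fun z => (LinearEquiv.ofInjectiveEndo _ (hinj z)).toContinuousLinearEquiv) ?_ Fh_smooth
  intro a
  have : ((LinearEquiv.ofInjectiveEndo _ (hinj a)).toContinuousLinearEquiv : E →L[ℝ] E)
      = fderiv ℝ Fh a := by ext <;> rfl
  rw [this]
  exact (Fh_diff a).hasFDerivAt

theorem DF_fst (z v : E) : (fderiv ℝ Fh z v).1 = lam * v.1 := by
  have h := (continuous_fst.tendsto _).comp (dir_lim (Fh_diff z).hasFDerivAt v)
  refine tendsto_nhds_unique h (tendsto_const_nhds.congr' ?_)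
  filter_upwards [self_mem_nhdsWithin] with t ht
  have ht : 0 < t := ht
  simp only [Function.comp, Prod.smul_fst, Prod.fst_sub, Fh_fst, Prod.fst_add, smul_eq_mul]
  field_simp; ring

theorem DF_snd {z : E} (hz : z ∉ DD) (v : E) :
    |(fderiv ℝ Fh z v).2 - lam' * v.2| ≤ MM * |v.1| := by
  have h := (((continuous_snd.tendsto _).comp
    (dir_lim (Fh_diff z).hasFDerivAt v)).sub_const (lam' * v.2)).abs
  refine le_of_tendsto h ?_
  have hsm : ∀ᶠ t : ℝ in 𝓝[>] 0, ‖t • v‖ ≤ 1/20 := by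
    apply Filter.Eventually.filter_mono nhdsWithin_le_nhds
    have : Continuous fun t : ℝ => ‖t • v‖ := by fun_prop
    exact (this.tendsto 0).eventually (ge_mem_nhds (by simp))
  filter_upwards [self_mem_nhdsWithin, hsm] with t ht h1
  have ht : 0 < t := ht
  have := Fh_out hz (z' := z + t • v) (by simpa using h1)
  simp only [Prod.snd_add, Prod.smul_snd, smul_eq_mul, add_sub_cancel_left, Prod.fst_add,
    Prod.smul_fst] at this
  simp only [Function.comp, Prod.smul_snd, Prod.snd_sub, smul_eq_mul]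
  have e : t⁻¹ * ((Fh (z + t • v)).2 - (Fh z).2) - lam' * v.2
      = t⁻¹ * ((Fh (z + t • v)).2 - (Fh z).2 - lam' * (t * v.2)) := by field_simp
  rw [e, abs_mul, abs_of_pos (inv_pos.2 ht), ← div_eq_inv_mul, div_le_iff₀ ht]
  rw [abs_mul, abs_of_pos ht] at this
  linarith

def Am (n : ℤ × ℤ) : ℤ × ℤ := (2 * n.1 + n.2, n.1 + n.2)
def Ai (n : ℤ × ℤ) : ℤ × ℤ := (n.1 - n.2, -n.1 + 2 * n.2)
theorem Am_Ai (n : ℤ × ℤ) : Am (Ai n) = n := by simp only [Am, Ai]; ext <;> simp <;> ring
/-- the linear model -/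
def Ah (z : E) : E := (lam * z.1, z.2 / lam)

theorem lat_Am (n : ℤ × ℤ) : lat (Am n) = Ah (lat n) := by
  have h := ph_sq
  simp only [lat, Am, Ah]
  ext
  · simp only [lam]; push_cast; linear_combination (-(n.1:ℝ)) * h
  · simp only; rw [div_eq_mul_one_div, lam_inv]; push_cast; linear_combination (-(n.2:ℝ)) * h

theorem Ah_add (z z' : E) : Ah (z + z') = Ah z + Ah z' := by
  simp only [Ah, Prod.fst_add, Prod.snd_add, Prod.mk_add_mk]; congr 1 <;> ring

theorem Fh_add (z : E) (n : ℤ × ℤ) : Fh (z + lat n) = Fh z + lat (Am n) := by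
  rw [lat_Am]
  simp only [Fh, ww_add, Ah, Prod.fst_add, Prod.snd_add, Prod.mk_add_mk]
  congr 1 <;> ring

theorem Gh_add (z : E) (n : ℤ × ℤ) : Gh (z + lat n) = Gh z + lat (Ai n) := by
  apply Fh_bij.1
  rw [Fh_Gh, Fh_add, Fh_Gh, Am_Ai]

def D0 : Set E := {z | |z.1| < 3/5 ∧ |z.2| < 1/10}

theorem mem_DD {z : E} : z ∈ DD ↔ ∃ n, z - lat n ∈ D0 := Iff.rfl

theorem D0_open : IsOpen D0 := by
  have h1 : IsOpen {z : E | |z.1| < 3/5} := isOpen_lt (by fun_prop) continuous_const
  have h2 : IsOpen {z : E | |z.2| < 1/10} := isOpen_lt (by fun_prop) continuous_const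
  exact h1.inter h2

theorem DD_open : IsOpen DD := by
  have : DD = ⋃ n, (fun z => z - lat n) ⁻¹' D0 := by ext z; simp [mem_DD]
  rw [this]
  exact isOpen_iUnion fun n => D0_open.preimage (by fun_prop)

theorem DD_add (z : E) (n : ℤ × ℤ) : z + lat n ∈ DD ↔ z ∈ DD := by
  simp only [mem_DD]
  constructor
  · rintro ⟨m, hm⟩; exact ⟨m - n, by rw [lat_sub]; convert hm using 1; abel⟩
  · rintro ⟨m, hm⟩; exact ⟨m + n, by rw [lat_add]; convert hm using 1; abel⟩

theorem Gh_D0 {z : E} (hz : z ∈ D0) :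
    Gh z = (z.1 / lam, (z.2 + kap * (z.1 / lam)) / (lam' + slp)) := by
  apply Fh_bij.1
  rw [Fh_Gh]
  have h1 := abs_lt.1 hz.1; have h2 := abs_lt.1 hz.2
  have l1 := lam_gt; have k1 := kap_gt; have k2 := kap_lt; have m1 := slp_ge
  have l2 := lam'_gt
  have a1 : |z.1 / lam| ≤ 23/100 := by
    rw [abs_le, le_div_iff₀ lam_pos, div_le_iff₀ lam_pos]; constructor <;> linarith
  have a2 : |(z.2 + kap * (z.1 / lam)) / (lam' + slp)| ≤ 1/40 := by
    rw [abs_le] at a1
    rw [abs_le, le_div_iff₀ (by linarith), div_le_iff₀ (by linarith)]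
    constructor <;> nlinarith
  simp only [Fh, ww]
  rw [bb_local (by simp only; linarith) (by simp only; linarith)]
  simp only
  rw [stp_aff a2]
  ext
  · simp only; field_simp
  · simp only
    have : lam' + slp ≠ 0 := by linarith
    have e : ∀ y : ℝ, y / lam + (stp 0 + slp * y - (kap * (z.1 / lam) + del * y) - stp 0)
        = (lam' + slp) * y - kap * (z.1 / lam) := by intro y; simp only [lam']; ring
    rw [e]; field_simp; ring

theorem Gh_D0_sub {z z' : E} (hz : z ∈ D0) (hz' : z' ∈ D0) :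
    ‖Gh z' - Gh z‖ ≤ ‖z' - z‖ / 2 := by
  rw [Gh_D0 hz, Gh_D0 hz']
  have h1 := abs_le.1 (abs_fst_le (z' - z)); have h2 := abs_le.1 (abs_snd_le (z' - z))
  simp only [Prod.fst_sub, Prod.snd_sub] at h1 h2
  have l1 := lam_gt; have k1 := kap_gt; have k2 := kap_lt; have m1 := slp_ge
  have l2 := lam'_gt
  have h0 := norm_nonneg (z' - z)
  have a1 : |(z'.1 - z.1) / lam| ≤ ‖z' - z‖ / 2 := by
    rw [abs_le, le_div_iff₀ lam_pos, div_le_iff₀ lam_pos]; constructor <;> nlinarith
  apply norm_E_le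
  · simp only [Prod.fst_sub]; rw [← sub_div]; exact a1
  · simp only [Prod.snd_sub]
    have e : (z'.2 + kap * (z'.1 / lam)) / (lam' + slp) - (z.2 + kap * (z.1 / lam)) / (lam' + slp)
        = ((z'.2 - z.2) + kap * ((z'.1 - z.1) / lam)) / (lam' + slp) := by ring
    rw [e]
    rw [abs_le] at a1
    rw [abs_le, le_div_iff₀ (by linarith), div_le_iff₀ (by linarith)]
    constructor <;> nlinarith

theorem zero_mem_D0 : (0 : E) ∈ D0 := by constructor <;> simp

theorem Gh_zero : Gh 0 = 0 := by rw [Gh_D0 zero_mem_D0]; simp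

theorem Fh_zero : Fh 0 = 0 := by
  conv_lhs => rw [← Gh_zero]
  exact Fh_Gh 0

theorem Gh_D0_mem {z : E} (hz : z ∈ D0) : Gh z ∈ D0 := by
  rw [Gh_D0 hz]
  have h1 := abs_lt.1 hz.1; have h2 := abs_lt.1 hz.2
  have l1 := lam_gt; have k1 := kap_gt; have k2 := kap_lt; have m1 := slp_ge
  have l2 := lam'_gt
  have a1 : |z.1 / lam| ≤ 23/100 := by
    rw [abs_le, le_div_iff₀ lam_pos, div_le_iff₀ lam_pos]; constructor <;> linarith
  constructor
  · simp only; linarith
  · simp only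
    rw [abs_le] at a1
    rw [abs_lt, lt_div_iff₀ (by linarith), div_lt_iff₀ (by linarith)]
    constructor <;> nlinarith

theorem Gh_DD {z : E} (hz : z ∈ DD) : Gh z ∈ DD := by
  obtain ⟨n, hn⟩ := mem_DD.1 hz
  have : z = (z - lat n) + lat n := by abel
  rw [this, Gh_add, DD_add]
  exact mem_DD.2 ⟨0, by simpa [lat_zero] using Gh_D0_mem hn⟩

theorem Fh_notDD {z : E} (hz : z ∉ DD) : Fh z ∉ DD := fun h => hz (by simpa [Gh_Fh] using Gh_DD h)

end Pool.Agent.Lib.MP_4492e9_an
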