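import Pool.Agent.Lib.MP_4492e9_an.Dim
import Pool.Agent.Lib.MP_4492e9_an.Lyap

open Set Filter Topology MeasureTheory ProbabilityTheory
open scoped ENNReal NNReal MeasureTheory

set_option synthInstance.maxSize 1024

noncomputable section
namespace Pool.Agent.Lib.MP_4492e9_an

theorem null_of_antilip {X Y : Type*} [MetricSpace X] [MetricSpace Y] [MeasurableSpace X]
    [BorelSpace X] [MeasurableSpace Y] [BorelSpace Y] [Nonempty X] {φ : X → Y} {S : Set X} {K : ℝ}
    (h : ∀ a ∈ S, ∀ b ∈ S, dist a b ≤ K * dist (φ a) (φ b)) (h0 : μH[1] (φ '' S) = 0) :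
    μH[1] S = 0 := by
  have hinj : InjOn φ S := fun a ha b hb hab => by
    have := h a ha b hb
    rw [hab, dist_self, mul_zero] at this
    exact dist_le_zero.1 this
  have h1 : LipschitzOnWith (Real.toNNReal K) (Function.invFunOn φ S) (φ '' S) := by
    refine LipschitzOnWith.of_dist_le' ?_
    rintro _ ⟨a, ha, rfl⟩ _ ⟨b, hb, rfl⟩
    rw [hinj.leftInvOn_invFunOn ha, hinj.leftInvOn_invFunOn hb]
    exact h a ha b hb
  have h2 := h1.hausdorffMeasure_image_le zero_le_one
  rw [h0, mul_zero, hinj.invFunOn_image subset_rfl] at h2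
  exact le_antisymm h2 zero_le

theorem tendsto_rate {a : ℝ} (ha : 0 < a) (r : ℝ) :
    Tendsto (fun n : ℕ => r * Real.exp (-a * n)) atTop (𝓝 0) := by
  have := (Real.tendsto_exp_neg_atTop_nhds_zero.comp
    (tendsto_natCast_atTop_atTop.const_mul_atTop ha)).const_mul r
  simpa [Function.comp_def] using this

theorem lift_small {z : E} {y : T2} (h : ∀ n, dist (gg^[n] (pp z)) (gg^[n] y) ≤ d0)
    (ht : Tendsto (fun n => dist (gg^[n] (pp z)) (gg^[n] y)) atTop (𝓝 0)) :
    ∃ z', pp z' = y ∧ ‖z' - z‖ ≤ 3 * dist (pp z) y ∧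
      Tendsto (fun n => Gh^[n] z' - Gh^[n] z) atTop (𝓝 0) := by
  obtain ⟨z', rfl, hz'⟩ := exists_lift z y
  refine ⟨z', rfl, by rwa [dist_comm], ?_⟩
  simp only [gg_iter_pp] at h ht
  rw [tendsto_zero_iff_norm_tendsto_zero]
  refine squeeze_zero (fun _ => norm_nonneg _) (fun n => ?_) (by simpa using ht.const_mul 3)
  rw [dist_comm]
  exact lift_orbit Gh_lip (n := n + 1) (fun i _ => by rw [dist_comm]; exact h i) hz' n (by omega)

theorem lift_globU {z : E} {y : T2} (hy : y ∈ globU gg (pp z)) :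
    ∃ z', pp z' = y ∧ Tendsto (fun n => Gh^[n] z' - Gh^[n] z) atTop (𝓝 0) := by
  obtain ⟨a, r, ha, h⟩ := hy
  have ht : Tendsto (fun n => dist (gg^[n] (pp z)) (gg^[n] y)) atTop (𝓝 0) :=
    squeeze_zero (fun _ => dist_nonneg) h (tendsto_rate ha r)
  obtain ⟨n0, hn0⟩ := eventually_atTop.1 (ht.eventually (ge_mem_nhds d0_pos))
  have e : ∀ n, dist (gg^[n] (pp (Gh^[n0] z))) (gg^[n] (gg^[n0] y))
      = dist (gg^[n + n0] (pp z)) (gg^[n + n0] y) := fun n => by
    rw [← gg_iter_pp, Function.iterate_add_apply, Function.iterate_add_apply]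
  obtain ⟨w, hw, -, hw2⟩ := lift_small (z := Gh^[n0] z) (y := gg^[n0] y)
    (fun n => by rw [e]; exact hn0 _ (by omega))
    (by simp only [e]; exact (tendsto_add_atTop_iff_nat n0).2 ht)
  refine ⟨Fh^[n0] w, by rw [← ff_iter_pp, hw, ff_gg_iter], ?_⟩
  rw [← tendsto_add_atTop_iff_nat n0]
  simpa only [Function.iterate_add_apply, Gh_Fh_iter] using hw2

theorem mem_LA_of {z z' : E} (hz : z ∈ LA)
    (h : Tendsto (fun n => Gh^[n] z' - Gh^[n] z) atTop (𝓝 0)) : z' ∈ LA := by
  intro n hn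
  have h1 : Tendsto (fun m => dist (gg^[m] (pp (Gh^[n] z'))) 0) atTop (𝓝 0) :=
    squeeze_zero (fun _ => dist_nonneg) (gg_iter_DT (pp_mem_DT.2 hn))
      (tendsto_pow_atTop_nhds_zero_of_lt_one (by norm_num) (by norm_num))
  have h2 := (tendsto_zero_iff_norm_tendsto_zero.1 ((tendsto_add_atTop_iff_nat n).2 h)).add h1
  rw [add_zero] at h2
  have h3 : Tendsto (fun m => pp (Gh^[m + n] z)) atTop (𝓝 0) := by
    rw [tendsto_iff_dist_tendsto_zero]
    refine squeeze_zero (fun _ => dist_nonneg) (fun m => ?_) h2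
    rw [gg_iter_pp, ← Function.iterate_add_apply]
    refine (dist_triangle _ (pp (Gh^[m + n] z')) _).trans (add_le_add_left ?_ _)
    rw [dist_comm]; exact pp_dist _ _
  obtain ⟨m, hm⟩ := (h3.eventually (DT_open.mem_nhds zero_mem_DT)).exists
  exact hz _ (pp_mem_DT.1 hm)

theorem globU_null {z : E} (hz : z ∈ LA) {Z : Set ℝ} (hZ : volume Z = 0) :
    μH[1] ({p | (lf p).1 ∈ Z} ∩ globU gg (pp z)) = 0 := by
  let S : (ℤ × ℤ) × ℤ → Set E := fun m =>
    {w | Tendsto (fun n => Gh^[n] w - Gh^[n] z) atTop (𝓝 0) ∧ w.1 + (lat m.1).1 ∈ Z ∧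
      ⌊w.1 / e1⌋ = m.2}
  have h1 : {p | (lf p).1 ∈ Z} ∩ globU gg (pp z) ⊆ ⋃ m, pp '' S m := by
    rintro p ⟨hp1, hp2⟩
    obtain ⟨w, rfl, hw⟩ := lift_globU hp2
    obtain ⟨m, hm⟩ := lf_pp w
    simp only [mem_ofPred_eq, hm] at hp1
    exact mem_iUnion.2 ⟨(m, ⌊w.1 / e1⌋), w, ⟨hw, hp1, rfl⟩, rfl⟩
  refine measure_mono_null h1 (measure_iUnion_null fun m => ?_)
  have h2 : μH[1] (S m) = 0 := by
    refine null_of_antilip (φ := Prod.fst) (K := MM) ?_ ?_
    · intro a ha b hb
      have h3 := graph (mem_LA_of hz hb.1) (z' := a)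
        (floor_close e1_pos (hb.2.2.trans ha.2.2.symm)) (by simpa using ha.1.sub hb.1)
      rw [dist_eq_norm, Real.dist_eq]
      refine norm_E_le ?_ h3
      simp only [Prod.fst_sub]
      nlinarith [MM_ge, abs_nonneg (a.1 - b.1)]
    · rw [hausdorffMeasure_real]
      refine measure_mono_null (t := (fun u => u + (lat m.1).1) ⁻¹' Z) ?_ ?_
      · rintro _ ⟨w, hw, rfl⟩; exact hw.2.1
      · rw [measure_preimage_add_right, hZ]
  have h3 := pp_lip.hausdorffMeasure_image_le zero_le_one (S m)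
  rw [h2, mul_zero] at h3
  exact le_antisymm h3 zero_le

theorem srb_unique {η : Measure T2} [IsProbabilityMeasure η] (hη : MeasurePreserving ff η η)
    (h : IsSRB FX gg η) : η = nu := by
  obtain ⟨-, ξ, ⟨hξ, -⟩, h⟩ := h
  have h1 : ∀ N : Set T2, MeasurableSet N → (∀ᵐ x ∂η, μH[1] (N ∩ globU gg x) = 0) → η N = 0 := by
    intro N hN h2
    have h3 := setLIntegral_preimage_condDistrib (μ := η) hξ aemeasurable_id hN MeasurableSet.univ
    simp only [preimage_univ, Measure.restrict_univ, univ_inter, preimage_id_eq, id] at h3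
    rw [← h3]
    refine lintegral_eq_zero_of_ae_eq_zero ?_
    filter_upwards [h, h2] with x hx hx2
    exact hx (by rwa [Measure.restrict_apply hN])
  have h2 : η {0} = 0 := h1 _ (measurableSet_singleton 0) (Eventually.of_forall fun x => by
    have := Measure.nullSingletonClass_hausdorff T2 one_pos
    exact measure_mono_null inter_subset_left (measure_singleton _))
  have h3 : ∀ᵐ x ∂η, x ∉ DT := by
    filter_upwards [ae_notDT η hη, compl_mem_ae_iff.2 h2] with x hx hx2
    exact hx.resolve_right hx2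
  have h4 : ∀ᵐ x ∂η, ∀ n, gg^[n] x ∉ DT := ae_all_iff.2 fun n =>
    ((gg_mp η hη).iterate n).quasiMeasurePreserving.ae h3
  refine key η hη fun Z hZ hZ0 => h1 _ ((measurable_fst.comp lf_meas) hZ) ?_
  filter_upwards [h4] with x hx
  have := globU_null (z := lf x) (fun n => by
    rw [← pp_mem_DT, ← gg_iter_pp, pp_lf]; exact hx n) hZ0
  rwa [pp_lf] at this

theorem kh_lip {u u' : ℝ} (t : ℝ) (hu : MM * |u' - u| ≤ 1/20) :
    ‖kh (u', t) - kh (u, t)‖ ≤ MM * |u' - u| := by
  refine norm_E_le ?_ (ks_lip t hu)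
  simp only [kh, Prod.fst_sub]
  nlinarith [MM_ge, abs_nonneg (u' - u)]

theorem kh_tendsto (u u' t : ℝ) :
    Tendsto (fun n => Gh^[n] (kh (u', t)) - Gh^[n] (kh (u, t))) atTop (𝓝 0) := by
  rw [tendsto_zero_iff_norm_tendsto_zero]
  have t1 := tendsto_div_lam (MM * |u' - u|)
  refine squeeze_zero' (Eventually.of_forall fun _ => norm_nonneg _) ?_ t1
  filter_upwards [t1.eventually (ge_mem_nhds (show (0:ℝ) < 1/20 by norm_num))] with n hn
  have e : MM * |u' / lam ^ n - u / lam ^ n| = MM * |u' - u| / lam ^ n := by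
    rw [← sub_div, abs_div, abs_of_pos (pow_pos lam_pos n), mul_div_assoc]
  rw [Gh_iter_kh, Gh_iter_kh, ← e]
  exact kh_lip _ (by rwa [e])

theorem kh_locU (u u' t : ℝ) :
    pp (kh (u', t)) ∈ locU gg (pp (kh (u, t))) la (20 * (MM * |u' - u|)) := by
  intro n
  have e : MM * |u' / lam ^ n - u / lam ^ n| = MM * |u' - u| * Real.exp (-la * n) := by
    rw [← sub_div, abs_div, abs_of_pos (pow_pos lam_pos n), lam_pow, neg_mul, Real.exp_neg,
      mul_comm la]
    ring
  rw [mul_assoc, ← e]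
  by_cases h : MM * |u' / lam ^ n - u / lam ^ n| ≤ 1/20
  · rw [gg_iter_pp, gg_iter_pp, Gh_iter_kh, Gh_iter_kh, dist_comm]
    refine (pp_dist _ _).trans ((kh_lip _ h).trans ?_)
    have := MM_ge
    have : 0 ≤ MM * |u' / lam ^ n - u / lam ^ n| := by positivity
    linarith
  · linarith [dist_le_one (gg^[n] (pp (kh (u, t)))) (gg^[n] (pp (kh (u', t))))]

theorem kh_globU (u u' t : ℝ) : pp (kh (u', t)) ∈ globU gg (pp (kh (u, t))) :=
  ⟨_, _, la_pos, kh_locU u u' t⟩

def Psi (p : T2) : T2 := (p.1, p.2 + ((val p.1 / ph : ℝ) : T1))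
def tau (p : T2) : T1 := p.2 - ((val p.1 / ph : ℝ) : T1)
def bt : ℝ := ph + 1 / ph

theorem bt_bounds : 1 ≤ bt ∧ bt ≤ 3 := by
  have h1 := ph_gt; have h2 := ph_lt
  have h3 : 0 < 1 / ph := by have := ph_pos; positivity
  have h4 : 1 / ph ≤ 1 := (div_le_one ph_pos).2 (by linarith)
  unfold bt; constructor <;> linarith

theorem tau_Psi (p : T2) : tau (Psi p) = p.2 := by simp [tau, Psi]
theorem Psi_tau (p : T2) : Psi (p.1, tau p) = p := by simp [tau, Psi]

theorem sh_meas : Measurable fun x : T1 => ((val x / ph : ℝ) : T1) :=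
  AddCircle.measurable_mk'.comp (val_meas.div_const ph)

theorem tau_meas : Measurable tau := measurable_snd.sub (sh_meas.comp measurable_fst)

theorem Psi_mp : MeasurePreserving Psi ((volume : Measure T1).prod volume) volume :=
  (MeasurePreserving.id volume).skew_product (g := fun x t => t + ((val x / ph : ℝ) : T1))
    (measurable_snd.add (sh_meas.comp measurable_fst))
    (ae_of_all _ fun _ => map_add_right_eq_self volume _)

theorem Psi_eq {r : ℝ} (hr : r ∈ Ioc (0:ℝ) 1) (t : ℝ) :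
    Psi ((r : T1), (t : T1)) = pp (bt * r + t, -ph * t) := by
  have : ((bt * r + t, -ph * t) : E) = TL (r, t + r / ph) := by
    have := ph_pos
    simp only [TL_apply, TT, bt]
    congr 1
    · ring
    · field_simp; ring
  rw [this, ← proj_eq]
  simp only [Psi, proj, val_coe hr, AddCircle.coe_add]

def Phi (p : T2) : T2 := kT (Psi p)
theorem Phi_mp : MeasurePreserving Phi ((volume : Measure T1).prod volume) nu := kT_mp.comp Psi_mp
theorem Phi_eq {r : ℝ} (hr : r ∈ Ioc (0:ℝ) 1) (t : ℝ) :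
    Phi ((r : T1), (t : T1)) = pp (kh (bt * r + t, -ph * t)) := by rw [Phi, Psi_eq hr, kT_pp]

open Classical in
def xi (y : T2) : ℝ := if kT (hT y) = y then val (tau (hT y)) else -1

theorem good_meas : MeasurableSet {y | kT (hT y) = y} :=
  measurableSet_eq_fun (kT_meas.comp hT_cont.measurable) measurable_id

theorem xi_meas : Measurable xi :=
  Measurable.ite good_meas (val_meas.comp (tau_meas.comp hT_cont.measurable)) measurable_const

theorem xi_Phi (p : T2) : xi (Phi p) = val p.2 := by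
  simp only [xi, Phi, hT_kT, if_true, tau_Psi]

theorem eq_Phi {y : T2} {t : T1} (h : xi y = val t) : y = Phi ((hT y).1, t) := by
  unfold xi at h
  split_ifs at h with h1
  · rw [← coe_val t, ← h, coe_val, Phi, Psi_tau, h1]
  · linarith [(val_mem t).1]

def kk : Kernel ℝ T2 :=
  (Kernel.id ×ₖ Kernel.const ℝ (volume : Measure T1)).map fun p : ℝ × T1 => Phi (p.2, (p.1 : T1))

theorem kk_fun_meas : Measurable fun p : ℝ × T1 => Phi (p.2, (p.1 : T1)) :=
  Phi_mp.measurable.comp (measurable_snd.prodMk (AddCircle.measurable_mk'.comp measurable_fst))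

instance : IsMarkovKernel kk := Kernel.IsMarkovKernel.map _ kk_fun_meas

theorem kk_apply (c : ℝ) {S : Set T2} (hS : MeasurableSet S) :
    kk c S = volume {x : T1 | Phi (x, (c : T1)) ∈ S} := by
  rw [kk, Kernel.map_apply' _ kk_fun_meas _ hS, Kernel.id_prod_apply' _ _ (kk_fun_meas hS)]
  rfl

theorem kk_ac {r0 : ℝ} (hr0 : r0 ∈ Ioc (0:ℝ) 1) (t : ℝ) :
    kk t ≪ (μH[1] : Measure T2).restrict (globU gg (Phi ((r0 : T1), (t : T1)))) := by
  refine Measure.AbsolutelyContinuous.mk fun S hS h0 => ?_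
  rw [Measure.restrict_apply hS] at h0
  rw [kk_apply _ hS]
  let B : ℤ → Set ℝ := fun i =>
    {r | r ∈ Ioc (0:ℝ) 1 ∧ Phi ((r : T1), (t : T1)) ∈ S ∧ ⌊r / (e1 / 3)⌋ = i}
  have h1 : ∀ i, volume (B i) = 0 := by
    intro i
    rw [← hausdorffMeasure_real]
    refine null_of_antilip (φ := fun r : ℝ => Phi ((r : T1), (t : T1))) (K := 3) ?_
      (measure_mono_null ?_ h0)
    · intro a ha b hb
      have h2 := floor_close (show 0 < e1 / 3 by linarith [e1_pos]) (hb.2.2.trans ha.2.2.symm)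
      have h3 : |bt * a + t - (bt * b + t)| = bt * |a - b| := by
        rw [add_sub_add_right_eq_sub, ← mul_sub, abs_mul, abs_of_pos (by linarith [bt_bounds.1])]
      have hb1 := bt_bounds.1; have hb2 := bt_bounds.2
      have h4 : MM * |bt * a + t - (bt * b + t)| ≤ 1/20 := by
        have : bt * |a - b| ≤ e1 := by nlinarith [abs_nonneg (a - b)]
        rw [h3]
        nlinarith [e1_mul, e1_pos, MM_ge]
      have h5 := pp_anti ((kh_lip (-ph * t) h4).trans (h4.trans (by norm_num)))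
      have h6 := (abs_fst_le _).trans h5
      simp only [kh, Prod.fst_sub] at h6
      rw [h3] at h6
      simp only [Phi_eq ha.1, Phi_eq hb.1, Real.dist_eq]
      refine le_trans ?_ h6
      nlinarith [abs_nonneg (a - b)]
    · rintro _ ⟨r, hr, rfl⟩
      refine ⟨hr.2.1, ?_⟩
      simp only [Phi_eq hr.1, Phi_eq hr0]
      exact kh_globU _ _ _
  have h2 : (volume.restrict (Ioc (0:ℝ) 1)) (⋃ i, B i) = 0 :=
    le_antisymm ((Measure.restrict_apply_le _ _).trans (measure_iUnion_null h1).le) zero_le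
  refine measure_mono_null ?_ (val_mp.quasiMeasurePreserving.preimage_null h2)
  intro x hx
  exact mem_iUnion.2 ⟨_, val_mem x, by rwa [coe_val], rfl⟩

theorem loc_subset {r0 : ℝ} (hr0 : r0 ∈ Ioo (0:ℝ) 1) (t : T1) {a : ℝ} (ha : 0 < a) :
    ∃ r : ℝ, 0 < r ∧ locU gg (Phi ((r0 : T1), t)) a r ⊆ {y | xi y = xi (Phi ((r0 : T1), t))} := by
  have h0 : 0 < min d0 (min (r0 / 4) ((1 - r0) / 4)) :=
    lt_min d0_pos (lt_min (by linarith [hr0.1]) (by linarith [hr0.2]))
  refine ⟨_, h0, fun y hy => ?_⟩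
  set r := min d0 (min (r0 / 4) ((1 - r0) / 4))
  have r1 : r ≤ d0 := min_le_left _ _
  have r2 : r ≤ r0 / 4 := (min_le_right _ _).trans (min_le_left _ _)
  have r3 : r ≤ (1 - r0) / 4 := (min_le_right _ _).trans (min_le_right _ _)
  rw [← coe_val t, Phi_eq (Ioo_subset_Ioc_self hr0)] at hy
  have hle : ∀ n, dist (gg^[n] (pp (kh (bt * r0 + val t, -ph * val t)))) (gg^[n] y) ≤ r := by
    intro n
    refine (hy n).trans (mul_le_of_le_one_right h0.le (Real.exp_le_one_iff.2 ?_))
    nlinarith [Nat.cast_nonneg (α := ℝ) n]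
  obtain ⟨w, rfl, hw1, hw2⟩ := lift_small (fun n => (hle n).trans r1)
    (squeeze_zero (fun _ => dist_nonneg) hy (tendsto_rate ha r))
  have h1 : hs w = -ph * val t := by
    obtain ⟨C, hC⟩ := isBounded_iff_forall_norm_le.1 (Metric.isBounded_range_of_tendsto _ hw2)
    have h2 := fun n => abs_le.1 ((abs_snd_le _).trans (hC _ (mem_range_self n)))
    simp only [Prod.snd_sub] at h2
    have h3 : hs w = hs (kh (bt * r0 + val t, -ph * val t)) :=
      le_antisymm (hs_le_of (C := C) fun n => by linarith [(h2 n).2])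
      (hs_le_of (C := C) fun n => by linarith [(h2 n).1])
    rwa [hs_kh] at h3
  have h2 : w = kh (w.1, -ph * val t) := by
    have := graph (kh_mem_LA (w.1, -ph * val t)) (z' := w) (by simpa [kh] using e1_pos.le)
      (by simpa using hw2.sub (kh_tendsto (bt * r0 + val t) w.1 (-ph * val t)))
    refine Prod.ext rfl ?_
    simpa [kh, sub_eq_zero] using this
  have h3 : |w.1 - (bt * r0 + val t)| ≤ 3 * r := by
    have := hle 0
    simp only [Function.iterate_zero, id] at this
    exact ((abs_fst_le _).trans hw1).trans (by linarith)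
  have hb := bt_bounds.1
  have h4 : |(w.1 - (bt * r0 + val t)) / bt| ≤ 3 * r := by
    rw [abs_div, abs_of_pos (show 0 < bt by linarith)]
    exact (div_le_self (abs_nonneg _) hb).trans h3
  rw [abs_le] at h4
  have h5 := Phi_eq (r := r0 + (w.1 - (bt * r0 + val t)) / bt) ⟨by linarith, by linarith⟩ (val t)
  rw [show bt * (r0 + (w.1 - (bt * r0 + val t)) / bt) + val t = w.1 by field_simp; ring, ← h2,
    coe_val] at h5
  simp only [mem_ofPred_eq]
  rw [← h5, xi_Phi, xi_Phi]

theorem subord_xi : Subord gg nu xi := by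
  refine ⟨xi_meas, ?_⟩
  have hG : MeasurableSet {y | kT (hT y) = y ∧ val (hT y).1 ≠ 1} :=
    good_meas.inter ((val_meas.comp (measurable_fst.comp hT_cont.measurable))
      (measurableSet_singleton 1)).compl
  have h1 : ∀ᵐ y ∂nu, kT (hT y) = y ∧ val (hT y).1 ≠ 1 := by
    rw [nu, ae_map_iff kT_meas.aemeasurable hG]
    have h2 : ∀ᵐ p ∂((volume : Measure T1).prod (volume : Measure T1)), val p.1 ≠ 1 :=
      (val_mp.comp measurePreserving_fst).quasiMeasurePreserving.ae
        (ae_restrict_of_ae (Measure.ae_ne volume 1))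
    filter_upwards [h2] with p hp
    rw [hT_kT]; exact ⟨rfl, hp⟩
  filter_upwards [h1] with x hx
  have hr : val (hT x).1 ∈ Ioo (0:ℝ) 1 := ⟨(val_mem _).1, lt_of_le_of_ne (val_mem _).2 hx.2⟩
  have e : x = Phi (((val (hT x).1 : ℝ) : T1), tau (hT x)) := by
    rw [coe_val, Phi, Psi_tau, hx.1]
  generalize val (hT x).1 = r0 at hr e
  generalize tau (hT x) = t at e
  subst e
  refine ⟨fun y hy => ?_, fun a ha => loc_subset hr t ha⟩
  simp only [mem_ofPred_eq, xi_Phi] at hy
  rw [eq_Phi hy, ← coe_val t, ← coe_val (hT y).1, Phi_eq (val_mem _),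
    Phi_eq (Ioo_subset_Ioc_self hr)]
  exact kh_globU _ _ _

theorem globU_trans {g : T2 → T2} {x y : T2} (h : y ∈ globU g x) : globU g y ⊆ globU g x := by
  rintro z ⟨a', r', ha', h'⟩
  obtain ⟨a, r, ha, h⟩ := h
  have hr : 0 ≤ r := by simpa using dist_nonneg.trans (h 0)
  have hr' : 0 ≤ r' := by simpa using dist_nonneg.trans (h' 0)
  refine ⟨min a a', r + r', lt_min ha ha', fun n => ?_⟩
  refine (dist_triangle _ (g^[n] y) _).trans ?_
  rw [add_mul]
  have hn := Nat.cast_nonneg (α := ℝ) n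
  refine add_le_add ((h n).trans ?_) ((h' n).trans ?_)
  · exact mul_le_mul_of_nonneg_left (Real.exp_le_exp.2 (by nlinarith [min_le_left a a'])) hr
  · exact mul_le_mul_of_nonneg_left (Real.exp_le_exp.2 (by nlinarith [min_le_right a a'])) hr'

theorem loc_pos (x t : T1) {ρ : ℝ} (hρ : 0 < ρ) :
    volume {x' : T1 | Phi (x', t) ∈ locU gg (Phi (x, t)) la ρ} ≠ 0 := by
  have hM := MM_ge
  have h0 : 0 < min (val x) (ρ / (60 * MM)) := lt_min (val_mem x).1 (by positivity)
  set ε := min (val x) (ρ / (60 * MM))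
  have h1 : ε ≤ val x := min_le_left _ _
  have h2 : ε * (60 * MM) ≤ ρ := (le_div_iff₀ (by positivity)).1 (min_le_right _ _)
  have h3 : val ⁻¹' Ioc (val x - ε) (val x) ⊆
      {x' : T1 | Phi (x', t) ∈ locU gg (Phi (x, t)) la ρ} := by
    intro x' hx' n
    rw [← coe_val t, ← coe_val x', ← coe_val x, Phi_eq (val_mem _), Phi_eq (val_mem _)]
    refine (kh_locU _ _ _ n).trans (mul_le_mul_of_nonneg_right ?_ (Real.exp_pos _).le)
    have hb1 := bt_bounds.1; have hb2 := bt_bounds.2
    rw [add_sub_add_right_eq_sub, ← mul_sub, abs_mul, abs_of_pos (by linarith),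
      abs_of_nonpos (by linarith [hx'.2])]
    have h4 : bt * -(val x' - val x) ≤ 3 * ε := by nlinarith [hx'.1, hx'.2]
    nlinarith
  intro h4
  have h5 := measure_mono_null h3 h4
  rw [val_mp.measure_preimage measurableSet_Ioc.nullMeasurableSet,
    Measure.restrict_apply measurableSet_Ioc,
    inter_eq_left.2 (Ioc_subset_Ioc (by linarith) (val_mem x).2), Real.volume_Ioc,
    ENNReal.ofReal_eq_zero] at h5
  linarith

theorem absCont_nu {ξ : T2 → ℝ} (h : Subord gg nu ξ) : AbsCont gg nu ξ := by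
  obtain ⟨hξ, h⟩ := h
  have hc : nu.map ξ ⊗ₘ condDistrib id ξ nu = nu.map fun y => (ξ y, id y) :=
    compProd_map_condDistrib aemeasurable_id
  have hm : Measurable fun y => (ξ y, id y) := hξ.prodMk measurable_id
  let L : Kernel T2 T2 := kk.comap xi xi_meas
  have swap : ∀ {p : T2 → Prop}, (∀ᵐ y ∂nu, p y) →
      ∀ᵐ t ∂(volume : Measure T1), ∀ᵐ x ∂(volume : Measure T1), p (Phi (x, t)) := fun hp =>
    Measure.ae_ae_of_ae_prod
      ((Phi_mp.comp Measure.measurePreserving_swap).quasiMeasurePreserving.ae hp)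
  have claim1 : nu.map ξ ⊗ₘ condDistrib id ξ nu ≪ nu.map ξ ⊗ₘ (L ∘ₖ condDistrib id ξ nu) := by
    refine Measure.AbsolutelyContinuous.mk fun S hS h0 => ?_
    have hf : Measurable fun p : ℝ × T2 => L p.2 (Prod.mk p.1 ⁻¹' S) :=
      Kernel.measurable_kernel_prodMk_left (κ := L.comap Prod.snd measurable_snd)
        (t := (fun q : (ℝ × T2) × T2 => (q.1.1, q.2)) ⁻¹' S)
        ((measurable_fst.fst.prodMk measurable_snd) hS)
    rw [Measure.compProd_apply hS] at h0
    simp only [Kernel.comp_apply' _ _ _ (measurable_prodMk_left hS)] at h0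
    rw [← Measure.lintegral_compProd hf, hc, lintegral_map hf hm] at h0
    replace h0 := (lintegral_eq_zero_iff (hf.comp hm)).1 h0
    have hm2 := Phi_mp.measurable (hm hS)
    rw [hc, Measure.map_apply hm hS, ← Phi_mp.measure_preimage (hm hS).nullMeasurableSet,
      Measure.prod_apply_symm hm2]
    refine lintegral_eq_zero_of_ae_eq_zero ?_
    filter_upwards [swap h0, swap h] with t h1 h2
    have hPt : Measurable fun x : T1 => Phi (x, t) := Phi_mp.measurable.comp measurable_prodMk_right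
    have h3 : ∀ᵐ x ∂(volume : Measure T1), ∀ᵐ x' ∂(volume : Measure T1),
        (ξ (Phi (x, t)), Phi (x', t)) ∉ S := by
      filter_upwards [h1] with x hx
      simp only [L, Function.comp, Kernel.comap_apply, id, xi_Phi, Pi.zero_apply] at hx
      rw [kk_apply _ (measurable_prodMk_left hS), coe_val] at hx
      exact measure_eq_zero_iff_ae_notMem.1 hx
    rw [Measure.ae_ae_comm (((hξ.comp (hPt.comp measurable_fst)).prodMk
      (hPt.comp measurable_snd)) hS).compl] at h3
    simp only [Pi.zero_apply]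
    rw [measure_eq_zero_iff_ae_notMem]
    filter_upwards [h2, h3] with x' h4 h5
    obtain ⟨ρ, hρ, h6⟩ := h4.2 la la_pos
    obtain ⟨x, h7, h8⟩ := ((frequently_ae_iff.2 (loc_pos x' t hρ)).and_eventually h5).exists
    rw [show ξ (Phi (x, t)) = ξ (Phi (x', t)) from h6 h7] at h8
    exact h8
  have claim2 : ∀ᵐ c ∂(nu.map ξ), ∀ᵐ y ∂(condDistrib id ξ nu c), ξ y = c ∧ kT (hT y) = y := by
    refine Measure.ae_ae_of_ae_compProd (p := fun p => ξ p.2 = p.1 ∧ kT (hT p.2) = p.2) ?_
    have hms : MeasurableSet {p : ℝ × T2 | ξ p.2 = p.1 ∧ kT (hT p.2) = p.2} :=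
      (measurableSet_eq_fun (hξ.comp measurable_snd) measurable_fst).inter
        (measurable_snd good_meas)
    rw [hc, ae_map_iff hm.aemeasurable hms]
    have h1 : ∀ᵐ y ∂nu, kT (hT y) = y := by
      rw [nu, ae_map_iff kT_meas.aemeasurable good_meas]
      exact Eventually.of_forall fun p => by rw [hT_kT]
    filter_upwards [h1] with y hy using ⟨rfl, hy⟩
  filter_upwards [h, ae_of_ae_map hξ.aemeasurable claim1.kernel_of_compProd,
    ae_of_ae_map hξ.aemeasurable claim2] with x h1 h2 h3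
  refine h2.trans (Measure.AbsolutelyContinuous.mk fun S hS h0 => ?_)
  rw [Measure.restrict_apply hS] at h0
  rw [Kernel.comp_apply' _ _ _ hS]
  refine lintegral_eq_zero_of_ae_eq_zero ?_
  filter_upwards [h3] with y hy
  have e : y = Phi (((val (hT y).1 : ℝ) : T1), ((val (tau (hT y)) : ℝ) : T1)) := by
    rw [coe_val, coe_val, Phi, Psi_tau, hy.2]
  have h4 := kk_ac (val_mem (hT y).1) (val (tau (hT y)))
  rw [← e] at h4
  have e2 : xi y = val (tau (hT y)) := by simp only [xi, hy.2, if_true]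
  simp only [L, Kernel.comap_apply, e2, Pi.zero_apply]
  apply h4
  rw [Measure.restrict_apply hS]
  exact measure_mono_null (inter_subset_inter_right _ (globU_trans (h1.1 hy.1))) h0

theorem srb_nu : IsSRB FX gg nu := by
  refine ⟨?_, xi, subord_xi, absCont_nu subord_xi⟩
  filter_upwards [nu_notDT] with x hx
  exact ⟨_, la_pos, exp_pos hx⟩

end Pool.Agent.Lib.MP_4492e9_an
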