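import Pool.Agent.Lib.MP_4492e9_an.Map

open Set Filter Topology

noncomputable section
namespace Pool.Agent.Lib.MP_4492e9_an

theorem lam_inv_lt : 1 / lam < 1/2 := by rw [lam_inv]; linarith [ph_gt]
theorem lam_inv_pos : 0 < 1 / lam := by have := lam_pos; positivity

def psi (z : E) : ℝ := -∑' k : ℕ, (1 / lam) ^ k * ww (Gh^[k+1] z)

theorem psi_term_le (k : ℕ) (z : E) : ‖(1 / lam) ^ k * ww (Gh^[k+1] z)‖ ≤ WW * (1/2) ^ k := by
  rw [norm_mul, Real.norm_eq_abs, Real.norm_eq_abs, abs_of_pos (pow_pos lam_inv_pos k), mul_comm]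
  exact mul_le_mul (ww_le _) (pow_le_pow_left₀ lam_inv_pos.le lam_inv_lt.le k)
    (pow_pos lam_inv_pos k).le WW_nonneg

theorem half_summable : Summable fun k : ℕ => WW * (1/2:ℝ) ^ k :=
  summable_geometric_two.mul_left _

theorem psi_le (z : E) : |psi z| ≤ 2 * WW := by
  rw [psi, abs_neg, ← Real.norm_eq_abs]
  refine tsum_of_norm_bounded (g := fun k : ℕ => WW * (1/2:ℝ) ^ k) ?_ (fun k => psi_term_le k z)
  rw [mul_comm]
  exact hasSum_geometric_two.mul_left _

theorem psi_cont : Continuous psi := by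
  apply Continuous.neg
  refine continuous_tsum (fun k => ?_) half_summable (fun k z => psi_term_le k z)
  exact continuous_const.mul (ww_smooth.continuous.comp (Gh_cont.iterate _))

theorem Gh_iter_add (k : ℕ) (z : E) (n : ℤ × ℤ) :
    Gh^[k] (z + lat n) = Gh^[k] z + lat (Ai^[k] n) := by
  induction k with
  | zero => rfl
  | succ k ih => simp only [Function.iterate_succ_apply', ih, Gh_add]

theorem Fh_iter_add (k : ℕ) (z : E) (n : ℤ × ℤ) :
    Fh^[k] (z + lat n) = Fh^[k] z + lat (Am^[k] n) := by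
  induction k with
  | zero => rfl
  | succ k ih => simp only [Function.iterate_succ_apply', ih, Fh_add]

theorem psi_add (z : E) (n : ℤ × ℤ) : psi (z + lat n) = psi z := by
  simp only [psi, Gh_iter_add, ww_add]

theorem psi_Fh (z : E) : psi (Fh z) = psi z / lam - ww z := by
  have hs : ∀ z, Summable fun k : ℕ => (1 / lam) ^ k * ww (Gh^[k+1] z) := fun z =>
    Summable.of_norm_bounded half_summable (fun k => psi_term_le k z)
  simp only [psi]
  rw [(hs (Fh z)).tsum_eq_zero_add]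
  have : ∀ k : ℕ, (1 / lam) ^ (k + 1) * ww (Gh^[k + 1 + 1] (Fh z))
      = (1 / lam) * ((1 / lam) ^ k * ww (Gh^[k+1] z)) := by
    intro k
    rw [Function.iterate_succ_apply, Gh_Fh]; ring
  simp only [this, tsum_mul_left]
  simp only [pow_zero, zero_add, Function.iterate_one, Gh_Fh]
  ring

/-- stable coordinate of the semiconjugacy -/
def hs (z : E) : ℝ := z.2 + psi z

theorem hs_cont : Continuous hs := continuous_snd.add psi_cont
theorem hs_add (z : E) (n : ℤ × ℤ) : hs (z + lat n) = hs z + (lat n).2 := by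
  simp only [hs, psi_add, Prod.snd_add]; ring
theorem hs_Fh (z : E) : hs (Fh z) = hs z / lam := by
  simp only [hs, psi_Fh]; simp only [Fh]; ring
theorem hs_Gh (z : E) : hs (Gh z) = lam * hs z := by
  have := hs_Fh (Gh z)
  rw [Fh_Gh] at this
  rw [this]; have := lam_pos; field_simp
theorem hs_Gh_iter (n : ℕ) (z : E) : hs (Gh^[n] z) = lam ^ n * hs z := by
  induction n with
  | zero => simp
  | succ n ih => rw [Function.iterate_succ_apply', hs_Gh, ih]; ring
theorem hs_sub_le (z : E) : |hs z - z.2| ≤ 2 * WW := by simpa [hs] using psi_le z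

theorem Gh_iter_fst (n : ℕ) (z : E) : (Gh^[n] z).1 = z.1 / lam ^ n := by
  induction n with
  | zero => simp
  | succ n ih => rw [Function.iterate_succ_apply', Gh_fst, ih, div_div, pow_succ]
theorem Fh_iter_fst (n : ℕ) (z : E) : (Fh^[n] z).1 = lam ^ n * z.1 := by
  induction n with
  | zero => simp
  | succ n ih => rw [Function.iterate_succ_apply', Fh_fst, ih]; ring
theorem Fh_Gh_iter (n : ℕ) (z : E) : Fh^[n] (Gh^[n] z) = z :=
  (Function.LeftInverse.iterate Fh_Gh n) z
theorem Gh_Fh_iter (n : ℕ) (z : E) : Gh^[n] (Fh^[n] z) = z :=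
  (Function.LeftInverse.iterate Gh_Fh n) z

theorem hs_le_of {z z' : E} {C : ℝ} (h : ∀ n, (Gh^[n] z).2 ≤ (Gh^[n] z').2 + C) :
    hs z ≤ hs z' := by
  by_contra hc
  rw [not_le] at hc
  have ht : Tendsto (fun n : ℕ => lam ^ n * (hs z - hs z')) atTop atTop :=
    (tendsto_pow_atTop_atTop_of_one_lt one_lt_lam).atTop_mul_const (by linarith)
  obtain ⟨n, hn⟩ := (ht.eventually_gt_atTop (C + 4 * WW)).exists
  have h1 := abs_le.1 (hs_sub_le (Gh^[n] z))
  have h2 := abs_le.1 (hs_sub_le (Gh^[n] z'))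
  rw [hs_Gh_iter] at h1 h2
  have := h n
  nlinarith

theorem Fh_le_iff {z z' : E} (h : z.1 = z'.1) : (Fh z).2 ≤ (Fh z').2 ↔ z.2 ≤ z'.2 := by
  obtain ⟨u, s⟩ := z
  obtain ⟨u', s'⟩ := z'
  simp only at h
  subst h
  have := lam'_pos
  constructor
  · intro h
    by_contra hc
    rw [not_le] at hc
    have := Fh_vert u hc.le
    simp only at hc
    nlinarith
  · intro h
    have := Fh_vert u h
    simp only at h
    nlinarith

theorem Gh_le {z z' : E} (h : z.1 = z'.1) (h2 : z.2 ≤ z'.2) : (Gh z).2 ≤ (Gh z').2 := by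
  rw [← Fh_le_iff (by rw [Gh_fst, Gh_fst, h]), Fh_Gh, Fh_Gh]; exact h2

theorem hs_mono (u : ℝ) {s s' : ℝ} (h : s ≤ s') : hs (u, s) ≤ hs (u, s') := by
  apply hs_le_of (C := 0)
  intro n
  rw [add_zero]
  induction n with
  | zero => exact h
  | succ n ih =>
    rw [Function.iterate_succ_apply', Function.iterate_succ_apply']
    exact Gh_le (by simp only [Gh_iter_fst]) ih

/-- stable coordinate of the section -/
def ks (p : E) : ℝ := sInf {s | p.2 ≤ hs (p.1, s)}

theorem ks_le_iff (p : E) (s : ℝ) : ks p ≤ s ↔ p.2 ≤ hs (p.1, s) := by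
  have hb : BddBelow {s | p.2 ≤ hs (p.1, s)} := by
    refine ⟨p.2 - 2 * WW, fun s hs' => ?_⟩
    have := abs_le.1 (hs_sub_le (p.1, s))
    simp only [mem_ofPred_eq] at hs' this
    linarith
  constructor
  · intro h
    have hc : IsClosed {s | p.2 ≤ hs (p.1, s)} :=
      isClosed_le continuous_const (hs_cont.comp (by fun_prop))
    have hn : {s | p.2 ≤ hs (p.1, s)}.Nonempty := by
      refine ⟨p.2 + 2 * WW, ?_⟩
      have := abs_le.1 (hs_sub_le (p.1, p.2 + 2 * WW))
      simp only [mem_ofPred_eq] at this ⊢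
      linarith
    exact le_trans (hc.csInf_mem hn hb) (hs_mono _ h)
  · intro h
    exact csInf_le hb h

/-- the section -/
def kh (p : E) : E := (p.1, ks p)
/-- the semiconjugacy -/
def hh (z : E) : E := (z.1, hs z)

theorem hh_cont : Continuous hh := continuous_fst.prodMk hs_cont

theorem hs_kh (p : E) : hs (kh p) = p.2 := by
  apply le_antisymm _ ((ks_le_iff p _).1 le_rfl)
  have hc : Continuous fun s => hs (p.1, s) := hs_cont.comp (by fun_prop)
  have ht : Tendsto (fun s => hs (p.1, s)) (𝓝[<] (ks p)) (𝓝 (hs (kh p))) :=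
    (hc.tendsto _).mono_left nhdsWithin_le_nhds
  refine le_of_tendsto ht ?_
  filter_upwards [self_mem_nhdsWithin] with s hs'
  by_contra hc
  have := (ks_le_iff p s).2 (not_le.1 hc).le
  exact absurd hs' (not_lt.2 this)

theorem hh_kh (p : E) : hh (kh p) = p := Prod.ext rfl (hs_kh p)

theorem ks_meas : Measurable ks := by
  apply measurable_of_Iic
  intro r
  have : ks ⁻¹' Iic r = {p : E | p.2 ≤ hs (p.1, r)} := by ext p; exact ks_le_iff p r
  rw [this]
  exact (isClosed_le continuous_snd (hs_cont.comp (by fun_prop))).measurableSet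

theorem kh_meas : Measurable kh := measurable_fst.prodMk ks_meas

theorem hh_add (z : E) (n : ℤ × ℤ) : hh (z + lat n) = hh z + lat n :=
  Prod.ext rfl (hs_add z n)

theorem hh_Fh (z : E) : hh (Fh z) = Ah (hh z) := Prod.ext rfl (hs_Fh z)

theorem kh_add (p : E) (n : ℤ × ℤ) : kh (p + lat n) = kh p + lat n := by
  refine Prod.ext rfl ?_
  show ks (p + lat n) = ks p + (lat n).2
  apply eq_of_forall_ge_iff
  intro s
  rw [ks_le_iff, ← le_sub_iff_add_le, ks_le_iff]
  have : (((p + lat n).1, s) : E) = (p.1, s - (lat n).2) + lat n := by ext <;> simp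
  rw [this, hs_add, Prod.snd_add, add_le_add_iff_right]

theorem kh_Ah (p : E) : kh (Ah p) = Fh (kh p) := by
  refine Prod.ext rfl ?_
  show ks (Ah p) = (Fh (kh p)).2
  apply eq_of_forall_ge_iff
  intro s
  have h1 : (Gh (lam * p.1, s)).1 = p.1 := by
    rw [Gh_fst]; have := lam_pos; field_simp
  have h2 : (Fh (kh p)).2 ≤ s ↔ ks p ≤ (Gh (lam * p.1, s)).2 := by
    have := Fh_le_iff (z := kh p) (z' := Gh (lam * p.1, s)) h1.symm
    rwa [Fh_Gh] at this
  rw [h2, ks_le_iff, ks_le_iff]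
  have h3 : ((p.1, (Gh (lam * p.1, s)).2) : E) = Gh (lam * p.1, s) := Prod.ext h1.symm rfl
  rw [h3, hs_Gh]
  simp only [Ah]
  rw [div_le_iff₀ lam_pos, mul_comm _ lam]

def Aih (z : E) : E := (z.1 / lam, lam * z.2)
theorem Ah_Aih (z : E) : Ah (Aih z) = z := by
  have := lam_pos
  simp only [Ah, Aih]; ext <;> simp only <;> field_simp

theorem Gh_kh (p : E) : Gh (kh p) = kh (Aih p) := by
  conv_lhs => rw [← Ah_Aih p, kh_Ah, Gh_Fh]

theorem Gh_iter_kh (n : ℕ) (p : E) : Gh^[n] (kh p) = kh (p.1 / lam ^ n, lam ^ n * p.2) := by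
  induction n with
  | zero => simp
  | succ n ih =>
    rw [Function.iterate_succ_apply', ih, Gh_kh]
    simp only [Aih, div_div, pow_succ]
    congr 2; ring

theorem Gh_iter_D0 {z : E} (hz : z ∈ D0) (n : ℕ) : Gh^[n] z ∈ D0 := by
  induction n with
  | zero => exact hz
  | succ n ih => rw [Function.iterate_succ_apply']; exact Gh_D0_mem ih

theorem hs_D0 {z z' : E} (hz : z ∈ D0) (hz' : z' ∈ D0) : hs z = hs z' := by
  have key : ∀ {z z' : E}, z ∈ D0 → z' ∈ D0 → hs z ≤ hs z' := by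
    intro z z' hz hz'
    apply hs_le_of (C := 1)
    intro n
    have h1 := abs_lt.1 (Gh_iter_D0 hz n).2
    have h2 := abs_lt.1 (Gh_iter_D0 hz' n).2
    linarith
  exact le_antisymm (key hz hz') (key hz' hz)

theorem kh_notDD (p : E) : kh p ∉ DD := by
  intro h
  obtain ⟨n, hn⟩ := mem_DD.1 h
  have e : kh p - lat n = kh (p + lat (-n)) := by rw [kh_add, lat_neg, sub_eq_add_neg]
  rw [e] at hn
  set q := p + lat (-n)
  have h2 := abs_lt.1 hn.2
  simp only [kh] at h2
  have h3 : ((q.1, (ks q - 1/10) / 2) : E) ∈ D0 :=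
    ⟨hn.1, by simp only; rw [abs_lt]; constructor <;> linarith⟩
  have h4 := hs_D0 hn h3
  rw [hs_kh] at h4
  have := (ks_le_iff q _).2 h4.le
  linarith

/-- the lifted attractor -/
def LA : Set E := {z | ∀ n, Gh^[n] z ∉ DD}

theorem kh_mem_LA (p : E) : kh p ∈ LA := fun n => by rw [Gh_iter_kh]; exact kh_notDD _

theorem LA_add {z : E} (hz : z ∈ LA) (n : ℤ × ℤ) : z + lat n ∈ LA := fun k => by
  rw [Gh_iter_add, DD_add]; exact hz k

theorem cone {z z' : E} (hz : z ∈ LA) (hu : MM * |z'.1 - z.1| ≤ 1/20)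
    (h : z.2 + MM * |z'.1 - z.1| ≤ z'.2) : hs z ≤ hs z' := by
  have hM := MM_ge
  have key : ∀ n, (Gh^[n] z).2 + MM * |(Gh^[n] z').1 - (Gh^[n] z).1| ≤ (Gh^[n] z').2 := by
    intro n
    induction n with
    | zero => exact h
    | succ n ih =>
      have hy := hz (n+1)
      have hd : |(Gh^[n+1] z').1 - (Gh^[n+1] z).1| ≤ |z'.1 - z.1| := by
        rw [Gh_iter_fst, Gh_iter_fst, ← sub_div, abs_div, abs_of_pos (pow_pos lam_pos _)]
        exact div_le_self (abs_nonneg _) (one_le_pow₀ one_lt_lam.le)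
      rw [Function.iterate_succ_apply'] at hy hd ⊢
      rw [Function.iterate_succ_apply'] at hd ⊢
      set y := Gh (Gh^[n] z)
      set y' := Gh (Gh^[n] z')
      have e1 : Gh^[n] z = Fh y := (Fh_Gh _).symm
      have e2 : Gh^[n] z' = Fh y' := (Fh_Gh _).symm
      rw [e1, e2, Fh_fst, Fh_fst, ← mul_sub, abs_mul, abs_of_pos lam_pos] at ih
      set d := |y'.1 - y.1| with hdd
      have hd0 : 0 ≤ d := abs_nonneg _
      have hMd : MM * d ≤ 1/20 := le_trans (by gcongr) hu
      rw [← Fh_le_iff (z := (y'.1, y.2 + MM * d)) (z' := y') rfl]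
      have := Fh_out hy (z' := (y'.1, y.2 + MM * d)) (norm_E_le (by simp only [Prod.fst_sub]; nlinarith)
        (by simp only [Prod.snd_sub, add_sub_cancel_left]; rwa [abs_of_nonneg (by positivity)]))
      simp only [add_sub_cancel_left] at this
      have h5 := (abs_le.1 this).2
      have := lam'_lt; have := lam_gt
      have h6 : 0 ≤ MM * d := by positivity
      nlinarith
  apply hs_le_of (C := 0)
  intro n
  have := key n
  have h2 : 0 ≤ MM * |(Gh^[n] z').1 - (Gh^[n] z).1| := by positivity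
  linarith

theorem ks_lip {u u' : ℝ} (t : ℝ) (hu : MM * |u' - u| ≤ 1/20) :
    |ks (u', t) - ks (u, t)| ≤ MM * |u' - u| := by
  have key : ∀ {u u' : ℝ}, MM * |u' - u| ≤ 1/20 → ks (u', t) ≤ ks (u, t) + MM * |u' - u| := by
    intro u u' hu
    rw [ks_le_iff]
    have := cone (kh_mem_LA (u, t)) (z' := (u', ks (u, t) + MM * |u' - u|)) hu le_rfl
    rwa [hs_kh] at this
  have h1 := key hu
  have h2 := key (u := u') (u' := u) (by rwa [abs_sub_comm])
  rw [abs_sub_comm] at h2
  rw [abs_le]; constructor <;> linarith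

theorem Fh_iter_notDD {z : E} (hz : z ∉ DD) (n : ℕ) : Fh^[n] z ∉ DD := by
  induction n with
  | zero => exact hz
  | succ n ih => rw [Function.iterate_succ_apply']; exact Fh_notDD ih

/-- the small scale -/
def e1 : ℝ := 1 / (40 * MM)
theorem e1_pos : 0 < e1 := by have := MM_ge; unfold e1; positivity
theorem e1_mul : (1 + MM) * e1 ≤ 1/20 := by
  have := MM_ge; unfold e1; rw [mul_one_div, div_le_iff₀ (by positivity)]; linarith
theorem e1_le : e1 ≤ 1/40 := by nlinarith [e1_mul, MM_ge, e1_pos]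

theorem forward {z z' : E} (hz : z ∉ DD) (n : ℕ) (hu : lam ^ n * |z'.1 - z.1| ≤ e1)
    (h : |z'.2 - z.2| ≤ e1) (i : ℕ) (hi : i ≤ n) :
    |(Fh^[i] z').2 - (Fh^[i] z).2| ≤ lam' ^ i * |z'.2 - z.2| + MM * (lam ^ i * |z'.1 - z.1|) := by
  have hM := MM_ge
  induction i with
  | zero => simp only [Function.iterate_zero, id, pow_zero, one_mul]; nlinarith [abs_nonneg (z'.1 - z.1)]
  | succ i ih =>
    have ih := ih (by omega)
    have h1 : |(Fh^[i] z').1 - (Fh^[i] z).1| = lam ^ i * |z'.1 - z.1| := by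
      rw [Fh_iter_fst, Fh_iter_fst, ← mul_sub, abs_mul, abs_of_pos (pow_pos lam_pos _)]
    have h2 : lam ^ i * |z'.1 - z.1| ≤ e1 :=
      le_trans (mul_le_mul_of_nonneg_right (pow_le_pow_right₀ one_lt_lam.le (by omega))
        (abs_nonneg _)) hu
    have h3 : lam' ^ i * |z'.2 - z.2| ≤ e1 := by
      have : lam' ^ i ≤ 1 := pow_le_one₀ lam'_pos.le (by linarith [lam'_lt])
      nlinarith [abs_nonneg (z'.2 - z.2), pow_pos lam'_pos i]
    have h4 := e1_mul
    have h5 : MM * (lam ^ i * |z'.1 - z.1|) ≤ MM * e1 := by gcongr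
    have := Fh_out (Fh_iter_notDD hz i) (z' := Fh^[i] z') (norm_E_le
      (by simp only [Prod.fst_sub]; rw [h1]; linarith [e1_le])
      (by simp only [Prod.snd_sub]; linarith))
    rw [h1] at this
    rw [Function.iterate_succ_apply', Function.iterate_succ_apply']
    have h6 : |lam' * ((Fh^[i] z').2 - (Fh^[i] z).2)|
        ≤ lam' * (lam' ^ i * |z'.2 - z.2| + MM * (lam ^ i * |z'.1 - z.1|)) := by
      rw [abs_mul, abs_of_pos lam'_pos]; exact mul_le_mul_of_nonneg_left ih lam'_pos.le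
    have h7 := abs_add_le ((Fh (Fh^[i] z')).2 - (Fh (Fh^[i] z)).2
      - lam' * ((Fh^[i] z').2 - (Fh^[i] z).2)) (lam' * ((Fh^[i] z').2 - (Fh^[i] z).2))
    rw [sub_add_cancel] at h7
    have h8 : 0 ≤ MM * (lam ^ i * |z'.1 - z.1|) := by have := lam_pos; positivity
    have := lam'_lt; have := lam_gt
    rw [pow_succ, pow_succ]
    nlinarith

theorem graph {z z' : E} (hz : z ∈ LA) (hu : |z'.1 - z.1| ≤ e1)
    (h : Tendsto (fun n => Gh^[n] z' - Gh^[n] z) atTop (𝓝 0)) :
    |z'.2 - z.2| ≤ MM * |z'.1 - z.1| := by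
  have h2 : Tendsto (fun n => |(Gh^[n] z').2 - (Gh^[n] z).2|) atTop (𝓝 0) := by
    simpa using ((continuous_snd.tendsto _).comp h).abs
  have h3 : Tendsto (fun n => |(Gh^[n] z').2 - (Gh^[n] z).2| + MM * |z'.1 - z.1|) atTop
      (𝓝 (MM * |z'.1 - z.1|)) := by simpa using h2.add_const (MM * |z'.1 - z.1|)
  refine ge_of_tendsto h3 ?_
  filter_upwards [h2.eventually (ge_mem_nhds e1_pos)] with n hn
  have e : lam ^ n * |(Gh^[n] z').1 - (Gh^[n] z).1| = |z'.1 - z.1| := by
    rw [Gh_iter_fst, Gh_iter_fst, ← sub_div, abs_div, abs_of_pos (pow_pos lam_pos _)]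
    have := lam_pos; field_simp
  have := forward (hz n) n (z' := Gh^[n] z') (by rwa [e]) hn n le_rfl
  rw [Fh_Gh_iter, Fh_Gh_iter, e] at this
  have h4 : lam' ^ n ≤ 1 := pow_le_one₀ lam'_pos.le (by linarith [lam'_lt])
  nlinarith [abs_nonneg ((Gh^[n] z').2 - (Gh^[n] z).2), pow_pos lam'_pos n]

theorem backward (z z' : E) (n : ℕ) :
    lam' ^ n * |(Gh^[n] z').2 - (Gh^[n] z).2| ≤ (1 + MM * (1 - (1/2) ^ n)) * ‖z' - z‖ := by
  have hM := MM_ge
  induction n with
  | zero => simpa using abs_snd_le (z' - z)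
  | succ n ih =>
    have h1 := Fh_anti_snd (Gh^[n+1] z) (Gh^[n+1] z')
    have e : ∀ w, Fh (Gh^[n+1] w) = Gh^[n] w := fun w => by
      rw [Function.iterate_succ_apply', Fh_Gh]
    rw [e, e] at h1
    have h2 : |(Gh^[n+1] z').1 - (Gh^[n+1] z).1| ≤ (1/2) ^ (n+1) * ‖z' - z‖ := by
      rw [Gh_iter_fst, Gh_iter_fst, ← sub_div, abs_div, abs_of_pos (pow_pos lam_pos _),
        div_eq_mul_one_div, ← one_div_pow, mul_comm]
      exact mul_le_mul (pow_le_pow_left₀ lam_inv_pos.le lam_inv_lt.le _) (abs_fst_le (z' - z))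
        (abs_nonneg _) (by positivity)
    have h4 : lam' ^ n ≤ 1 := pow_le_one₀ lam'_pos.le (by linarith [lam'_lt])
    have h5 := pow_pos lam'_pos n
    have h6 : lam' ^ n * (MM * |(Gh^[n+1] z').1 - (Gh^[n+1] z).1|)
        ≤ 1 * (MM * ((1/2) ^ (n+1) * ‖z' - z‖)) := by gcongr
    have h7 := mul_le_mul_of_nonneg_left h1 h5.le
    rw [pow_succ, pow_succ] at *
    nlinarith

/-- Hoelder constant -/
def CH : ℝ := 1 + MM + 4 * WW
theorem CH_pos : 0 < CH := by unfold CH; linarith [MM_ge, WW_nonneg]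

theorem hs_holder {z z' : E} {n : ℕ} (h : ‖z' - z‖ ≤ lam' ^ n) : |hs z' - hs z| ≤ CH / lam ^ n := by
  have h1 := backward z z' n
  have h5 := pow_pos lam'_pos n
  have hM := MM_ge
  have h2 : |(Gh^[n] z').2 - (Gh^[n] z).2| ≤ 1 + MM := by
    have : (1 + MM * (1 - (1/2) ^ n)) * ‖z' - z‖ ≤ (1 + MM) * lam' ^ n := by
      have : (0:ℝ) < (1/2) ^ n := by positivity
      apply mul_le_mul _ h (norm_nonneg _) (by linarith)
      nlinarith
    by_contra hc
    nlinarith
  have h3 := abs_le.1 (hs_sub_le (Gh^[n] z))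
  have h4 := abs_le.1 (hs_sub_le (Gh^[n] z'))
  rw [hs_Gh_iter] at h3 h4
  rw [le_div_iff₀ (pow_pos lam_pos n), ← abs_of_pos (pow_pos lam_pos n), ← abs_mul]
  rw [abs_le] at h2 ⊢
  unfold CH
  constructor <;> nlinarith

end Pool.Agent.Lib.MP_4492e9_an
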