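import Pool.Agent.Lib.MP_4492e9_an.Step

open Set Filter Topology
open scoped ContDiff

noncomputable section
namespace Pool.Agent.Lib.MP_4492e9_an

abbrev E : Type := ℝ × ℝ

def ph : ℝ := Real.goldenRatio
theorem ph_sq : ph ^ 2 = ph + 1 := Real.goldenRatio_sq
theorem ph_pos : 0 < ph := Real.goldenRatio_pos
theorem ph_gt : 1618/1000 < ph := by
  have h := ph_sq; have := ph_pos; nlinarith
theorem ph_lt : ph < 1619/1000 := by
  have h := ph_sq; have := ph_pos; nlinarith
theorem ph_irr : Irrational ph := Real.goldenRatio_irrational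

def lam : ℝ := ph + 1
def kap : ℝ := ph / (ph + 2)
def del : ℝ := 1 / (ph + 2)
def lam' : ℝ := 1 / lam - del

theorem lam_gt : 2618/1000 < lam := by unfold lam; linarith [ph_gt]
theorem lam_lt : lam < 2619/1000 := by unfold lam; linarith [ph_lt]
theorem lam_pos : 0 < lam := by linarith [lam_gt]
theorem one_lt_lam : 1 < lam := by linarith [lam_gt]
theorem lam_inv : 1 / lam = 2 - ph := by
  rw [div_eq_iff lam_pos.ne']; unfold lam; nlinarith [ph_sq]
theorem del_gt : 276/1000 < del := by
  unfold del; rw [lt_div_iff₀ (by linarith [ph_pos])]; linarith [ph_lt]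
theorem del_lt : del < 277/1000 := by
  unfold del; rw [div_lt_iff₀ (by linarith [ph_pos])]; linarith [ph_gt]
theorem kap_eq : kap = ph * del := by unfold kap del; ring
theorem kap_gt : 446/1000 < kap := by
  unfold kap; rw [lt_div_iff₀ (by linarith [ph_pos])]; linarith [ph_gt]
theorem kap_lt : kap < 448/1000 := by
  unfold kap; rw [div_lt_iff₀ (by linarith [ph_pos])]; linarith [ph_lt]
theorem del_mul : del * (ph + 2) = 1 := by
  unfold del; have := ph_pos; field_simp
theorem lam'_gt : 1/10 < lam' := by unfold lam'; rw [lam_inv]; linarith [ph_lt, del_lt]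
theorem lam'_lt : lam' < 11/100 := by unfold lam'; rw [lam_inv]; linarith [ph_gt, del_gt]
theorem lam'_pos : 0 < lam' := by linarith [lam'_gt]

/-- the lattice in eigen-coordinates -/
def lat (n : ℤ × ℤ) : E := (ph * n.1 + n.2, n.1 - ph * n.2)

theorem lat_zero : lat 0 = 0 := by simp [lat]
theorem lat_add (n n' : ℤ × ℤ) : lat (n + n') = lat n + lat n' := by
  simp only [lat, Prod.fst_add, Prod.snd_add, Int.cast_add, Prod.mk_add_mk]
  congr 1 <;> ring
theorem lat_neg (n : ℤ × ℤ) : lat (-n) = - lat n := by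
  simp only [lat, Prod.fst_neg, Prod.snd_neg, Int.cast_neg, Prod.neg_mk]
  congr 1 <;> ring
theorem lat_sub (n n' : ℤ × ℤ) : lat (n - n') = lat n - lat n' := by
  rw [sub_eq_add_neg, lat_add, lat_neg, sub_eq_add_neg]

theorem lat_x (n : ℤ × ℤ) : kap * (lat n).1 + del * (lat n).2 = n.1 := by
  simp only [lat, kap_eq]
  have h1 := del_mul; have h2 := ph_sq
  linear_combination (n.1 : ℝ) * h1 + (n.1 : ℝ) * del * h2

theorem lat_y (n : ℤ × ℤ) : del * (lat n).1 - kap * (lat n).2 = n.2 := by
  simp only [lat, kap_eq]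
  have h1 := del_mul; have h2 := ph_sq
  linear_combination (n.2 : ℝ) * h1 + (n.2 : ℝ) * del * h2

theorem lat_norm {n : ℤ × ℤ} (hn : n ≠ 0) : ph ≤ |(lat n).1| * |(lat n).2| := by
  have h1 : (lat n).1 * (lat n).2 = ph * ((n.1 ^ 2 - n.1 * n.2 - n.2 ^ 2 : ℤ) : ℝ) := by
    simp only [lat]; push_cast
    linear_combination (-(n.1:ℝ) * n.2) * ph_sq
  have h2 : (n.1 ^ 2 - n.1 * n.2 - n.2 ^ 2 : ℤ) ≠ 0 := by
    intro h0
    rw [h0] at h1
    simp only [Int.cast_zero, mul_zero, mul_eq_zero, lat] at h1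
    apply hn
    rcases h1 with h | h
    · by_cases hk : n.1 = 0
      · rw [hk] at h; simp at h; exact Prod.ext hk h
      · exact absurd (show ph * n.1 = ((-n.2 : ℤ) : ℝ) by push_cast; linarith)
          ((ph_irr.mul_intCast hk).ne_int _)
    · by_cases hk : n.2 = 0
      · rw [hk] at h; simp at h; exact Prod.ext h hk
      · exact absurd (show ph * n.2 = ((n.1 : ℤ) : ℝ) by linarith)
          ((ph_irr.mul_intCast hk).ne_int _)
  rw [← abs_mul, h1, abs_mul, abs_of_pos ph_pos]
  have : (1:ℝ) ≤ |((n.1 ^ 2 - n.1 * n.2 - n.2 ^ 2 : ℤ) : ℝ)| := by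
    rw [← Int.cast_abs]; exact_mod_cast Int.one_le_abs h2
  nlinarith [ph_pos]

theorem lat_eq_zero {n : ℤ × ℤ} {a b : ℝ} (h1 : |(lat n).1| ≤ a) (h2 : |(lat n).2| ≤ b)
    (hab : a * b < ph) : n = 0 := by
  by_contra hn
  have := lat_norm hn
  have := mul_le_mul h1 h2 (abs_nonneg _) ((abs_nonneg _).trans h1)
  linarith

def term (n : ℤ × ℤ) (z : E) : ℝ :=
  jj (z.1 - (lat n).1) * (stp (z.2 - (lat n).2) - if n.1 < 0 then 1 else 0)

def box (N : ℤ) : Finset (ℤ × ℤ) := Finset.Icc (-N) N ×ˢ Finset.Icc (-N) N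

theorem term_supp {z : E} {R : ℝ} (hz : ‖z‖ ≤ R) {n : ℤ × ℤ} (h : term n z ≠ 0) :
    n ∈ box ⌈3 * (R + 1)⌉ := by
  have h1 : |z.1| ≤ R := (norm_fst_le z).trans hz
  have h2 : |z.2| ≤ R := (norm_snd_le z).trans hz
  have hR : 0 ≤ R := (abs_nonneg _).trans h1
  rw [term, mul_ne_zero_iff] at h
  have hu : |z.1 - (lat n).1| < 11/20 := by
    by_contra hc; exact h.1 (jj_zero (not_lt.1 hc))
  rw [abs_lt] at hu
  rw [abs_le] at h1 h2
  have hx := lat_x n
  have k1 := kap_gt; have k2 := kap_lt; have d1 := del_gt; have d2 := del_lt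
  have hk : |(n.1:ℝ)| ≤ R + 1 := by
    by_cases hn : n.1 < 0
    · have hs : z.2 - (lat n).2 < 1/20 := by
        by_contra hc; apply h.2; rw [if_pos hn, stp_one (not_lt.1 hc), sub_self]
      have : (n.1:ℝ) < 0 := by exact_mod_cast hn
      rw [abs_of_neg this]
      nlinarith
    · have hs : -1/20 < z.2 - (lat n).2 := by
        by_contra hc; apply h.2; rw [if_neg hn, stp_zero (not_lt.1 hc), sub_self]
      have : (0:ℝ) ≤ n.1 := by exact_mod_cast not_lt.1 hn
      rw [abs_of_nonneg this]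
      nlinarith
  have ha : |(n.2:ℝ)| ≤ 3 * (R + 1) := by
    have e : (n.2:ℝ) = (lat n).1 - ph * n.1 := by simp [lat]
    rw [abs_le] at hk ⊢
    have := ph_lt; have := ph_pos
    constructor <;> nlinarith
  have hc := Int.le_ceil (3 * (R + 1))
  rw [abs_le] at hk ha
  simp only [box, Finset.mem_product, Finset.mem_Icc]
  refine ⟨⟨?_, ?_⟩, ?_, ?_⟩
  · have : (-(⌈3 * (R + 1)⌉ : ℝ)) ≤ n.1 := by linarith
    exact_mod_cast this
  · have : (n.1 : ℝ) ≤ (⌈3 * (R + 1)⌉ : ℝ) := by linarith
    exact_mod_cast this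
  · have : (-(⌈3 * (R + 1)⌉ : ℝ)) ≤ n.2 := by linarith
    exact_mod_cast this
  · have : (n.2 : ℝ) ≤ (⌈3 * (R + 1)⌉ : ℝ) := by linarith
    exact_mod_cast this

theorem term_fin (z : E) : (Function.support fun n => term n z).Finite :=
  (box ⌈3 * (‖z‖ + 1)⌉).finite_toSet.subset fun _ h => term_supp le_rfl h

/-- the smoothed staircase -/
def bb (z : E) : ℝ := ∑ᶠ n, term n z

theorem term_smooth (n : ℤ × ℤ) : ContDiff ℝ ∞ (term n) := by
  unfold term
  have := stp_smooth
  have := jj_smooth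
  fun_prop

theorem bb_smooth : ContDiff ℝ ∞ bb := by
  rw [contDiff_iff_contDiffAt]
  intro z
  have h : ContDiff ℝ ∞ fun w => ∑ n ∈ box ⌈3 * (‖z‖ + 1 + 1)⌉, term n w :=
    ContDiff.sum fun n _ => term_smooth n
  refine h.contDiffAt.congr_of_eventuallyEq ?_
  filter_upwards [Metric.ball_mem_nhds z one_pos] with w hw
  apply finsum_eq_sum_of_support_subset
  intro n hn
  apply term_supp _ hn
  have := mem_ball_iff_norm.1 hw
  calc ‖w‖ = ‖z + (w - z)‖ := by congr 1; abel
    _ ≤ ‖z‖ + ‖w - z‖ := norm_add_le _ _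
    _ ≤ ‖z‖ + 1 := by linarith

theorem bb_mono (u : ℝ) {s s' : ℝ} (h : s ≤ s') : bb (u, s) ≤ bb (u, s') := by
  apply finsum_le_finsum' (term_fin _) (term_fin _)
  intro n
  simp only [term]
  apply mul_le_mul_of_nonneg_left _ (jj_nonneg _)
  have := stp_mono (show s - (lat n).2 ≤ s' - (lat n).2 by linarith)
  linarith

/-- the open set `D'` -/
def DD : Set E := {z | ∃ n : ℤ × ℤ, |z.1 - (lat n).1| < 3/5 ∧ |z.2 - (lat n).2| < 1/10}

theorem bb_const {z : E} (hz : z ∉ DD) {u s s' : ℝ} (hu : |u - z.1| ≤ 1/20)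
    (hs : |s - z.2| ≤ 1/20) (hs' : |s' - z.2| ≤ 1/20) : bb (u, s) = bb (u, s') := by
  apply finsum_congr
  intro n
  simp only [term]
  by_cases h : 11/20 ≤ |u - (lat n).1|
  · rw [jj_zero h, zero_mul, zero_mul]
  · have h2 : 1/10 ≤ |z.2 - (lat n).2| := by
      by_contra hc
      apply hz
      refine ⟨n, ?_, not_le.1 hc⟩
      rw [not_le, abs_lt] at h
      rw [abs_le] at hu
      rw [abs_lt]; constructor <;> linarith
    rw [abs_le] at hs hs'
    rcases le_abs.1 h2 with h3 | h3
    · rw [stp_one (by linarith), stp_one (by linarith)]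
    · rw [stp_zero (by linarith), stp_zero (by linarith)]

theorem bb_local {z : E} (h1 : |z.1| ≤ 9/20) (h2 : |z.2| ≤ 1) : bb z = stp z.2 := by
  unfold bb
  rw [finsum_eq_single _ 0]
  · simp [term, lat_zero, jj_one h1]
  · intro n hn
    simp only [term]
    by_cases h : 11/20 ≤ |z.1 - (lat n).1|
    · rw [jj_zero h, zero_mul]
    · have hu : |(lat n).1| < 1 := by
        rw [not_le, abs_lt] at h
        rw [abs_le] at h1
        rw [abs_lt]; constructor <;> linarith
      have hn' := lat_norm hn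
      have hs : ph < |(lat n).2| := by
        by_contra hc
        have := mul_le_mul_of_nonneg_left (not_lt.1 hc) (abs_nonneg (lat n).1)
        nlinarith [ph_pos]
      have hx := lat_x n
      have hk := kap_eq
      have k1 := kap_gt; have d1 := del_gt; have := ph_gt
      rw [abs_lt] at hu
      rw [abs_le] at h2
      rcases lt_abs.1 hs with h3 | h3
      · have : (0:ℝ) < n.1 := by nlinarith
        have : 0 < n.1 := by exact_mod_cast this
        rw [if_neg (by omega), stp_zero (by linarith)]; simp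
      · have : (n.1:ℝ) < 0 := by nlinarith
        have : n.1 < 0 := by exact_mod_cast this
        rw [if_pos this, stp_one (by linarith)]; simp

theorem bb_add_y (z : E) (a : ℤ) : bb (z + lat (0, a)) = bb z := by
  unfold bb
  rw [← finsum_comp_equiv (Equiv.addRight ((0:ℤ), a))]
  apply finsum_congr
  intro n
  simp only [term, Equiv.coe_addRight, lat_add, Prod.fst_add, Prod.snd_add, add_zero,
    add_sub_add_right_eq_sub]

theorem bb_add_x (z : E) : bb (z + lat (1, 0)) = bb z + 1 := by
  unfold bb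
  rw [← finsum_comp_equiv (Equiv.addRight ((1:ℤ), (0:ℤ)))]
  let g : ℤ × ℤ → ℝ := fun n => if n.1 = -1 then jj (z.1 - (lat n).1) else 0
  have hg : ∀ n, term (Equiv.addRight ((1:ℤ), (0:ℤ)) n) (z + lat (1, 0)) = term n z + g n := by
    intro n
    simp only [term, Equiv.coe_addRight, lat_add, Prod.fst_add, Prod.snd_add,
      add_sub_add_right_eq_sub, g]
    split_ifs <;> first | omega | ring
  have hr : Function.support g ⊆ range (fun a : ℤ => ((-1:ℤ), a)) := by
    intro n hn
    simp only [g, Function.mem_support, ne_eq, ite_eq_right_iff, not_forall] at hn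
    exact ⟨n.2, Prod.ext hn.1.symm rfl⟩
  have hs : ∑ᶠ n, g n = 1 := by
    rw [← finsum_mem_univ, ← finsum_mem_inter_support, univ_inter,
      ← inter_eq_right.2 hr, finsum_mem_inter_support, finsum_mem_range]
    · rw [← jj_sum (z.1 + ph)]
      apply finsum_congr
      intro a
      simp only [g, lat, if_true]
      congr 1; push_cast; ring
    · intro a b h; simpa using h
  have hf : (Function.support g).Finite := by
    by_contra hc
    rw [finsum_of_infinite_support hc] at hs
    norm_num at hs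
  simp only [hg]
  rw [finsum_add_distrib (term_fin z) hf, hs]

/-- the periodic perturbation -/
def ww (z : E) : ℝ := bb z - (kap * z.1 + del * z.2) - stp 0

theorem ww_smooth : ContDiff ℝ ∞ ww := by
  unfold ww
  have := bb_smooth
  fun_prop

theorem ww_add (z : E) (n : ℤ × ℤ) : ww (z + lat n) = ww z := by
  have h1 : Function.Periodic ww (lat (1, 0)) := by
    intro z
    have := lat_x (1, 0)
    simp only [ww, bb_add_x, Prod.fst_add, Prod.snd_add]
    push_cast at this
    linarith
  have h2 : ∀ a : ℤ, ∀ z, ww (z + lat (0, a)) = ww z := by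
    intro a z
    have := lat_x (0, a)
    simp only [ww, bb_add_y, Prod.fst_add, Prod.snd_add]
    push_cast at this
    linarith
  have h3 : lat n = lat (0, n.2) + n.1 • lat (1, 0) := by
    simp only [lat]; ext <;> simp <;> ring
  rw [h3, ← add_assoc, h1.zsmul n.1, h2]

end Pool.Agent.Lib.MP_4492e9_an
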