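import Mathlib

open Set Filter Topology
open scoped ContDiff

noncomputable section
namespace Pool.Agent.Lib.MP_4492e9_an

theorem exists_step : ∃ H : ℝ → ℝ, ContDiff ℝ ∞ H ∧ Monotone H ∧ (∀ s, s ≤ -1/20 → H s = 0) ∧
    (∀ s, 1/20 ≤ s → H s = 1) ∧ ∃ m : ℝ, 10 ≤ m ∧ ∀ s, |s| ≤ 1/40 → H s = H 0 + m * s := by
  let b : ContDiffBump (0:ℝ) := ⟨1/40, 1/20, by norm_num, by norm_num⟩
  have hc : Continuous b := b.continuous
  have hi : ∀ x y : ℝ, IntervalIntegrable b MeasureTheory.volume x y :=
    fun x y => hc.intervalIntegrable x y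
  have hz : ∀ x : ℝ, 1/20 ≤ |x| → b x = 0 := fun x hx =>
    b.zero_of_le_dist (by simpa [b] using hx)
  have ho : ∀ x : ℝ, |x| ≤ 1/40 → b x = 1 := fun x hx =>
    b.one_of_mem_closedBall (by simpa [b] using hx)
  set I : ℝ := ∫ x in (-1/20 : ℝ)..(1/20), b x with hI
  have hmid : ∀ s, |s| ≤ 1/40 → ∫ x in (0:ℝ)..s, b x = s := by
    intro s hs
    rw [intervalIntegral.integral_congr (g := fun _ => (1:ℝ))]
    · simp
    · intro x hx
      apply ho
      rw [abs_le] at hs ⊢
      rcases Set.mem_uIcc.1 hx with h | h <;> constructor <;> linarith [h.1, h.2]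
  have hIle : I ≤ 1/10 := by
    have : I ≤ ∫ _ in (-1/20 : ℝ)..(1/20), (1:ℝ) :=
      intervalIntegral.integral_mono_on (by norm_num) (hi _ _) (by simp) (fun x _ => b.le_one)
    simp at this; linarith
  have hIpos : 0 < I := by
    have h1 : ∫ x in (0:ℝ)..(1/40), b x = 1/40 := hmid _ (by rw [abs_of_pos (by norm_num)])
    have h2 : ∫ x in (0:ℝ)..(1/40), b x ≤ I :=
      intervalIntegral.integral_mono_interval (by norm_num) (by norm_num) (by norm_num)
        (Filter.Eventually.of_forall fun x => b.nonneg) (hi _ _)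
    linarith
  have hd : ∀ s, HasDerivAt (fun s => I⁻¹ * ∫ x in (-1/20 : ℝ)..s, b x) (I⁻¹ * b s) s :=
    fun s => ((hc.integral_hasStrictDerivAt (-1/20) s).hasDerivAt).const_mul _
  refine ⟨fun s => I⁻¹ * ∫ x in (-1/20 : ℝ)..s, b x, ?_, ?_, ?_, ?_, I⁻¹, ?_, ?_⟩
  · rw [contDiff_infty_iff_deriv]
    refine ⟨fun s => (hd s).differentiableAt, ?_⟩
    have : deriv (fun s => I⁻¹ * ∫ x in (-1/20 : ℝ)..s, b x) = fun s => I⁻¹ * b s :=
      funext fun s => (hd s).deriv
    rw [this]
    exact contDiff_const.mul b.contDiff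
  · apply monotone_of_deriv_nonneg (fun s => (hd s).differentiableAt)
    intro s
    rw [(hd s).deriv]
    exact mul_nonneg (inv_nonneg.2 hIpos.le) b.nonneg
  · intro s hs
    have : ∫ x in (-1/20 : ℝ)..s, b x = 0 := by
      rw [intervalIntegral.integral_congr (g := fun _ => (0:ℝ))]
      · simp
      · intro x hx
        apply hz
        rw [le_abs]; right
        rcases Set.mem_uIcc.1 hx with h | h <;> linarith [h.1, h.2]
    simp only [this, mul_zero]
  · intro s hs
    have h0 : ∫ x in (1/20 : ℝ)..s, b x = 0 := by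
      rw [intervalIntegral.integral_congr (g := fun _ => (0:ℝ))]
      · simp
      · intro x hx
        apply hz
        rw [le_abs]; left
        rcases Set.mem_uIcc.1 hx with h | h <;> linarith [h.1, h.2]
    have := intervalIntegral.integral_add_adjacent_intervals (hi (-1/20) (1/20)) (hi (1/20) s)
    simp only []
    rw [← this, h0, add_zero, ← hI, inv_mul_cancel₀ hIpos.ne']
  · rw [le_inv_comm₀ (by norm_num) hIpos]; linarith
  · intro s hs
    have := intervalIntegral.integral_add_adjacent_intervals (hi (-1/20) 0) (hi 0 s)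
    simp only []
    rw [← this, hmid s hs]; ring

def stp : ℝ → ℝ := exists_step.choose
theorem stp_smooth : ContDiff ℝ ∞ stp := exists_step.choose_spec.1
theorem stp_mono : Monotone stp := exists_step.choose_spec.2.1
theorem stp_zero {s : ℝ} (h : s ≤ -1/20) : stp s = 0 := exists_step.choose_spec.2.2.1 s h
theorem stp_one {s : ℝ} (h : 1/20 ≤ s) : stp s = 1 := exists_step.choose_spec.2.2.2.1 s h
def slp : ℝ := exists_step.choose_spec.2.2.2.2.choose
theorem slp_ge : 10 ≤ slp := exists_step.choose_spec.2.2.2.2.choose_spec.1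
theorem stp_aff {s : ℝ} (h : |s| ≤ 1/40) : stp s = stp 0 + slp * s :=
  exists_step.choose_spec.2.2.2.2.choose_spec.2 s h

/-- partition of unity in `u` -/
def jj (u : ℝ) : ℝ := stp (u + 1/2) - stp (u - 1/2)

theorem jj_smooth : ContDiff ℝ ∞ jj := by
  unfold jj
  have := stp_smooth
  fun_prop

theorem jj_nonneg (u : ℝ) : 0 ≤ jj u := sub_nonneg.2 (stp_mono (by linarith))

theorem jj_zero {u : ℝ} (h : 11/20 ≤ |u|) : jj u = 0 := by
  unfold jj
  rcases le_abs.1 h with h | h
  · rw [stp_one (by linarith), stp_one (by linarith), sub_self]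
  · rw [stp_zero (by linarith), stp_zero (by linarith), sub_self]

theorem jj_one {u : ℝ} (h : |u| ≤ 9/20) : jj u = 1 := by
  unfold jj
  rw [abs_le] at h
  rw [stp_one (by linarith), stp_zero (by linarith), sub_zero]

theorem jj_sum (u : ℝ) : ∑ᶠ a : ℤ, jj (u - a) = 1 := by
  set n := ⌊u⌋ with hn
  have h1 : (n:ℝ) ≤ u := Int.floor_le u
  have h2 : u < n + 1 := Int.lt_floor_add_one u
  rw [finsum_eq_sum_of_support_subset (s := {n, n+1})]
  · rw [Finset.sum_pair (by omega)]
    unfold jj
    push_cast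
    rw [stp_one (s := u - n + 1/2) (by linarith), stp_zero (s := u - (n+1) - 1/2) (by linarith)]
    have : u - n - 1/2 = u - (n+1) + 1/2 := by ring
    rw [this]; ring
  · intro a ha
    simp only [Function.mem_support] at ha
    by_contra hne
    simp only [Finset.coe_insert, Finset.coe_singleton, mem_insert_iff, mem_singleton_iff,
      not_or] at hne
    apply ha
    apply jj_zero
    rw [le_abs]
    rcases lt_or_gt_of_ne hne.1 with h | h
    · left
      have : (a:ℝ) + 1 ≤ n := by exact_mod_cast h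
      linarith
    · right
      have : n + 2 ≤ a := by omega
      have : (n:ℝ) + 2 ≤ a := by exact_mod_cast this
      linarith

end Pool.Agent.Lib.MP_4492e9_an
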