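import Pool.Agent.Lib.MP_4492e9_an.Semi
import Pool.Agent.Lib.MP_4492e9_an.Defs

open Set Filter Topology MeasureTheory
open scoped ENNReal NNReal

noncomputable section
namespace Pool.Agent.Lib.MP_4492e9_an

abbrev T1 : Type := AddCircle (1 : ℝ)

instance instProbT1 : IsProbabilityMeasure (volume : Measure T1) := ⟨by simp⟩
instance instProbT2 : IsProbabilityMeasure (volume : Measure T2) :=
  inferInstanceAs (IsProbabilityMeasure ((volume : Measure T1).prod (volume : Measure T1)))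
instance instHaarT2 : Measure.IsAddHaarMeasure (volume : Measure T2) :=
  inferInstanceAs (Measure.IsAddHaarMeasure ((volume : Measure T1).prod (volume : Measure T1)))

def val (x : T1) : ℝ := (AddCircle.equivIoc 1 0 x : ℝ)

theorem val_mem (x : T1) : val x ∈ Ioc (0:ℝ) 1 := by
  simpa [val] using (AddCircle.equivIoc 1 0 x).2
theorem coe_val (x : T1) : ((val x : ℝ) : T1) = x := AddCircle.coe_equivIoc
theorem val_coe {r : ℝ} (h : r ∈ Ioc (0:ℝ) 1) : val (r : T1) = r :=
  AddCircle.equivIoc_coe_of_mem (by simpa using h)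
theorem val_mp : MeasurePreserving val volume (volume.restrict (Ioc (0:ℝ) 1)) := by
  have := (measurePreserving_subtype_coe (μa := (volume : Measure ℝ))
    (measurableSet_Ioc (a := (0:ℝ)) (b := 0 + 1))).comp (AddCircle.measurePreserving_equivIoc 1)
  have e : Ioc (0:ℝ) 1 = Ioc 0 (0 + 1) := by simp
  rw [e]
  exact this
theorem val_meas : Measurable val := val_mp.measurable

theorem coe_eq_iff {a b : ℝ} : ((a : T1) = b) ↔ ∃ n : ℤ, b = a + n := by
  rw [eq_comm, ← sub_eq_zero, ← AddCircle.coe_sub, AddCircle.coe_eq_zero_iff]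
  simp only [zsmul_eq_mul, mul_one]
  constructor <;> rintro ⟨n, hn⟩ <;> exact ⟨n, by linarith⟩

theorem norm_coe_le (a : ℝ) : ‖(a : T1)‖ ≤ |a| := by
  rw [UnitAddCircle.norm_eq]; simpa using round_le a 0

theorem exists_lift1 (a : ℝ) (y : T1) : ∃ b : ℝ, (b : T1) = y ∧ |b - a| = dist y (a : T1) := by
  refine ⟨val y - round (val y - a), ?_, ?_⟩
  · conv_rhs => rw [← coe_val y]
    exact coe_eq_iff.2 ⟨round (val y - a), by ring⟩
  · conv_rhs => rw [← coe_val y]
    rw [dist_eq_norm, ← AddCircle.coe_sub, UnitAddCircle.norm_eq]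
    congr 1; ring

/-- projection from eigen-coordinates -/
def pp (z : E) : T2 := proj (TI z)
/-- canonical lift -/
def lf (p : T2) : E := TT (val p.1, val p.2)

theorem pp_lf (p : T2) : pp (lf p) = p := by
  simp only [pp, lf, TI_TT, proj, coe_val]

theorem pp_surj : Function.Surjective pp := fun p => ⟨lf p, pp_lf p⟩

theorem lf_norm (p : T2) : ‖lf p‖ ≤ 3 := by
  refine (TT_norm _).trans ?_
  have h1 := val_mem p.1; have h2 := val_mem p.2
  have : ‖((val p.1, val p.2) : E)‖ ≤ 1 :=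
    norm_E_le (by simp only; rw [abs_of_pos h1.1]; exact h1.2)
      (by simp only; rw [abs_of_pos h2.1]; exact h2.2)
  linarith

theorem TT_cont : Continuous TT := TL.continuous
theorem TI_cont : Continuous TI := TL.symm.continuous

theorem lf_meas : Measurable lf :=
  TT_cont.measurable.comp ((val_meas.comp measurable_fst).prodMk (val_meas.comp measurable_snd))

theorem pp_add (z z' : E) : pp (z + z') = pp z + pp z' := by
  simp only [pp, TI_add, proj]; rfl
theorem pp_sub (z z' : E) : pp (z - z') = pp z - pp z' := by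
  simp only [pp, TI_sub, proj]; rfl
theorem pp_zero : pp 0 = 0 := by simpa using pp_sub 0 0

theorem pp_eq_iff {z z' : E} : pp z = pp z' ↔ ∃ n, z' = z + lat n := by
  simp only [pp, proj, Prod.mk.injEq, coe_eq_iff]
  constructor
  · rintro ⟨⟨a, ha⟩, b, hb⟩
    refine ⟨(a, b), ?_⟩
    rw [← TT_TI z', ← TT_TI z, lat_eq, ← TT_add]
    congr 1
    exact Prod.ext ha hb
  · rintro ⟨n, rfl⟩
    rw [TI_add, TI_lat]
    exact ⟨⟨n.1, rfl⟩, n.2, rfl⟩

theorem pp_add_lat (z : E) (n : ℤ × ℤ) : pp (z + lat n) = pp z := (pp_eq_iff.2 ⟨n, rfl⟩).symm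

theorem lf_pp (z : E) : ∃ n, lf (pp z) = z + lat n := pp_eq_iff.1 (pp_lf _).symm

theorem pp_dist (z z' : E) : dist (pp z') (pp z) ≤ ‖z' - z‖ := by
  rw [dist_eq_norm, ← pp_sub]
  refine le_trans ?_ (TI_norm _)
  rw [pp, proj, Prod.norm_def, Prod.norm_def]
  exact max_le_max (norm_coe_le _) (norm_coe_le _)

theorem pp_lip : LipschitzWith 1 pp :=
  LipschitzWith.of_dist_le_mul fun z z' => by simpa [dist_eq_norm] using pp_dist z' z

theorem pp_cont : Continuous pp := pp_lip.continuous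

theorem exists_lift (z : E) (q : T2) : ∃ z', pp z' = q ∧ ‖z' - z‖ ≤ 3 * dist q (pp z) := by
  obtain ⟨a, ha, ha'⟩ := exists_lift1 (TI z).1 q.1
  obtain ⟨b, hb, hb'⟩ := exists_lift1 (TI z).2 q.2
  refine ⟨TT (a, b), ?_, ?_⟩
  · simp only [pp, TI_TT, proj, ha, hb]
  · conv_lhs => rw [← TT_TI z, ← TT_sub]
    refine (TT_norm _).trans (mul_le_mul_of_nonneg_left ?_ (by norm_num))
    apply norm_E_le
    · simp only [Prod.fst_sub, ha']; exact le_max_left _ _
    · simp only [Prod.snd_sub, hb']; exact le_max_right _ _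

theorem eq_of_pp {z z' : E} (h : pp z = pp z') (hd : ‖z' - z‖ ≤ 1) : z' = z := by
  obtain ⟨n, rfl⟩ := pp_eq_iff.1 h
  rw [add_sub_cancel_left] at hd
  rw [lat_eq_zero ((abs_fst_le _).trans hd) ((abs_snd_le _).trans hd) (by linarith [ph_gt]),
    lat_zero, add_zero]

theorem pp_anti {z z' : E} (hd : ‖z' - z‖ ≤ 1/2) : ‖z' - z‖ ≤ 3 * dist (pp z') (pp z) := by
  obtain ⟨w, hw, hw'⟩ := exists_lift z (pp z')
  by_contra hc
  rw [not_le] at hc
  have : w = z' := eq_of_pp hw.symm (by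
    calc ‖w - z'‖ = ‖(w - z) - (z' - z)‖ := by congr 1; abel
      _ ≤ ‖w - z‖ + ‖z' - z‖ := norm_sub_le _ _
      _ ≤ 1 := by linarith)
  rw [this] at hw'
  linarith

theorem pp_quot : IsQuotientMap pp := by
  have h1 : IsOpenQuotientMap (Prod.map ((↑) : ℝ → T1) ((↑) : ℝ → T1)) :=
    QuotientAddGroup.isOpenQuotientMap_mk.prodMap QuotientAddGroup.isOpenQuotientMap_mk
  exact h1.isQuotientMap.comp TL.symm.toHomeomorph.isQuotientMap

/-- descent of an equivariant map -/
def dsc (Φ : E → E) (p : T2) : T2 := pp (Φ (lf p))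

theorem dsc_pp {Φ : E → E} (h : ∀ z n, ∃ n', Φ (z + lat n) = Φ z + lat n') (z : E) :
    dsc Φ (pp z) = pp (Φ z) := by
  obtain ⟨n, hn⟩ := lf_pp z
  obtain ⟨n', hn'⟩ := h z n
  rw [dsc, hn, hn', pp_add_lat]

def ff : T2 → T2 := dsc Fh
def gg : T2 → T2 := dsc Gh
def hT : T2 → T2 := dsc hh
def kT : T2 → T2 := dsc kh
def AT : T2 → T2 := dsc Ah

theorem ff_pp (z : E) : ff (pp z) = pp (Fh z) := dsc_pp (fun z n => ⟨_, Fh_add z n⟩) z
theorem gg_pp (z : E) : gg (pp z) = pp (Gh z) := dsc_pp (fun z n => ⟨_, Gh_add z n⟩) z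
theorem hT_pp (z : E) : hT (pp z) = pp (hh z) := dsc_pp (fun z n => ⟨_, hh_add z n⟩) z
theorem kT_pp (z : E) : kT (pp z) = pp (kh z) := dsc_pp (fun z n => ⟨_, kh_add z n⟩) z
theorem AT_pp (z : E) : AT (pp z) = pp (Ah z) :=
  dsc_pp (fun z n => ⟨Am n, by rw [Ah_add, lat_Am]⟩) z

theorem ff_iter_pp (n : ℕ) (z : E) : ff^[n] (pp z) = pp (Fh^[n] z) := by
  induction n with
  | zero => rfl
  | succ n ih => simp only [Function.iterate_succ_apply', ih, ff_pp]
theorem gg_iter_pp (n : ℕ) (z : E) : gg^[n] (pp z) = pp (Gh^[n] z) := by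
  induction n with
  | zero => rfl
  | succ n ih => simp only [Function.iterate_succ_apply', ih, gg_pp]
theorem AT_iter_pp (n : ℕ) (z : E) : AT^[n] (pp z) = pp (Ah^[n] z) := by
  induction n with
  | zero => rfl
  | succ n ih => simp only [Function.iterate_succ_apply', ih, AT_pp]

theorem ff_gg (p : T2) : ff (gg p) = p := by
  obtain ⟨z, rfl⟩ := pp_surj p; rw [gg_pp, ff_pp, Fh_Gh]
theorem gg_ff (p : T2) : gg (ff p) = p := by
  obtain ⟨z, rfl⟩ := pp_surj p; rw [ff_pp, gg_pp, Gh_Fh]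
theorem hT_kT (p : T2) : hT (kT p) = p := by
  obtain ⟨z, rfl⟩ := pp_surj p; rw [kT_pp, hT_pp, hh_kh]
theorem hT_ff (p : T2) : hT (ff p) = AT (hT p) := by
  obtain ⟨z, rfl⟩ := pp_surj p; rw [ff_pp, hT_pp, hT_pp, AT_pp, hh_Fh]
theorem kT_AT (p : T2) : kT (AT p) = ff (kT p) := by
  obtain ⟨z, rfl⟩ := pp_surj p; rw [AT_pp, kT_pp, kT_pp, ff_pp, kh_Ah]

def fE : T2 ≃ T2 := ⟨ff, gg, gg_ff, ff_gg⟩

theorem Ah_cont : Continuous Ah := by unfold Ah; fun_prop

theorem ff_cont : Continuous ff := pp_quot.continuous_iff.2 (by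
  have : ff ∘ pp = pp ∘ Fh := funext ff_pp
  rw [this]; exact pp_cont.comp Fh_smooth.continuous)
theorem gg_cont : Continuous gg := pp_quot.continuous_iff.2 (by
  have : gg ∘ pp = pp ∘ Gh := funext gg_pp
  rw [this]; exact pp_cont.comp Gh_cont)
theorem hT_cont : Continuous hT := pp_quot.continuous_iff.2 (by
  have : hT ∘ pp = pp ∘ hh := funext hT_pp
  rw [this]; exact pp_cont.comp hh_cont)
theorem AT_cont : Continuous AT := pp_quot.continuous_iff.2 (by
  have : AT ∘ pp = pp ∘ Ah := funext AT_pp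
  rw [this]; exact pp_cont.comp Ah_cont)
theorem kT_meas : Measurable kT := pp_cont.measurable.comp (kh_meas.comp lf_meas)

theorem ff_lip (p q : T2) : dist (ff q) (ff p) ≤ 3 * LL * dist q p := by
  obtain ⟨z, rfl⟩ := pp_surj p
  obtain ⟨z', rfl, h⟩ := exists_lift z q
  rw [ff_pp, ff_pp]
  refine (pp_dist _ _).trans ((Fh_lip _ _).trans ?_)
  have := LL_ge
  nlinarith

theorem gg_lip (p q : T2) : dist (gg q) (gg p) ≤ 3 * LL * dist q p := by
  obtain ⟨z, rfl⟩ := pp_surj p
  obtain ⟨z', rfl, h⟩ := exists_lift z q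
  rw [gg_pp, gg_pp]
  refine (pp_dist _ _).trans ((Gh_lip _ _).trans ?_)
  have := LL_ge
  nlinarith

/-! measure comparison -/

def vE : Measure E := Measure.map TT volume

instance : Measure.IsAddHaarMeasure vE := TL.isAddHaarMeasure_map volume

def cE : ℝ≥0 := Measure.addHaarScalarFactor vE volume
theorem vE_eq : vE = cE • volume := Measure.isAddLeftInvariant_eq_smul _ _
theorem cE_pos : 0 < cE := Measure.addHaarScalarFactor_pos_of_isAddHaarMeasure _ _

def FD : Set E := TI ⁻¹' (Ioc (0:ℝ) 1 ×ˢ Ioc (0:ℝ) 1)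
theorem FD_meas : MeasurableSet FD :=
  TI_cont.measurable (measurableSet_Ioc.prod measurableSet_Ioc)
theorem lf_mem (p : T2) : lf p ∈ FD := by
  simp only [FD, lf, mem_preimage, TI_TT]; exact ⟨val_mem _, val_mem _⟩
theorem lf_pp_of_mem {z : E} (hz : z ∈ FD) : lf (pp z) = z := by
  simp only [lf, pp, proj, val_coe hz.1, val_coe hz.2]; exact TT_TI z

theorem lf_mp : MeasurePreserving lf volume (vE.restrict FD) := by
  have h1 := val_mp.prod val_mp
  rw [Measure.prod_restrict] at h1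
  have h2 : MeasurePreserving TT volume vE := ⟨TT_cont.measurable, rfl⟩
  have h3 := h2.restrict_preimage FD_meas
  have e : TT ⁻¹' FD = Ioc (0:ℝ) 1 ×ˢ Ioc (0:ℝ) 1 := by
    ext z; simp only [FD, mem_preimage, TI_TT]
  rw [e] at h3
  exact h3.comp h1

theorem vol_image_le {S : Set E} (hS : MeasurableSet S) : volume (pp '' S) ≤ cE * volume S := by
  have h1 : pp '' S ⊆ ⋃ n, lf ⁻¹' ((fun w => w + lat n) ⁻¹' S) := by
    rintro _ ⟨z, hz, rfl⟩
    obtain ⟨n, hn⟩ := lf_pp z
    refine mem_iUnion.2 ⟨-n, ?_⟩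
    simp only [mem_preimage, hn, lat_neg]
    simpa using hz
  have hm : ∀ n, MeasurableSet ((fun w => w + lat (-n)) ⁻¹' FD) :=
    fun n => measurable_add_const _ FD_meas
  have h2 : ∀ n, volume (lf ⁻¹' ((fun w => w + lat n) ⁻¹' S))
      = vE (S ∩ (fun w => w + lat (-n)) ⁻¹' FD) := by
    intro n
    rw [lf_mp.measure_preimage (measurable_add_const _ hS).nullMeasurableSet,
      Measure.restrict_apply (measurable_add_const _ hS),
      ← measure_preimage_add_right vE (lat n) (S ∩ _)]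
    congr 1
    ext w
    simp [lat_neg]
  refine (measure_mono h1).trans ((measure_iUnion_le _).trans ?_)
  simp only [h2]
  rw [← measure_iUnion]
  · refine (measure_mono (iUnion_subset fun n => inter_subset_left)).trans ?_
    rw [vE_eq]; rfl
  · intro n n' hn
    rw [Function.onFun, Set.disjoint_left]
    rintro w ⟨-, h3⟩ ⟨-, h4⟩
    apply hn
    have e1 := lf_pp_of_mem h3
    have e2 := lf_pp_of_mem h4
    rw [pp_add_lat] at e1 e2
    rw [e1, add_right_inj] at e2
    have e3 := congrArg TI e2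
    rw [TI_lat, TI_lat] at e3
    simp only [Prod.fst_neg, Int.cast_neg, Prod.snd_neg, Prod.mk.injEq, neg_inj, Int.cast_inj] at e3
    exact Prod.ext e3.1 e3.2
  · exact fun n => hS.inter (hm n)

theorem vol_preimage_null {N : Set T2} (hN : MeasurableSet N) (h : volume N = 0) :
    volume (pp ⁻¹' N) = 0 := by
  have hm : MeasurableSet (pp ⁻¹' N) := pp_cont.measurable hN
  have h1 : vE (pp ⁻¹' N ∩ FD) = 0 := by
    rw [← Measure.restrict_apply hm, ← lf_mp.measure_preimage hm.nullMeasurableSet]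
    have : lf ⁻¹' (pp ⁻¹' N) = N := by ext p; simp [pp_lf]
    rw [this, h]
  have h2 : pp ⁻¹' N ⊆ ⋃ n, (fun w => w + lat n) ⁻¹' (pp ⁻¹' N ∩ FD) := by
    intro z hz
    obtain ⟨n, hn⟩ := lf_pp z
    refine mem_iUnion.2 ⟨n, ?_, ?_⟩
    · simpa [pp_add_lat] using hz
    · show z + lat n ∈ FD
      rw [← hn]; exact lf_mem _
  have h3 : vE (pp ⁻¹' N) = 0 :=
    measure_mono_null h2 (measure_iUnion_null fun n => by rw [measure_preimage_add_right, h1])
  rw [vE_eq] at h3
  simpa [cE_pos.ne'] using h3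

end Pool.Agent.Lib.MP_4492e9_an
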